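import Pool.Agent.Lib.MP_764a00_al.Stm

/-! # few dense open sets have a common element (helper80) -/

namespace Pool.Agent.CN

open Cardinal

/-- the recursion -/
private theorem dt_rec {P : Type} [Preorder P] {J : Type} [LinearOrder J] [WellFoundedLT J]
    (lam : Cardinal.{0}) (hJ : ∀ j : J, #(Set.Iio j) ≤ lam)
    (hch : ∀ (J : Type) [LinearOrder J] [Nonempty J] (f : J → P), #J ≤ lam → Antitone f →
      ∃ q, ∀ j, q ≤ f j)
    (p : P) (E : J → Set P) (hE : ∀ (j : J), ∀ q ≤ p, ∃ r ≤ q, r ∈ E j) :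
    ∃ f : J → P, ∀ j, f j ≤ p ∧ (∀ i < j, f j ≤ f i) ∧ f j ∈ E j := by
  classical
  choose g hg hgE using hE
  -- one step of the recursion
  let F : (j : J) → ((i : J) → i < j → P) → P := fun j ih =>
    if h : ∃ q, q ≤ p ∧ ∀ (i : J) (hi : i < j), q ≤ ih i hi then
      g j h.choose h.choose_spec.1 else p
  let f : J → P := (wellFounded_lt (α := J)).fix F
  have hf : ∀ j, f j = F j (fun i _ => f i) := fun j => (wellFounded_lt (α := J)).fix_eq F j
  refine ⟨f, fun j => ?_⟩
  induction j using (wellFounded_lt (α := J)).induction with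
  | _ j ih =>
    have hex : ∃ q, q ≤ p ∧ ∀ (i : J) (hi : i < j), q ≤ f i := by
      rcases isEmpty_or_nonempty (Set.Iio j) with he | he
      · exact ⟨p, le_rfl, fun i hi => (he.false ⟨i, hi⟩).elim⟩
      · have hanti : Antitone (fun i : Set.Iio j => f i) := by
          intro a b hab
          rcases hab.lt_or_eq with h | h
          · exact (ih b.1 b.2).2.1 a.1 h
          · rw [h]
        obtain ⟨q, hq⟩ := hch (Set.Iio j) (fun i => f i) (hJ j) hanti
        refine ⟨q, ?_, fun i hi => hq ⟨i, hi⟩⟩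
        obtain ⟨i⟩ := he
        exact (hq i).trans (ih i.1 i.2).1
    have hfj : f j = g j hex.choose hex.choose_spec.1 := by
      rw [hf j]
      exact dif_pos hex
    have hs := hex.choose_spec
    have hle := hg j hex.choose hs.1
    rw [hfj]
    exact ⟨hle.trans hs.1, fun i hi => hle.trans (hs.2 i hi), hgE j hex.choose hs.1⟩

theorem p_DT : S_DT := by
  intro P _ lam hlam hch p A D hA hD hdown
  classical
  rcases isEmpty_or_nonempty A with hAe | hAn
  · exact ⟨p, le_rfl, fun a => (hAe.false a).elim⟩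
  set J := (#A).ord.ToType with hJdef
  have hJc : #J = #A := mk_ord_toType _
  obtain ⟨e⟩ : Nonempty (A ≃ J) := Cardinal.eq.1 hJc.symm
  have hIio : ∀ j : J, #(Set.Iio j) ≤ lam := by
    intro j
    have h : #(Set.Iio j) < #J := mk_Iio_lt j (by
      rw [hJc, Ordinal.type_toType])
    rw [hJc] at h
    exact h.le.trans hA
  obtain ⟨f, hf⟩ := dt_rec lam hIio hch p (fun j => D (e.symm j)) (fun j q hq => hD (e.symm j) q hq)
  have hne : Nonempty J := ⟨e (Classical.arbitrary A)⟩
  have hanti : Antitone f := by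
    intro a b hab
    rcases hab.lt_or_eq with h | h
    · exact (hf b).2.1 a h
    · rw [h]
  obtain ⟨q, hq⟩ := hch J f (by rw [hJc]; exact hA) hanti
  refine ⟨q, ?_, fun a => ?_⟩
  · obtain ⟨j⟩ := hne
    exact (hq j).trans (hf j).1
  · have h := (hf (e a)).2.2
    rw [e.symm_apply_apply] at h
    exact hdown a _ h q (hq (e a))

end Pool.Agent.CN
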