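import Pool.Agent.Lib.MP_764a00_al.Stm

/-!
# MP_764a00_al : the conditional counterexample
-/

namespace Pool.Agent.CN

open Cardinal

private theorem a_le {M : Type} [AddCommGroup M] {B : Set M} {lam : Cardinal.{0}}
    {q p : Cond M B lam} (h : q ≤ p) :
    p.H ≤ q.H ∧ p.T ⊆ q.T ∧ ∀ t ∈ p.T, ∀ y ∈ q.H, y ∈ t.1.T t.2 → y ∈ p.H := h

theorem p_A (lb : S_LB) (sq : S_SQ) (cl : S_CL) (ar : S_AR) (cn : S_CN) (m0 : S_M0) (c0 : S_C0)
    (se : S_SE) (kt : S_KT) : S_A := by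
  intro lam hSL hlt hcof hpow
  have hle : ℵ₀ ≤ lam := hlt.le
  have hmk : Cardinal.mk lam.out = lam := Cardinal.mk_out lam
  have hinf : Infinite lam.out := by
    rw [Cardinal.infinite_iff, hmk]
    exact hle
  obtain ⟨M, instM, B, hM, hB, hdense, hcard⟩ := m0 lam.out hinf
  rw [hmk] at hB hcard
  obtain ⟨p⟩ := c0 M B lam hM hle hB.le
  -- the generic sequence
  obtain ⟨J, instJ, f, hJ, hanti, -, hmeet, hbdd⟩ := sq (Cond M B lam) lam hle
    (fun J _ _ g hg1 hg2 => by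
      obtain ⟨q, hq, -⟩ := lb M B lam hle J g hg1 hg2
      exact ⟨q, hq⟩) p {L : LG M // #L.N ≤ lam}
    (fun L => {q | Hnd q L.1 ∨ ∀ r ≤ q, ¬ (L.1.N ≤ r.H ∧ L.1.Pure ∧ B ⊆ L.1.N ∧ L.1.Arch ∧
      #L.1.N = lam)})
    ((cn M lam hle hcard).trans hpow.le)
    (by
      rintro ⟨L, hL⟩ q
      by_cases h : ∃ r ≤ q, (L.N ≤ r.H ∧ L.Pure ∧ B ⊆ L.N ∧ L.Arch ∧ #L.N = lam)
      · obtain ⟨r, hr, h1, h2, h3, h4, h5⟩ := h
        obtain ⟨q', hq', hH⟩ := se M B lam hM hSL hlt hcof hdense r L h1 h2 h3 h4 h5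
        exact ⟨q', hq'.trans hr, Or.inl hH⟩
      · refine ⟨q, le_rfl, Or.inr ?_⟩
        intro r hr h1
        exact h ⟨r, hr, h1⟩)
  have hmono : ∀ i j, i ≤ j → (f i).H ≤ (f j).H := fun i j hij => (a_le (hanti hij)).1
  obtain ⟨G, hG⟩ : ∃ G : AddSubgroup M, ∀ y, y ∈ G ↔ ∃ j, y ∈ (f j).H := by
    refine ⟨⨆ j, (f j).H, fun y => ?_⟩
    apply AddSubgroup.mem_iSup_of_directed
    intro i j
    exact ⟨max i j, hmono _ _ (le_max_left _ _), hmono _ _ (le_max_right _ _)⟩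
  refine ⟨G, inferInstance, ?_, ?_⟩
  · intro g n hn hg
    apply Subtype.ext
    apply hM.tf (n : ℤ) (g : M) (by exact_mod_cast hn)
    have h1 : ((n • g : G) : M) = 0 := by rw [hg]; rfl
    rw [natCast_zsmul]
    exact h1
  · rintro ⟨lat, hadd, harch⟩
    obtain ⟨G', hG'N, hG'A⟩ : ∃ G' : LG M, G'.N = G ∧ G'.Arch :=
      ⟨⟨G, lat, { add_le_add_left := fun a b h c => by
                    rw [add_comm a c, add_comm b c]; exact hadd a b c h }⟩, rfl, harch⟩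
    have hP : G'.Pure := by
      intro z hz
      rw [hG'N, hG] at hz ⊢
      obtain ⟨j, hj⟩ := hz
      exact ⟨j, (f j).pure z hj⟩
    have hBG : B ⊆ G'.N := by
      intro b hb
      rw [SetLike.mem_coe, hG'N, hG]
      exact ⟨Classical.arbitrary J, (f _).base hb⟩
    obtain ⟨L, hSub, hCls, hLP, hBL, hLc⟩ := cl M B lam G' hM hle hB hBG hP
    have hLA : L.Arch := ar M L G' hSub hG'A
    have hLD : L.Dense := by
      intro z K
      obtain ⟨u, hu, hz⟩ := hdense z K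
      exact ⟨⟨u, hBL hu⟩, hz⟩
    have hLG : ∀ x : L.N, ∃ j, (x : M) ∈ (f j).H := by
      intro x
      obtain ⟨h, -, -⟩ := hSub
      have := h x.2
      rw [hG'N, hG] at this
      exact this
    choose jx hjx using hLG
    obtain ⟨j₁, hj₁⟩ := hbdd (Set.range jx) (Cardinal.mk_range_le.trans hLc.le)
    have hL1 : L.N ≤ (f j₁).H := by
      intro x hx
      exact hmono _ _ (hj₁ _ (Set.mem_range_self ⟨x, hx⟩)) (hjx ⟨x, hx⟩)
    obtain ⟨j₂, hj₂⟩ := hmeet ⟨L, hLc.le⟩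
    have hHnd : Hnd (f j₂) L := by
      rcases hj₂ with h | h
      · exact h
      · exact absurd ⟨hL1.trans (hmono _ _ (le_max_left j₁ j₂)), hLP, hBL, hLA, hLc⟩
          (h (f (max j₁ j₂)) (hanti (le_max_right j₁ j₂)))
    obtain ⟨I, X, h, a, x, hBD, hx, hz⟩ := hHnd
    refine kt M L G' I X h a x hM hLP hLD hBD hSub hCls hP hG'A ?_ ?_
    · intro l
      rw [hG'N, hG]
      exact ⟨j₂, hx l⟩
    · intro z hT y hy hyT
      obtain ⟨hzT, hzy⟩ := hz z hT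
      apply hzy y _ hyT
      rw [hG'N, hG] at hy
      obtain ⟨j, hj⟩ := hy
      rcases le_total j j₂ with h1 | h1
      · exact hmono _ _ h1 hj
      · exact (a_le (hanti h1)).2.2 (L, z) hzT y hj hyT

end Pool.Agent.CN
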