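import Pool.Agent.Lib.MP_764a00_al.Stm

set_option autoImplicit false

namespace Pool.Agent.CN

theorem p_AR : S_AR := by
  intro M _ L G hS hG a b hab
  obtain ⟨h, hs, _⟩ := hS
  have key : ∀ x y : L.N, x ≤ y ↔ AddSubgroup.inclusion h x ≤ AddSubgroup.inclusion h y := by
    intro x y
    rw [← sup_eq_right, ← sup_eq_right, ← hs]
    constructor
    · intro hx; rw [hx]
    · intro hx; exact AddSubgroup.inclusion_injective h hx
  rw [key, map_zero]
  apply hG _ (AddSubgroup.inclusion h b)
  intro n
  have h1 := (key _ _).1 (hab n)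
  rwa [map_nsmul] at h1

end Pool.Agent.CN
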