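import Pool.Agent.Lib.MP_764a00_al.W.Stm

/-!
# MP_764a00_al : the model
-/

namespace Pool.Agent.CNW

open Pool.Agent.CN Pool.Agent.CR Cardinal Ordinal

theorem b_cof : (ℶ_ ω : Cardinal.{0}).ord.cof = ℵ₀ := by
  have h : Order.IsNormal (Cardinal.ord ∘ Cardinal.beth : Ordinal.{0} → Ordinal.{0}) :=
    isNormal_ord.comp isNormal_beth
  have h1 := cof_map_of_isNormal h isSuccLimit_omega0
  rw [cof_omega0] at h1
  exact h1

theorem b_sl : (ℶ_ ω : Cardinal.{0}).IsStrongLimit :=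
  isStrongLimit_beth.2 isSuccLimit_omega0.isSuccPrelimit

theorem b_lt : (ℵ₀ : Cardinal.{0}) < ℶ_ ω := by
  rw [← beth_zero, beth_lt_beth]
  exact omega0_pos

theorem b_cnt {M : Type} [AddCommGroup M] {B : Set M} {lam : Cardinal.{0}} {S : Set (Ob M B lam)}
    (G : Set (Cond M B lam)) (h : S.Countable) : ((ppi M B lam).N S G).Countable := by
  unfold FW.Pr.N CR.Mod
  refine Set.Countable.image ?_ _
  refine Set.Countable.preimage_of_injOn h ?_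
  intro x _ y _ hxy
  exact FW.nm_inj hxy

theorem p_B (w1 : S_W1) (w2 : S_W2) (w3 : S_W3) (w4 : S_W4) (w5 : S_W5) (w6 : S_W6)
    (w7 : S_W7) (m0 : S_M0) (c0 : S_C0) (gf : S_GF) : S_B := by
  obtain ⟨ι, hι⟩ : ∃ ι : Type, #ι = ℶ_ ω := ⟨_, Cardinal.mk_out _⟩
  have hinf : Infinite ι := Cardinal.infinite_iff.2 (by rw [hι]; exact b_lt.le)
  obtain ⟨M, _, B, hM, hB, hd, -⟩ := m0 ι hinf
  rw [hι] at hB
  obtain ⟨p₀⟩ := c0 M B (ℶ_ ω) hM b_lt.le hB.le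
  obtain ⟨S, G, -, -, hcnt, hzfc, h1, h2, h3, h4, h5, h6⟩ :=
    (FW.ev_cnt.and (FW.ev_zfc.and ((w1 M B (ℶ_ ω)).and ((w2 M B (ℶ_ ω)).and
      ((w3 M B (ℶ_ ω)).and ((w4 M B (ℶ_ ω)).and ((w5 M B (ℶ_ ω)).and
        (w6 M B (ℶ_ ω))))))))).exists ∅ Set.countable_empty p₀
  refine ⟨(ppi M B (ℶ_ ω)).N S G, b_cnt G hcnt, hzfc, ?_⟩
  intro hQ
  obtain ⟨h1a, h1b⟩ := h1
  obtain ⟨A, hA⟩ := h2
  obtain ⟨h3a, h3b⟩ := h3
  obtain ⟨h4a, h4b⟩ := h4
  have hmem : ∀ x : M, x ∈ A ↔ x ∈ Gw S G := fun x => by rw [← hA]; rfl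
  let vl := (ppi M B (ℶ_ ω)).vl S G
  -- the bijection
  let f : A → El (vl grN) := fun x => ⟨vl (elN x.1), (h3b _).2 ⟨x.1, (hmem _).1 x.2, rfl⟩⟩
  have hf : Function.Bijective f := by
    constructor
    · intro x y hxy
      have : vl (elN x.1) = vl (elN y.1) := congrArg Subtype.val hxy
      exact Subtype.ext (h1b x.1 y.1 ((hmem _).1 x.2).1 ((hmem _).1 y.2).1 this)
    · rintro ⟨z, hz⟩
      obtain ⟨x, hx, rfl⟩ := (h3b z).1 hz
      exact ⟨⟨x, (hmem x).2 hx⟩, rfl⟩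
  let e : A ≃ El (vl grN) := Equiv.ofBijective f hf
  let g : AddCommGroup (El (vl grN)) := e.symm.addCommGroup
  let ea : A ≃+ El (vl grN) := e.symm.addEquiv.symm
  have hea : ∀ x : A, (ea x).1 = vl (elN x.1) := fun x => rfl
  have hN : ∀ τ, τ ∈ (ppi M B (ℶ_ ω)).H S → vl τ ∈ (ppi M B (ℶ_ ω)).N S G :=
    fun τ hτ => ⟨τ, hτ, rfl⟩
  have hadd : AddIn ((ppi M B (ℶ_ ω)).N S G) (vl grN) g := by
    refine ⟨vl adN, hN _ h4a, fun z => ?_⟩
    rw [h4b z]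
    constructor
    · rintro ⟨x, hx, y, hy, rfl⟩
      refine ⟨ea ⟨x, (hmem x).2 hx⟩, ea ⟨y, (hmem y).2 hy⟩, ?_⟩
      rw [← map_add]
      rfl
    · rintro ⟨a, b, rfl⟩
      obtain ⟨x, rfl⟩ := ea.surjective a
      obtain ⟨y, rfl⟩ := ea.surjective b
      refine ⟨x.1, (hmem _).1 x.2, y.1, (hmem _).1 y.2, ?_⟩
      rw [← map_add]
      rfl
  have htf : ∀ x : El (vl grN), ∀ n : ℕ, n ≠ 0 → n • x = 0 → x = 0 := by
    intro a n hn h
    obtain ⟨x, rfl⟩ := ea.surjective a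
    rw [← map_nsmul, map_eq_zero_iff _ ea.injective] at h
    have h7 : n • x.1 = 0 := by
      have := congrArg Subtype.val h
      simpa using this
    have h8 : x.1 = 0 := hM.tf n x.1 (by exact_mod_cast hn) (by rw [natCast_zsmul]; exact h7)
    have h9 : x = 0 := Subtype.ext h8
    rw [h9, map_zero]
  obtain ⟨l, ⟨S', hS', hl⟩, hl1, hl2⟩ := hQ (vl grN) (hN _ h3a) g hadd htf
  obtain ⟨τ, hτ, rfl⟩ := hS'
  have hle : ∀ x y : A, Le G τ x.1 y.1 ↔ l.le (ea x) (ea y) := by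
    intro x y
    rw [← h5 τ hτ x.1 ((hmem _).1 x.2) y.1 ((hmem _).1 y.2)]
    have h7 := hl (ZFSet.pair (vl (elN x.1)) (vl (elN y.1)))
    rw [show ((ppi M B (ℶ_ ω)).vl S G τ) = val ((ppi M B (ℶ_ ω)).H S) G τ from rfl]
    refine h7.trans ?_
    constructor
    · rintro ⟨a, b, hab, h8⟩
      rw [ZFSet.pair_inj] at h8
      have ha : ea x = a := Subtype.ext h8.1
      have hb : ea y = b := Subtype.ext h8.2
      rw [ha, hb]
      exact hab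
    · intro h
      exact ⟨ea x, ea y, h, rfl⟩
  have hle' : ∀ (x y : M) (hx : x ∈ Gw S G) (hy : y ∈ Gw S G),
      Le G τ x y ↔ l.le (ea ⟨x, (hmem x).2 hx⟩) (ea ⟨y, (hmem y).2 hy⟩) :=
    fun x y hx hy => hle ⟨x, (hmem x).2 hx⟩ ⟨y, (hmem y).2 hy⟩
  have h0 : (0 : M) ∈ Gw S G := (hmem 0).1 A.zero_mem
  have hAL : IsAL (Gw S G) (Le G τ) := by
    refine ⟨?_, ?_, ?_, ?_, ?_, ?_⟩
    · intro x hx
      rw [hle' x x hx hx]
      exact l.le_refl _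
    · intro x hx y hy z hz h h'
      rw [hle' _ _ hx hy] at h
      rw [hle' _ _ hy hz] at h'
      rw [hle' _ _ hx hz]
      exact l.le_trans _ _ _ h h'
    · intro x hx y hy h h'
      rw [hle' _ _ hx hy] at h
      rw [hle' _ _ hy hx] at h'
      exact congrArg Subtype.val (ea.injective (l.le_antisymm _ _ h h'))
    · intro x hx y hy z hz h
      rw [hle' _ _ hx hy] at h
      have h7 := hl1 _ _ (ea ⟨z, (hmem z).2 hz⟩) h
      rw [← map_add, ← map_add] at h7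
      exact (hle (⟨z, (hmem z).2 hz⟩ + ⟨x, (hmem x).2 hx⟩)
        (⟨z, (hmem z).2 hz⟩ + ⟨y, (hmem y).2 hy⟩)).2 h7
    · intro x hx
      obtain ⟨y, hy⟩ := ea.surjective (l.sup (ea ⟨x, (hmem x).2 hx⟩) (ea 0))
      refine ⟨y.1, (hmem _).1 y.2, ?_, ?_, ?_⟩
      · refine (hle 0 y).2 ?_
        rw [hy]
        exact l.le_sup_right _ _
      · refine (hle ⟨x, (hmem x).2 hx⟩ y).2 ?_
        rw [hy]
        exact l.le_sup_left _ _
      · intro z hz h h'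
        refine (hle y ⟨z, (hmem z).2 hz⟩).2 ?_
        rw [hy]
        exact l.sup_le _ _ _ ((hle _ _).1 h') ((hle 0 _).1 h)
    · intro x hx y hy h
      refine (hle ⟨x, (hmem x).2 hx⟩ 0).2 ?_
      rw [map_zero]
      refine hl2 _ (ea ⟨y, (hmem y).2 hy⟩) fun n => ?_
      rw [← map_nsmul]
      exact (hle (n • ⟨x, (hmem x).2 hx⟩) ⟨y, (hmem y).2 hy⟩).1 (h n)
  obtain ⟨p, -, hp⟩ := h6 τ hτ hAL
  exact gf M B (ℶ_ ω) hM b_sl b_lt b_cof hB hd (Rn τ)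
    (fun p q x y => w7 M B (ℶ_ ω) τ p q x y) p hp

end Pool.Agent.CNW
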