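import Pool.Agent.Lib.MP_764a00_al.Stm

/-!
# MP_764a00_al : construction of the batch
-/

namespace Pool.Agent.CN

open Cardinal

/-- the size of the subgroup generated by a set -/
theorem b0_closure {M : Type} [AddCommGroup M] {μ : Cardinal.{0}} (hμ : ℵ₀ ≤ μ) (S : Set M)
    (hS : #S ≤ μ) : #(AddSubgroup.closure S) ≤ μ := by
  let T : Set M := S ∪ -S
  have hneg : #(-S : Set M) ≤ μ := by
    have : (-S : Set M) = (fun x => -x) '' S := by
      rw [Set.image_neg_eq_neg]
    rw [this]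
    exact Cardinal.mk_image_le.trans hS
  have hT : #T ≤ μ := (Cardinal.mk_union_le _ _).trans (Cardinal.add_le_of_le hμ hS hneg)
  have hsub : ((AddSubgroup.closure S : AddSubgroup M) : Set M) ⊆
      Set.range (fun l : List T => (l.map Subtype.val).sum) := by
    intro z hz
    have hz' : z ∈ (AddSubgroup.closure S).toAddSubmonoid := hz
    rw [AddSubgroup.closure_toAddSubmonoid] at hz'
    obtain ⟨l, hl, rfl⟩ := AddSubmonoid.exists_list_of_mem_closure hz'
    refine ⟨l.attach.map (fun x => ⟨x.1, hl x.1 x.2⟩), ?_⟩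
    simp only [List.map_map]
    congr 1
    exact List.attach_map_subtype_val l
  calc #(AddSubgroup.closure S) ≤ #(Set.range (fun l : List T => (l.map Subtype.val).sum)) :=
        Cardinal.mk_le_mk_of_subset hsub
    _ ≤ #(List T) := Cardinal.mk_range_le
    _ ≤ max ℵ₀ #T := Cardinal.mk_list_le_max _
    _ ≤ μ := max_le hμ hT

theorem b0_low {M : Type} [AddCommGroup M] {I : Type} {μ : Cardinal.{0}} (hμ : ℵ₀ ≤ μ)
    (Γ : ℕ → Set M) (h : ℕ → M) (a : ℕ → I → M) (n : ℕ) (hΓ : #(Γ n) ≤ μ) (hI : #I ≤ μ) :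
    #(low Γ h a n) ≤ μ := by
  apply b0_closure hμ
  refine (Cardinal.mk_union_le _ _).trans (Cardinal.add_le_of_le hμ hΓ ?_)
  have hsub : {z | ∃ i < n, z = h i ∨ ∃ l, z = a i l} ⊆
      Set.range (fun q : ℕ × Option I => Option.elim q.2 (h q.1) (a q.1)) := by
    rintro z ⟨i, -, rfl | ⟨l, rfl⟩⟩
    · exact ⟨(i, none), rfl⟩
    · exact ⟨(i, some l), rfl⟩
  calc #({z | ∃ i < n, z = h i ∨ ∃ l, z = a i l} : Set M)
      ≤ #(Set.range (fun q : ℕ × Option I => Option.elim q.2 (h q.1) (a q.1))) :=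
        Cardinal.mk_le_mk_of_subset hsub
    _ ≤ #(ℕ × Option I) := Cardinal.mk_range_le
    _ = ℵ₀ * (#I + 1) := by simp
    _ ≤ μ := Cardinal.mul_le_of_le hμ hμ (Cardinal.add_le_of_le hμ hI
        ((Cardinal.one_lt_aleph0.le).trans hμ))

theorem b0_congr {M : Type} [AddCommGroup M] {I : Type} (Γ : ℕ → Set M) (h h' : ℕ → M)
    (a a' : ℕ → I → M) (n : ℕ) (e : ∀ i < n, h i = h' i) (e' : ∀ i < n, a i = a' i) :
    low Γ h a n = low Γ h' a' n := by
  unfold low
  congr 2
  ext z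
  constructor
  · rintro ⟨i, hi, hz⟩
    refine ⟨i, hi, ?_⟩
    rw [← e i hi, ← e' i hi]
    exact hz
  · rintro ⟨i, hi, hz⟩
    refine ⟨i, hi, ?_⟩
    rw [e i hi, e' i hi]
    exact hz

/-- recursion -/
theorem b0_rec {α : Type} (d : α) (P : ∀ _ : ℕ, (ℕ → α) → α → Prop)
    (hex : ∀ n s, ∃ v, P n s v) (hcongr : ∀ n s s' v, (∀ m < n, s m = s' m) → P n s v → P n s' v) :
    ∃ s : ℕ → α, ∀ n, P n s (s n) := by
  choose φ hφ using hex
  let s : ℕ → α := fun n =>
    Nat.strongRec (motive := fun _ => α)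
      (fun n ih => φ n (fun m => if h : m < n then ih m h else d)) n
  have hs : ∀ n, s n = φ n (fun m => if m < n then s m else d) := by
    intro n
    have : s n = _ := Nat.strongRec_eq
      (fun n (ih : ∀ m < n, α) => φ n (fun m => if h : m < n then ih m h else d)) n
    rw [this]
    congr 1
  refine ⟨s, fun n => ?_⟩
  have h1 := hφ n (fun m => if m < n then s m else d)
  rw [← hs n] at h1
  exact hcongr n _ _ _ (fun m hm => by simp [hm]) h1

theorem p_B0 (hl : S_LL) : S_B0 := by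
  intro M _ L X μ Γ TT I _ _ hM hP hD hX hX5 hμ hmono hbig hΓ hTT hgood hI
  obtain ⟨s, hs⟩ := b0_rec (α := M × (I → M)) (0, 0)
    (fun n s v => Lev L (X n) (low Γ (fun i => (s i).1) (fun i => (s i).2) n) (Prod.fst '' TT n)
      v.1 v.2)
    (by
      intro n s
      have hIn : #I ≤ μ n := hI.trans (hmono (Nat.zero_le n))
      obtain ⟨h, a, hLev⟩ := hl M L (X n) (μ n)
        (low Γ (fun i => (s i).1) (fun i => (s i).2) n) (Prod.fst '' TT n) I hM hP hD (hX n)
        (hX5 n) (hμ n) (hbig n) (b0_low (hμ n) Γ _ _ n (hΓ n) hIn)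
        (Cardinal.mk_image_le.trans (hTT n)) (by
          rintro L' ⟨t, ht, rfl⟩
          exact hgood n t ht) hIn
      exact ⟨(h, a), hLev⟩)
    (by
      intro n s s' v e hv
      rwa [b0_congr Γ (fun i => (s' i).1) (fun i => (s i).1) (fun i => (s' i).2)
        (fun i => (s i).2) n (fun i hi => by rw [e i hi]) (fun i hi => by rw [e i hi])])
  have hx : ∀ l, ∃ y : M, ∀ K, y - ∑ n ∈ Finset.range K, (5 : ℤ) ^ n • ((s n).1 + (s n).2 l) ∈
      dv M K := fun l => hM.comp (fun n => (s n).1 + (s n).2 l)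
  choose x hx using hx
  exact ⟨fun n => (s n).1, fun n => (s n).2, x, hx, hs⟩

end Pool.Agent.CN
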