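import Pool.Agent.Lib.MP_764a00_al.Stm

/-!
# MP_764a00_al : the digits are different
-/

namespace Pool.Agent.CN

theorem p_BI (hb : S_BS) : S_BI := by
  intro M _ L X Γ TT I h a hM hP h0 hL i j hij
  by_contra hne
  have hk : lc (Finsupp.single j (1 : ℤ) - Finsupp.single i 1) a = 0 := by
    unfold lc
    rw [Finsupp.sum_sub_index (by intro l b c; exact sub_smul b c (a l)),
      Finsupp.sum_single_index (zero_smul ℤ (a j)), Finsupp.sum_single_index (zero_smul ℤ (a i)),
      hij, sub_self]
  have hz : ∀ F : Ultra L.N, On L X F →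
      (0 : M) + (0 : ℤ) • h + lc (Finsupp.single j (1 : ℤ) - Finsupp.single i 1) a ∈ cb L F ∨
      (0 : M) + (0 : ℤ) • h + lc (Finsupp.single j (1 : ℤ)) a ∈ cb L F := by
    intro F _
    left
    obtain ⟨A, hA, -, -⟩ := hb M L hM hP F
    rw [hk, zero_smul, add_zero, add_zero, ← hA]
    exact A.zero_mem
  have h1 := (hL.new 0 h0 0 _ _ hz).1 j
  rcases h1 with h1 | h1
  · rw [Finsupp.sub_apply, Finsupp.single_eq_same, Finsupp.single_eq_of_ne (Ne.symm hne)] at h1
    norm_num at h1
  · rw [Finsupp.single_eq_same] at h1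
    norm_num at h1

end Pool.Agent.CN
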