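import Pool.Agent.Lib.MP_764a00_al.Stm

set_option autoImplicit false

namespace Pool.Agent.CN

private theorem bo_lc {M I : Type} [AddCommGroup M] (k : I →₀ ℤ) (a : I → M) :
    lc k a = Finsupp.linearCombination ℤ a k := by
  rw [Finsupp.linearCombination_apply]
  rfl

private theorem bo_span {M I : Type} [AddCommGroup M] {x : I → M} {w : M}
    (hw : w ∈ AddSubgroup.closure (Set.range x)) : ∃ k : I →₀ ℤ, w = lc k x := by
  rw [← Submodule.span_int_eq_addSubgroupClosure, Submodule.mem_toAddSubgroup,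
    Finsupp.mem_span_range_iff_exists_finsupp] at hw
  obtain ⟨c, hc⟩ := hw
  exact ⟨c, hc.symm⟩

private theorem bo_pow {M : Type} [AddCommGroup M] {H : AddSubgroup M}
    (hp : ∀ z : M, (5 : ℤ) • z ∈ H → z ∈ H) (m : ℕ) (z : M) (h : (5 : ℤ) ^ m • z ∈ H) : z ∈ H := by
  induction m with
  | zero => simpa using h
  | succ m ih =>
    refine ih (hp _ ?_)
    rw [smul_smul, ← pow_succ']
    exact h

private theorem bo_val {I : Type} (l₀ : I) : ∀ (n : ℕ) (k : I →₀ ℤ), (k l₀).natAbs ≤ n → k l₀ ≠ 0 →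
    ∃ (v : ℕ) (k' : I →₀ ℤ), k = (5 : ℤ) ^ v • k' ∧ ∃ l, ¬ (5 : ℤ) ∣ k' l := by
  intro n
  induction n with
  | zero =>
    intro k h1 h2
    exact absurd (by omega) h2
  | succ n ih =>
    intro k h1 h2
    by_cases hd : ∃ l, ¬ (5 : ℤ) ∣ k l
    · exact ⟨0, k, by rw [pow_zero, one_smul], hd⟩
    · push Not at hd
      obtain ⟨k₁, hk₁⟩ : ∃ k₁ : I →₀ ℤ, k = (5 : ℤ) • k₁ := by
        refine ⟨k.mapRange (fun c => c / 5) (by norm_num), ?_⟩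
        ext l
        rw [Finsupp.smul_apply, Finsupp.mapRange_apply, smul_eq_mul]
        exact (Int.mul_ediv_cancel' (hd l)).symm
      have h3 : k l₀ = 5 * k₁ l₀ := by
        rw [hk₁, Finsupp.smul_apply, smul_eq_mul]
      obtain ⟨v, k', hk', hl⟩ := ih k₁ (by omega) (by omega)
      exact ⟨v + 1, k', by rw [hk₁, hk', smul_smul, ← pow_succ'], hl⟩

private theorem bo_val' {I : Type} (k : I →₀ ℤ) (hk : k ≠ 0) :
    ∃ (v : ℕ) (k' : I →₀ ℤ), k = (5 : ℤ) ^ v • k' ∧ ∃ l, ¬ (5 : ℤ) ∣ k' l := by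
  obtain ⟨l₀, hl₀⟩ := Finsupp.ne_iff.1 hk
  exact bo_val l₀ _ k le_rfl hl₀

private theorem bo_lc_smul {M I : Type} [AddCommGroup M] (c : ℤ) (k : I →₀ ℤ) (a : I → M) :
    lc (c • k) a = c • lc k a := by
  rw [bo_lc, bo_lc, map_smul]

private theorem bo_mem {M I : Type} [AddCommGroup M] {A : AddSubgroup M} (k : I →₀ ℤ) {a : I → M}
    (ha : ∀ l, a l ∈ A) : lc k a ∈ A := by
  unfold lc Finsupp.sum
  exact A.sum_mem (fun l _ => A.zsmul_mem (ha l) _)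

private theorem bo_lc_sub {M I : Type} [AddCommGroup M] (k : I →₀ ℤ) (a b : I → M) :
    lc k a - lc k b = lc k (fun l => a l - b l) := by
  unfold lc Finsupp.sum
  rw [← Finset.sum_sub_distrib]
  exact Finset.sum_congr rfl (fun l _ => (smul_sub _ _ _).symm)

private theorem bo_lc_sum {M I : Type} [AddCommGroup M] (k : I →₀ ℤ) (h : ℕ → M)
    (a : ℕ → I → M) (K : ℕ) :
    lc k (fun l => ∑ n ∈ Finset.range K, (5 : ℤ) ^ n • (h n + a n l)) =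
      ∑ n ∈ Finset.range K, (5 : ℤ) ^ n • ((k.sum fun _ c => c) • h n + lc k (a n)) := by
  unfold lc Finsupp.sum
  simp only [Finset.smul_sum]
  rw [Finset.sum_comm]
  refine Finset.sum_congr rfl (fun n _ => ?_)
  rw [Finset.sum_smul, ← Finset.sum_add_distrib, Finset.smul_sum]
  refine Finset.sum_congr rfl (fun l _ => ?_)
  rw [← smul_add, smul_comm]

/-- the old outcomes are omitted -/
theorem p_BO (hd : S_DI) (hq : S_QS) : S_BO := by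
  intro M _ L X H Γ TT I h a x hM hpure hΓ hΓH hTT hgood hlim hlev n t ht y hy hyT
  by_contra hyH
  obtain ⟨m, hm⟩ := hy
  obtain ⟨g, hg, w, hw, hgw⟩ := AddSubgroup.mem_sup.1 hm
  obtain ⟨k, rfl⟩ := bo_span hw
  have hk0 : k ≠ 0 := by
    rintro rfl
    apply hyH
    refine bo_pow hpure m y ?_
    rw [← hgw]
    have : lc (0 : I →₀ ℤ) x = 0 := by rw [bo_lc, map_zero]
    rw [this, add_zero]
    exact hg
  obtain ⟨v, k', rfl, hl⟩ := bo_val' k hk0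
  obtain ⟨hP, hD, ht2⟩ := hgood n t ht
  have hg' : g ∈ ⋃ n, Γ n := by rw [hΓH]; exact hg
  have hm' : (5 : ℤ) ^ m • t.2 ∈ ⋃ n, Γ n := by rw [hΓH]; exact H.zsmul_mem ht2 _
  obtain ⟨i₁, hi₁⟩ := Set.mem_iUnion.1 hg'
  obtain ⟨i₂, hi₂⟩ := Set.mem_iUnion.1 hm'
  obtain ⟨n₁, hn₁⟩ : ∃ n₁ : ℕ, n₁ = max n (max i₁ i₂) := ⟨_, rfl⟩
  have hnn : n ≤ n₁ := by rw [hn₁]; exact le_max_left _ _
  have hgn : g ∈ Γ n₁ := hΓ (by rw [hn₁]; exact (le_max_left _ _).trans (le_max_right _ _)) hi₁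
  have hmn : (5 : ℤ) ^ m • t.2 ∈ Γ n₁ :=
    hΓ (by rw [hn₁]; exact (le_max_right _ _).trans (le_max_right _ _)) hi₂
  set q : ℤ := k'.sum fun _ c => c with hqdef
  set Λ : AddSubgroup M := low Γ h a n₁ with hΛ
  have hgΛ : g ∈ Λ := AddSubgroup.subset_closure (Or.inl hgn)
  have hmΛ : (5 : ℤ) ^ m • t.2 ∈ Λ := AddSubgroup.subset_closure (Or.inl hmn)
  have hhΛ : ∀ i < n₁, h i ∈ Λ := fun i hi =>
    AddSubgroup.subset_closure (Or.inr ⟨i, hi, Or.inl rfl⟩)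
  have haΛ : ∀ i < n₁, ∀ l, a i l ∈ Λ := fun i hi l =>
    AddSubgroup.subset_closure (Or.inr ⟨i, hi, Or.inr ⟨l, rfl⟩⟩)
  -- the approximation of `lc k' x`
  have h1 : lc k' x - ∑ i ∈ Finset.range (n₁ + 1), (5 : ℤ) ^ i • (q • h i + lc k' (a i)) ∈
      dv M (n₁ + 1) := by
    rw [← bo_lc_sum, bo_lc_sub]
    exact bo_mem k' (fun l => hlim l (n₁ + 1))
  set e : M := g + (5 : ℤ) ^ v •
    ∑ i ∈ Finset.range n₁, (5 : ℤ) ^ i • (q • h i + lc k' (a i)) with he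
  have heΛ : e ∈ Λ := by
    refine Λ.add_mem hgΛ (Λ.zsmul_mem (Λ.sum_mem (fun i hi => ?_)) _)
    rw [Finset.mem_range] at hi
    exact Λ.zsmul_mem (Λ.add_mem (Λ.zsmul_mem (hhΛ i hi) _) (bo_mem k' (haΛ i hi))) _
  have h2 : (5 : ℤ) ^ m • y - (e + (5 : ℤ) ^ (v + n₁) • (q • h n₁ + lc k' (a n₁))) ∈
      dv M (v + n₁ + 1) := by
    have h3 := smul_mem_dv (n := v) h1
    rw [Finset.sum_range_succ, smul_sub, smul_add, smul_smul, ← pow_add] at h3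
    have h4 : (5 : ℤ) ^ m • y - (e + (5 : ℤ) ^ (v + n₁) • (q • h n₁ + lc k' (a n₁))) =
        (5 : ℤ) ^ v • lc k' x - ((5 : ℤ) ^ v •
          ∑ i ∈ Finset.range n₁, (5 : ℤ) ^ i • (q • h i + lc k' (a i)) +
          (5 : ℤ) ^ (v + n₁) • (q • h n₁ + lc k' (a n₁))) := by
      rw [← hgw, bo_lc_smul, he]
      abel
    rw [h4]
    exact h3
  obtain ⟨F, hF1, hF2⟩ := (hlev n₁).old t.1 ⟨t, hTT hnn ht, rfl⟩ e heΛ
    (e - (5 : ℤ) ^ m • t.2) (Λ.sub_mem heΛ hmΛ) (v + n₁) q k' hl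
  obtain ⟨A, hA, hdvA, _, _⟩ := hq M t.1 hM hP F (v + n₁ + 1)
  rw [← hA] at hF1 hF2
  rcases (hd M t.1 hM hP t.2 y hyT F).1 (v + n₁ + 1) with h5 | h5
  · rw [← hA] at h5
    apply hF1
    have h6 := A.sub_mem (A.zsmul_mem h5 ((5 : ℤ) ^ m)) (hdvA h2)
    have h7 : (5 : ℤ) ^ m • y - ((5 : ℤ) ^ m • y -
        (e + (5 : ℤ) ^ (v + n₁) • (q • h n₁ + lc k' (a n₁)))) =
        e + (5 : ℤ) ^ (v + n₁) • (q • h n₁ + lc k' (a n₁)) := by abel
    rw [h7] at h6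
    exact h6
  · rw [← hA] at h5
    apply hF2
    have h6 := A.sub_mem (A.zsmul_mem h5 ((5 : ℤ) ^ m)) (hdvA h2)
    have h7 : (5 : ℤ) ^ m • (y - t.2) - ((5 : ℤ) ^ m • y -
        (e + (5 : ℤ) ^ (v + n₁) • (q • h n₁ + lc k' (a n₁)))) =
        e - (5 : ℤ) ^ m • t.2 + (5 : ℤ) ^ (v + n₁) • (q • h n₁ + lc k' (a n₁)) := by
      rw [smul_sub]
      abel
    rw [h7] at h6
    exact h6

end Pool.Agent.CN
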