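import Pool.Agent.Lib.MP_764a00_al.Stm

/-!
# `cb` is an isolated subgroup (S_BS)
-/

namespace Pool.Agent.CN

open Cardinal

theorem bs_pure {M : Type} [AddCommGroup M] {L : LG M} (hL : L.Pure) (K : ℕ) {e : M}
    (h : (5 : ℤ) ^ K • e ∈ L.N) : e ∈ L.N := by
  induction K with
  | zero => simpa using h
  | succ K ih =>
    apply ih
    apply hL
    rwa [smul_smul, mul_comm, ← pow_succ]

theorem p_BS (h3 : S_U3) (hq : S_QS) : S_BS := by
  intro M _ L hM hp F
  choose A hA using hq M L hM hp F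
  have hmem : ∀ z : M, z ∈ (⨅ K, A K : AddSubgroup M) ↔ ∀ K, z ∈ cq L F K := by
    intro z
    rw [AddSubgroup.mem_iInf]
    refine forall_congr' fun K => ?_
    rw [← (hA K).1]
    rfl
  refine ⟨⨅ K, A K, ?_, ?_, ?_⟩
  · ext z
    exact hmem z
  · intro q hq
    rw [AddSubgroup.mem_iInf]
    intro K
    exact (hA K).2.2.1 q hq
  · intro n z hn hz
    rw [AddSubgroup.mem_iInf]
    intro K
    rw [hmem] at hz
    have hfin : FiniteMultiplicity (5 : ℤ) n := Int.finiteMultiplicity_iff.2 ⟨by decide, hn⟩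
    obtain ⟨n', hn1, hn2⟩ := hfin.exists_eq_pow_mul_and_not_dvd
    obtain ⟨m, hm⟩ : ∃ m, m = multiplicity (5 : ℤ) n := ⟨_, rfl⟩
    rw [← hm] at hn1
    obtain ⟨q, hqF, y, hy⟩ := hz (K + m)
    have hq1 : (q : M) = (5 : ℤ) ^ m • (n' • z - (5 : ℤ) ^ K • y) := by
      rw [smul_sub, smul_smul, smul_smul, ← hn1, ← pow_add, add_comm m K, ← hy]
      abel
    have hqN : n' • z - (5 : ℤ) ^ K • y ∈ L.N := by
      apply bs_pure hp m
      rw [← hq1]
      exact q.2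
    have hq2 : (5 : ℤ) ^ m • (⟨_, hqN⟩ : L.N) = q := Subtype.ext hq1.symm
    have h5 := (h3 L.N F).2.2.2.2 ((5 : ℤ) ^ m) ⟨_, hqN⟩ (by positivity) (by rw [hq2]; exact hqF)
    apply (hA K).2.2.2 n' z hn2
    have h6 : n' • z ∈ cq L F K := ⟨⟨_, hqN⟩, h5, y, by
      show n' • z - (n' • z - (5 : ℤ) ^ K • y) = _
      abel⟩
    rw [← (hA K).1] at h6
    exact h6

end Pool.Agent.CN
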