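import Pool.Agent.Lib.MP_764a00_al.Stm

/-! [764 C0] conditions exist. (helper21) -/

namespace Pool.Agent.CN

open Cardinal

theorem p_C0 : S_C0 := by
  classical
  intro M _ B lam hM hlam hB
  let H : AddSubgroup M :=
    { carrier := {x | ∃ m : ℕ, (5 : ℤ) ^ m • x ∈ AddSubgroup.closure B}
      add_mem' := by
        rintro a b ⟨m, hm⟩ ⟨n, hn⟩
        refine ⟨m + n, ?_⟩
        have h1 : (5 : ℤ) ^ (m + n) • (a + b) =
            (5 : ℤ) ^ n • ((5 : ℤ) ^ m • a) + (5 : ℤ) ^ m • ((5 : ℤ) ^ n • b) := by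
          rw [smul_add, smul_smul, smul_smul, ← pow_add, ← pow_add, add_comm n m]
        rw [h1]
        exact AddSubgroup.add_mem _ (AddSubgroup.zsmul_mem _ hm _) (AddSubgroup.zsmul_mem _ hn _)
      zero_mem' := ⟨0, by simp⟩
      neg_mem' := by
        rintro a ⟨m, hm⟩
        exact ⟨m, by rw [smul_neg]; exact AddSubgroup.neg_mem _ hm⟩ }
  have hHmem : ∀ x, x ∈ H ↔ ∃ m : ℕ, (5 : ℤ) ^ m • x ∈ AddSubgroup.closure B := fun x => Iff.rfl
  let Y : Set M := {y | y ∈ B ∨ -y ∈ B}
  have hY : #Y ≤ lam := by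
    have h1 : Y ⊆ B ∪ (Neg.neg '' B) := by
      rintro y (h | h)
      · exact Or.inl h
      · exact Or.inr ⟨-y, h, neg_neg y⟩
    calc #Y ≤ #(B ∪ (Neg.neg '' B) : Set M) := Cardinal.mk_le_mk_of_subset h1
      _ ≤ #B + #(Neg.neg '' B : Set M) := Cardinal.mk_union_le _ _
      _ ≤ lam + lam := add_le_add hB (Cardinal.mk_image_le.trans hB)
      _ = lam := Cardinal.add_eq_self hlam
  have hex : ∀ x : H, ∃ p : ℕ × List Y, (5 : ℤ) ^ p.1 • (x : M) = (p.2.map Subtype.val).sum := by
    rintro ⟨x, hx⟩
    obtain ⟨m, hm⟩ := (hHmem x).1 hx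
    have hm' : (5 : ℤ) ^ m • x ∈ AddSubmonoid.closure (B ∪ -B) := by
      rw [← AddSubgroup.closure_toAddSubmonoid]; exact hm
    obtain ⟨l, hl1', hl2⟩ := AddSubmonoid.exists_list_of_mem_closure hm'
    have hl1 : ∀ y ∈ l, y ∈ Y := by
      intro y hy
      rcases hl1' y hy with h | h
      · exact Or.inl h
      · exact Or.inr h
    refine ⟨(m, l.attach.map (fun y => ⟨y.1, hl1 y.1 y.2⟩)), ?_⟩
    simp only [List.map_map, Function.comp_def]
    rw [← hl2]
    congr 1
    exact (List.attach_map_subtype_val l).symm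
  choose p hp using hex
  have hpinj : Function.Injective p := by
    intro x y hxy
    have h1 := hp x
    have h2 := hp y
    rw [hxy] at h1
    have h3 : (5 : ℤ) ^ (p y).1 • ((x : M) - (y : M)) = 0 := by
      rw [smul_sub, h1, h2, sub_self]
    have h4 := hM.tf _ _ (by positivity) h3
    exact Subtype.ext (sub_eq_zero.1 h4)
  have hcard : #H ≤ lam := by
    calc #H ≤ #(ℕ × List Y) := Cardinal.mk_le_of_injective hpinj
      _ = ℵ₀ * #(List Y) := by rw [Cardinal.mk_prod]; simp
      _ ≤ lam * lam := by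
        apply mul_le_mul' hlam
        exact (Cardinal.mk_list_le_max _).trans (max_le hlam hY)
      _ = lam := Cardinal.mul_eq_self hlam
  exact ⟨{ H := H
           pure := by
             rintro z ⟨m, hm⟩
             refine ⟨m + 1, ?_⟩
             rw [pow_succ, mul_smul]
             exact hm
           base := by
             intro b hb
             exact ⟨0, by simpa using AddSubgroup.subset_closure hb⟩
           cardH := hcard
           T := ∅
           cardT := by simp
           good := by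
             intro t ht
             exact absurd ht (Set.notMem_empty t) }⟩

end Pool.Agent.CN
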