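import Pool.Agent.Lib.MP_764a00_al.Stm

/-!
# MP_764a00_al : piece C1, five elements and two alternatives
-/

namespace Pool.Agent.CN

open Cardinal

private theorem c1_diff {M : Type} [AddCommGroup M] (A : AddSubgroup M)
    (hA : ∀ (n : ℤ) (z : M), n ≠ 0 → n • z ∈ A → z ∈ A) {e t t' : M} {r : ℤ} (hr : r ≠ 0)
    (h : e + r • t ∈ A) (h' : e + r • t' ∈ A) : t - t' ∈ A := by
  apply hA r _ hr
  have := A.sub_mem h h'
  have h2 : e + r • t - (e + r • t') = r • (t - t') := by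
    rw [smul_sub]; abel
  rwa [h2] at this

theorem p_C1 : S_C1 := by
  intro M _ A hA b e e' r r' hr hr' h
  have h1 := h 1 3 4 (by decide) (by decide)
  have h2 := h 2 3 4 (by decide) (by decide)
  have h3 := h 0 1 4 (by decide) (by decide)
  have h4 := h 0 2 4 (by decide) (by decide)
  -- the four conclusions
  have k12 : tri (b 1) (b 3) (b 4) - tri (b 2) (b 3) (b 4) ∈ A → b 1 - b 2 ∈ A := by
    intro hh
    have : tri (b 1) (b 3) (b 4) - tri (b 2) (b 3) (b 4) = b 1 - b 2 := by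
      unfold tri; abel
    rwa [this] at hh
  have k34 : tri (b 0) (b 1) (b 4) - tri (b 0) (b 2) (b 4) ∈ A → b 1 - b 2 ∈ A := by
    intro hh
    have : tri (b 0) (b 1) (b 4) - tri (b 0) (b 2) (b 4) = (-3 : ℤ) • (b 1 - b 2) := by
      unfold tri
      rw [neg_smul, smul_sub]; abel
    rw [this] at hh
    exact hA _ _ (by norm_num) hh
  have ka : tri (b 1) (b 3) (b 4) - tri (b 0) (b 1) (b 4) ∈ A →
      tri (b 2) (b 3) (b 4) - tri (b 0) (b 2) (b 4) ∈ A → b 1 - b 2 ∈ A := by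
    intro hh hh'
    have h5 := A.sub_mem hh hh'
    have : tri (b 1) (b 3) (b 4) - tri (b 0) (b 1) (b 4) -
        (tri (b 2) (b 3) (b 4) - tri (b 0) (b 2) (b 4)) = (4 : ℤ) • (b 1 - b 2) := by
      unfold tri
      have h4s : (4 : ℤ) • (b 1 - b 2) = (b 1 - b 2) + (3 : ℤ) • (b 1 - b 2) := by
        rw [show (4 : ℤ) = 1 + 3 by norm_num, add_smul, one_smul]
      rw [h4s, smul_sub]; abel
    rw [this] at h5
    exact hA _ _ (by norm_num) h5
  have kb : tri (b 1) (b 3) (b 4) - tri (b 0) (b 2) (b 4) ∈ A →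
      tri (b 2) (b 3) (b 4) - tri (b 0) (b 1) (b 4) ∈ A → b 1 - b 2 ∈ A := by
    intro hh hh'
    have h5 := A.sub_mem hh hh'
    have : tri (b 1) (b 3) (b 4) - tri (b 0) (b 2) (b 4) -
        (tri (b 2) (b 3) (b 4) - tri (b 0) (b 1) (b 4)) = (-2 : ℤ) • (b 1 - b 2) := by
      unfold tri
      have h4s : (-2 : ℤ) • (b 1 - b 2) = (b 1 - b 2) - (3 : ℤ) • (b 1 - b 2) := by
        rw [show (-2 : ℤ) = 1 - 3 by norm_num, sub_smul, one_smul]
      rw [h4s, smul_sub]; abel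
    rw [this] at h5
    exact hA _ _ (by norm_num) h5
  rcases h1 with h1 | h1 <;> rcases h2 with h2 | h2 <;> rcases h3 with h3 | h3 <;>
    rcases h4 with h4 | h4
  all_goals first
    | exact k12 (c1_diff A hA hr h1 h2)
    | exact k12 (c1_diff A hA hr' h1 h2)
    | exact k34 (c1_diff A hA hr h3 h4)
    | exact k34 (c1_diff A hA hr' h3 h4)
    | exact ka (c1_diff A hA hr h1 h3) (c1_diff A hA hr' h2 h4)
    | exact ka (c1_diff A hA hr' h1 h3) (c1_diff A hA hr h2 h4)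
    | exact kb (c1_diff A hA hr h1 h4) (c1_diff A hA hr' h2 h3)
    | exact kb (c1_diff A hA hr' h1 h4) (c1_diff A hA hr h2 h3)

end Pool.Agent.CN
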