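import Pool.Agent.Lib.MP_764a00_al.Stm

set_option autoImplicit false

/-!
MP_764a00_al, piece C2.
-/

namespace Pool.Agent.CN

theorem p_C2 : S_C2 := by
  intro M _ A hA b e r hr h
  have h134 := h 1 3 4 (by decide) (by decide)
  have h234 := h 2 3 4 (by decide) (by decide)
  have h024 := h 0 2 4 (by decide) (by decide)
  have h034 := h 0 3 4 (by decide) (by decide)
  have h123 := h 1 2 3 (by decide) (by decide)
  have h12 : b 1 - b 2 ∈ A := by
    apply hA r _ hr
    have := A.sub_mem h134 h234
    have e1 : e + r • tri (b 1) (b 3) (b 4) - (e + r • tri (b 2) (b 3) (b 4)) =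
        r • (b 1 - b 2) := by
      simp only [tri]; module
    rwa [e1] at this
  have h23 : b 2 - b 3 ∈ A := by
    apply hA (-3 * r) _ (by omega)
    have := A.sub_mem h024 h034
    have e1 : e + r • tri (b 0) (b 2) (b 4) - (e + r • tri (b 0) (b 3) (b 4)) =
        (-3 * r) • (b 2 - b 3) := by
      simp only [tri]; module
    rwa [e1] at this
  have ht : r • tri (b 1) (b 2) (b 3) ∈ A := by
    have e1 : tri (b 1) (b 2) (b 3) = (b 1 - b 2) - (2 : ℤ) • (b 2 - b 3) := by
      simp only [tri]; module
    rw [e1]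
    exact A.zsmul_mem (A.sub_mem h12 (A.zsmul_mem h23 2)) r
  have := A.sub_mem h123 ht
  simpa using this

end Pool.Agent.CN
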