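import Pool.Agent.Lib.MP_764a00_al.Stm

set_option autoImplicit false

namespace Pool.Agent.CN

theorem p_C3 : S_C3 := by
  intro M _ A hA b e e' m h
  have h1 := h 1 3 4 (by decide) (by decide)
  have h2 := h 2 3 4 (by decide) (by decide)
  have h3 := h 0 1 4 (by decide) (by decide)
  have h4 := h 0 2 4 (by decide) (by decide)
  -- the two differences
  have d12 : ∀ x : M, (x + m • tri (b 1) (b 3) (b 4)) - (x + m • tri (b 2) (b 3) (b 4)) =
      m • (b 1 - b 2) := by
    intro x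
    unfold tri
    module
  have d34 : ∀ x : M, (x + m • tri (b 0) (b 2) (b 4)) - (x + m • tri (b 0) (b 1) (b 4)) =
      (3 : ℤ) • (m • (b 1 - b 2)) := by
    intro x
    unfold tri
    module
  have q1 : ∀ x y : M, ((x + m • tri (b 1) (b 3) (b 4)) - (x + m • tri (b 0) (b 1) (b 4))) -
      ((y + m • tri (b 2) (b 3) (b 4)) - (y + m • tri (b 0) (b 2) (b 4))) =
      (4 : ℤ) • (m • (b 1 - b 2)) := by
    intro x y
    unfold tri
    module
  have q2 : ∀ x y : M, ((y + m • tri (b 2) (b 3) (b 4)) - (y + m • tri (b 0) (b 1) (b 4))) -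
      ((x + m • tri (b 1) (b 3) (b 4)) - (x + m • tri (b 0) (b 2) (b 4))) =
      (2 : ℤ) • (m • (b 1 - b 2)) := by
    intro x y
    unfold tri
    module
  have f3 : ∀ x : M, x + m • tri (b 0) (b 1) (b 4) ∈ A → x + m • tri (b 0) (b 2) (b 4) ∈ A →
      m • (b 1 - b 2) ∈ A := fun x u v => hA 3 _ (by decide) (by rw [← d34 x]; exact A.sub_mem v u)
  have f1 : ∀ x : M, x + m • tri (b 1) (b 3) (b 4) ∈ A → x + m • tri (b 2) (b 3) (b 4) ∈ A →
      m • (b 1 - b 2) ∈ A := fun x u v => by rw [← d12 x]; exact A.sub_mem u v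
  rcases h1 with h1 | h1 <;> rcases h2 with h2 | h2
  · exact f1 e h1 h2
  · rcases h3 with h3 | h3 <;> rcases h4 with h4 | h4
    · exact f3 e h3 h4
    · exact hA 4 _ (by decide) (by
        rw [← q1 e e']; exact A.sub_mem (A.sub_mem h1 h3) (A.sub_mem h2 h4))
    · exact hA 2 _ (by decide) (by
        rw [← q2 e e']; exact A.sub_mem (A.sub_mem h2 h3) (A.sub_mem h1 h4))
    · exact f3 e' h3 h4
  · rcases h3 with h3 | h3 <;> rcases h4 with h4 | h4
    · exact f3 e h3 h4
    · exact hA 2 _ (by decide) (by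
        rw [← q2 e' e]; exact A.sub_mem (A.sub_mem h2 h3) (A.sub_mem h1 h4))
    · exact hA 4 _ (by decide) (by
        rw [← q1 e' e]; exact A.sub_mem (A.sub_mem h1 h3) (A.sub_mem h2 h4))
    · exact f3 e' h3 h4
  · exact f1 e' h1 h2

end Pool.Agent.CN
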