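import Pool.Agent.Lib.MP_764a00_al.Stm

/-!
# MP_764a00_al : the number of small lattice ordered subgroups
-/

namespace Pool.Agent.CN

open Cardinal

/-- the graph of the order -/
def cn_gr {M : Type} [AddCommGroup M] (L : LG M) : Set (M × M) :=
  {p | ∃ (h1 : p.1 ∈ L.N) (h2 : p.2 ∈ L.N), (⟨p.1, h1⟩ : L.N) ≤ ⟨p.2, h2⟩}

theorem cn_inj {M : Type} [AddCommGroup M] {L L' : LG M} (h1 : (L.N : Set M) = L'.N)
    (h2 : cn_gr L = cn_gr L') : L = L' := by
  obtain ⟨N, lat, ord⟩ := L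
  obtain ⟨N', lat', ord'⟩ := L'
  have hN : N = N' := SetLike.coe_injective h1
  subst hN
  have hlat : lat = lat' := by
    refine Lattice.ext fun x y => ?_
    have h3 : ((x : M), (y : M)) ∈ cn_gr ⟨N, lat, ord⟩ ↔
        ((x : M), (y : M)) ∈ cn_gr ⟨N, lat', ord'⟩ := by
      rw [h2]
    constructor
    · intro h
      obtain ⟨_, _, h⟩ := h3.1 ⟨x.2, y.2, h⟩
      exact h
    · intro h
      obtain ⟨_, _, h⟩ := h3.2 ⟨x.2, y.2, h⟩
      exact h
  subst hlat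
  rfl

theorem cn_card {M : Type} [AddCommGroup M] {lam : Cardinal.{0}} (hlam : ℵ₀ ≤ lam) (L : LG M)
    (h : #L.N ≤ lam) : #(cn_gr L) ≤ lam := by
  have h1 : #(cn_gr L) ≤ #(L.N × L.N) := by
    refine Cardinal.mk_le_of_injective
      (f := fun p : cn_gr L => ((⟨p.1.1, p.2.1⟩ : L.N), (⟨p.1.2, p.2.2.1⟩ : L.N))) ?_
    rintro ⟨⟨a, b⟩, h1⟩ ⟨⟨a', b'⟩, h2⟩ h3
    simp only [Prod.mk.injEq, Subtype.mk.injEq] at h3
    exact Subtype.ext (Prod.ext h3.1 h3.2)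
  refine h1.trans ?_
  simp only [Cardinal.mk_prod, Cardinal.lift_id]
  exact (mul_le_mul' h h).trans (Cardinal.mul_eq_self hlam).le

theorem cn_sub {A : Type} {lam : Cardinal.{0}} (hlam : ℵ₀ ≤ lam) (hA : #A ≤ 2 ^ lam) :
    #{t : Set A // #t ≤ lam} ≤ 2 ^ lam := by
  refine (Cardinal.mk_bounded_set_le A lam).trans ?_
  have h1 : max #A ℵ₀ ≤ 2 ^ lam := max_le hA (hlam.trans (Cardinal.cantor lam).le)
  refine (Cardinal.power_le_power_right h1).trans ?_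
  rw [← Cardinal.power_mul, Cardinal.mul_eq_self hlam]

theorem p_CN : S_CN := by
  intro M _ lam hlam hM
  have h2 : ℵ₀ ≤ (2 : Cardinal.{0}) ^ lam := hlam.trans (Cardinal.cantor lam).le
  have hMM : #(M × M) ≤ 2 ^ lam := by
    simp only [Cardinal.mk_prod, Cardinal.lift_id]
    exact (mul_le_mul' hM hM).trans (Cardinal.mul_eq_self h2).le
  have h3 : #{L : LG M // #L.N ≤ lam} ≤
      #({t : Set M // #t ≤ lam} × {t : Set (M × M) // #t ≤ lam}) := by
    refine Cardinal.mk_le_of_injective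
      (f := fun L : {L : LG M // #L.N ≤ lam} =>
        ((⟨(L.1.N : Set M), L.2⟩ : {t : Set M // #t ≤ lam}),
          (⟨cn_gr L.1, cn_card hlam L.1 L.2⟩ : {t : Set (M × M) // #t ≤ lam}))) ?_
    rintro ⟨L, hL⟩ ⟨L', hL'⟩ h
    simp only [Prod.mk.injEq, Subtype.mk.injEq] at h
    exact Subtype.ext (cn_inj h.1 h.2)
  refine h3.trans ?_
  simp only [Cardinal.mk_prod, Cardinal.lift_id]
  exact (mul_le_mul' (cn_sub hlam hM) (cn_sub hlam hMM)).trans (Cardinal.mul_eq_self h2).le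

end Pool.Agent.CN
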