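import Pool.Agent.Lib.MP_764a00_al.Stm

/-!
# MP_764a00_al, piece DS: splitting of disjoint sums
-/

namespace Pool.Agent.CN

private theorem ds_abs_le {Λ : Type} [AddCommGroup Λ] [LinearOrder Λ] [IsOrderedAddMonoid Λ]
    (K : ℕ) (x : Λ) : |x| ≤ |(5 : ℤ) ^ K • x| := by
  rw [abs_zsmul, abs_of_nonneg (by positivity : (0 : ℤ) ≤ 5 ^ K)]
  have h1 : (1 : ℤ) ≤ 5 ^ K := one_le_pow₀ (by norm_num)
  calc |x| = (1 : ℤ) • |x| := (one_zsmul _).symm
    _ ≤ (5 : ℤ) ^ K • |x| := zsmul_le_zsmul_left (abs_nonneg x) h1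

private theorem ds_split {Λ : Type} [AddCommGroup Λ] [LinearOrder Λ] [IsOrderedAddMonoid Λ]
    (x : Λ) : (x ⊔ 0) - (-x ⊔ 0) = x := by
  rcases le_total 0 x with h | h
  · rw [sup_eq_left.2 h, sup_eq_right.2 (neg_nonpos.2 h), sub_zero]
  · rw [sup_eq_right.2 h, sup_eq_left.2 (neg_nonneg.2 h), zero_sub, neg_neg]

theorem p_DS (ht : S_TR) : S_DS := by
  intro N _ _ _ u r K hdis ⟨e, he⟩
  refine ⟨(e⁺ ⊓ |u|) - (e⁻ ⊓ |u|), ?_⟩
  have key : ∀ (Λ : Type) [AddCommGroup Λ] [LinearOrder Λ] [IsOrderedAddMonoid Λ] (π : N →+ Λ),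
      (∀ x y, π (x ⊔ y) = π x ⊔ π y) → (∀ x y, π (x ⊓ y) = π x ⊓ π y) →
      π u = π ((5 : ℤ) ^ K • ((e⁺ ⊓ |u|) - (e⁻ ⊓ |u|))) := by
    intro Λ _ _ _ π hs hi
    have habs : ∀ x, π |x| = |π x| := by
      intro x
      change π (x ⊔ -x) = π x ⊔ -π x
      rw [hs, map_neg]
    have hp : π e⁺ = π e ⊔ 0 := by rw [posPart_def, hs, map_zero]
    have hn : π e⁻ = -π e ⊔ 0 := by rw [negPart_def, hs, map_zero, map_neg]
    have hd : |π u| ⊓ |π r| = 0 := by rw [← habs, ← habs, ← hi, hdis, map_zero]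
    have hu : π u - π r = (5 : ℤ) ^ K • π e := by rw [← map_sub, he, map_zsmul]
    rw [map_zsmul, map_sub, hi, hi, hp, hn, habs]
    have hor : π u = 0 ∨ π r = 0 := by
      rcases le_total |π u| |π r| with h | h
      · rw [inf_eq_left.2 h] at hd
        exact Or.inl (abs_eq_zero.1 hd)
      · rw [inf_eq_right.2 h] at hd
        exact Or.inr (abs_eq_zero.1 hd)
    rcases hor with h | h
    · rw [h, abs_zero, inf_eq_right.2 (le_sup_right : (0 : Λ) ≤ π e ⊔ 0),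
        inf_eq_right.2 (le_sup_right : (0 : Λ) ≤ -π e ⊔ 0), sub_zero, smul_zero]
    · rw [h, sub_zero] at hu
      have h1 : |π e| ≤ |π u| := by
        rw [hu]
        exact ds_abs_le K (π e)
      have h2 : π e ⊔ 0 ≤ |π u| := (sup_le (le_abs_self _) (abs_nonneg _)).trans h1
      have h3 : -π e ⊔ 0 ≤ |π u| := (sup_le (neg_le_abs _) (abs_nonneg _)).trans h1
      rw [inf_eq_left.2 h2, inf_eq_left.2 h3, ds_split, hu]
  refine le_antisymm (ht N _ _ fun Λ _ _ _ π hs hi => (key Λ π hs hi).le)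
    (ht N _ _ fun Λ _ _ _ π hs hi => (key Λ π hs hi).ge)

end Pool.Agent.CN
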