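import Pool.Agent.Lib.MP_764a00_al.Stm

/-!
# MP_764a00_al : the partition theorem for triples
-/

namespace Pool.Agent.CN

open Cardinal Ordinal Order

/-- suprema of few ordinals -/
theorem er3_sup {ι : Type} {μ : Cardinal.{0}} (hμ : ℵ₀ ≤ μ) (hι : #ι ≤ μ) (f : ι → Ordinal.{0})
    (hf : ∀ i, f i < (Order.succ μ).ord) : ∃ b < (Order.succ μ).ord, ∀ i, f i ≤ b := by
  refine ⟨⨆ i, f i, Ordinal.iSup_lt_of_lt_cof ?_ hf, fun i => Ordinal.le_iSup f i⟩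
  rw [(Cardinal.isRegular_succ hμ).cof_ord]
  exact Order.lt_succ_of_le hι

theorem er3_sup' {μ : Cardinal.{0}} (hμ : ℵ₀ ≤ μ) (g : Ordinal.{0} → Ordinal.{0})
    (β : Ordinal.{0}) (hβ : β < (Order.succ μ).ord) (hg : ∀ c < β, g c < (Order.succ μ).ord) :
    ∃ b < (Order.succ μ).ord, ∀ c < β, g c ≤ b := by
  have hcard : #(β.ToType) ≤ μ := by
    rw [Cardinal.mk_toType]
    exact Order.lt_succ_iff.1 (Cardinal.lt_ord.1 hβ)
  obtain ⟨b, hb, h⟩ := er3_sup hμ hcard (fun i => g (i.toOrd : Ordinal.{0}))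
    (fun i => hg _ i.toOrd.2)
  refine ⟨b, hb, fun c hc => ?_⟩
  have := h (Ordinal.ToType.mk ⟨c, hc⟩)
  rwa [show ((Ordinal.ToType.mk ⟨c, hc⟩ : β.ToType).toOrd : Ordinal.{0}) = c by
    rw [Ordinal.ToType.toOrd, OrderIso.symm_apply_apply]] at this

/-- enumeration of a cofinal set -/
theorem er3_enum {μ : Cardinal.{0}} (hμ : ℵ₀ ≤ μ) (P : Ordinal.{0} → Prop)
    (hP : ∀ b < (Order.succ μ).ord, ∃ a, b < a ∧ a < (Order.succ μ).ord ∧ P a) :
    ∃ f : Ordinal.{0} → Ordinal.{0}, (∀ β < (Order.succ μ).ord, f β < (Order.succ μ).ord ∧ P (f β)) ∧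
      ∀ α β, α < β → f α < f β := by
  set o := (Order.succ μ).ord with ho
  let s : Set Ordinal.{0} := {a | (a < o ∧ P a) ∨ o ≤ a}
  have hs : ¬ BddAbove s := by
    rintro ⟨b, hb⟩
    have h1 : max o (Order.succ b) ∈ s := Or.inr (le_max_left _ _)
    have h2 := hb h1
    exact absurd (lt_of_lt_of_le (Order.lt_succ b) (le_trans (le_max_right _ _) h2)) (lt_irrefl _)
  have hlt : ∀ β < o, enumOrd s β < o := by
    intro β
    induction β using WellFoundedLT.induction with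
    | ind β ih =>
      intro hβ
      obtain ⟨b, hb, hb'⟩ := er3_sup' hμ (enumOrd s) β hβ (fun c hc => ih c hc (hc.trans hβ))
      obtain ⟨a, ha, ha', hPa⟩ := hP b hb
      exact lt_of_le_of_lt (enumOrd_le_of_forall_lt (Or.inl ⟨ha', hPa⟩)
        (fun c hc => lt_of_le_of_lt (hb' c hc) ha)) ha'
  refine ⟨enumOrd s, fun β hβ => ⟨hlt β hβ, ?_⟩, fun α β h => enumOrd_strictMono hs h⟩
  rcases enumOrd_mem hs β with h | h
  · exact h.2
  · exact absurd (hlt β hβ) (not_lt.2 h)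

/-- a colour which occurs cofinally often -/
theorem er3_col {C : Type} {μ : Cardinal.{0}} (hμ : ℵ₀ ≤ μ) (hC : #C ≤ μ) (d : Ordinal.{0} → C) :
    ∃ col : C, ∀ b < (Order.succ μ).ord, ∃ a, b < a ∧ a < (Order.succ μ).ord ∧ d a = col := by
  by_contra! h
  choose b hb hb' using h
  obtain ⟨m, hm, hm'⟩ := er3_sup hμ hC b hb
  have hlim : Order.succ m < (Order.succ μ).ord :=
    (Cardinal.isSuccLimit_ord (hμ.trans (Order.le_succ μ))).succ_lt hm
  exact hb' (d (Order.succ m)) (Order.succ m) (lt_of_le_of_lt (hm' _) (Order.lt_succ m)) hlim rfl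

theorem p_ER3 (hr : S_RAM) : S_ER3 := by
  intro C μ hμ hC c
  have h2μ : ℵ₀ ≤ (2 ^ μ : Cardinal.{0}) := hμ.trans (Cardinal.cantor μ).le
  have hC1 : #C ≤ 2 ^ μ := hC.trans (Cardinal.cantor μ).le
  have hC2 : #C ≤ 2 ^ (2 ^ μ : Cardinal.{0}) := hC1.trans (Cardinal.cantor _).le
  obtain ⟨f₁, hb₁, hm₁, he₁⟩ := hr C (2 ^ μ) h2μ hC2
    (fun l x => c (l.getD 0 0) (l.getD 1 0) x)
  obtain ⟨f₂, hb₂, hm₂, he₂⟩ := hr C μ hμ hC1
    (fun l x => c (f₁ (l.getD 0 0)) (f₁ x) (f₁ (Order.succ x)))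
  obtain ⟨col, hcol⟩ := er3_col hμ hC
    (fun α => c (f₁ (f₂ α)) (f₁ (f₂ (Order.succ α))) (f₁ (Order.succ (f₂ (Order.succ α)))))
  obtain ⟨f₃, hb₃, hm₃⟩ := er3_enum hμ _ hcol
  have hlim : ∀ x < (Order.succ (2 ^ μ : Cardinal.{0})).ord,
      Order.succ x < (Order.succ (2 ^ μ : Cardinal.{0})).ord := fun x hx =>
    (Cardinal.isSuccLimit_ord (h2μ.trans (Order.le_succ _))).succ_lt hx
  have hlim' : ∀ x < (Order.succ μ).ord, Order.succ x < (Order.succ μ).ord := fun x hx =>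
    (Cardinal.isSuccLimit_ord (hμ.trans (Order.le_succ _))).succ_lt hx
  -- independence of the last argument
  have e₁ : ∀ α β γ γ', α < β → β < γ → γ ≤ γ' → γ' < (Order.succ (2 ^ μ : Cardinal.{0})).ord →
      c (f₁ α) (f₁ β) (f₁ γ) = c (f₁ α) (f₁ β) (f₁ γ') := by
    intro α β γ γ' h1 h2 h3 h4
    have := he₁ [α, β] γ γ' (by
      intro x hx
      rcases List.mem_cons.1 hx with rfl | hx
      · exact h1.trans h2
      · rcases List.mem_cons.1 hx with rfl | hx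
        · exact h2
        · exact absurd hx (List.not_mem_nil)) h3 h4
    simpa using this
  have e₂ : ∀ α β β', α < β → β ≤ β' → β' < (Order.succ μ).ord →
      c (f₁ (f₂ α)) (f₁ (f₂ β)) (f₁ (Order.succ (f₂ β))) =
        c (f₁ (f₂ α)) (f₁ (f₂ β')) (f₁ (Order.succ (f₂ β'))) := by
    intro α β β' h1 h2 h3
    have := he₂ [α] β β' (by
      intro x hx
      rcases List.mem_cons.1 hx with rfl | hx
      · exact h1
      · exact absurd hx (List.not_mem_nil)) h2 h3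
    simpa using this
  have e₃ : ∀ α β γ, α < β → β < γ → γ < (Order.succ μ).ord →
      c (f₁ (f₂ α)) (f₁ (f₂ β)) (f₁ (f₂ γ)) =
        c (f₁ (f₂ α)) (f₁ (f₂ (Order.succ α))) (f₁ (Order.succ (f₂ (Order.succ α)))) := by
    intro α β γ h1 h2 h3
    have h4 := hm₂ α β h1 (h2.trans h3)
    have h5 := hm₂ β γ h2 h3
    have h6 := e₁ (f₂ α) (f₂ β) (Order.succ (f₂ β)) (f₂ γ) h4 (Order.lt_succ _)
      (Order.succ_le_of_lt h5) (hb₂ γ h3)
    rw [← h6]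
    exact (e₂ α (Order.succ α) β (Order.lt_succ _) (Order.succ_le_of_lt h1) (h2.trans h3)).symm
  refine ⟨fun x => f₁ (f₂ (f₃ x)), col, fun β hβ => ?_, fun α β h hβ => ?_, fun α β γ h1 h2 h3 => ?_⟩
  · exact hb₁ _ (hb₂ _ (hb₃ β hβ).1)
  · exact hm₁ _ _ (hm₂ _ _ (hm₃ α β h) (hb₃ β hβ).1) (hb₂ _ (hb₃ β hβ).1)
  · have h4 := hb₃ γ h3
    show c (f₁ (f₂ (f₃ α))) (f₁ (f₂ (f₃ β))) (f₁ (f₂ (f₃ γ))) = col
    rw [e₃ (f₃ α) (f₃ β) (f₃ γ) (hm₃ _ _ h1) (hm₃ _ _ h2) h4.1]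
    exact (hb₃ α (h1.trans (h2.trans h3))).2

end Pool.Agent.CN
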