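import Pool.Agent.Lib.MP_764a00_al.Stm

/-!
# MP_764a00_al : homogeneous sets with five elements
-/

namespace Pool.Agent.CN

open Cardinal Ordinal Order

theorem p_ER5 (he : S_ER3) : S_ER5 := by
  intro X W μ hμ hW hX c
  set κ : Cardinal.{0} := 2 ^ (2 ^ μ : Cardinal.{0}) with hκ
  -- an injection from the ordinals below the successor
  have h1 : #(Set.Iio (Order.succ κ).ord) ≤ Cardinal.lift.{1} #X := by
    rw [Cardinal.mk_Iio_ordinal, Cardinal.card_ord, Cardinal.lift_le]
    exact Order.succ_le_of_lt hX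
  have h2 : Cardinal.lift.{0} #(Set.Iio (Order.succ κ).ord) ≤ Cardinal.lift.{1} #X := by
    rw [Cardinal.lift_uzero]; exact h1
  obtain ⟨j⟩ := Cardinal.lift_mk_le'.1 h2
  have hne : Nonempty X := by
    rw [← Cardinal.mk_ne_zero_iff]
    exact (lt_of_le_of_lt bot_le hX).ne'
  classical
  let x₀ : X := Classical.arbitrary X
  let J : Ordinal.{0} → X := fun α => if h : α < (Order.succ κ).ord then j ⟨α, h⟩ else x₀
  have hJ : ∀ α β, α < (Order.succ κ).ord → β < (Order.succ κ).ord → J α = J β → α = β := by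
    intro α β ha hb h
    simp only [J, dif_pos ha, dif_pos hb] at h
    exact congrArg Subtype.val (j.injective h)
  obtain ⟨f, col, hf1, hf2, hf3⟩ := he W μ hμ hW (fun α β γ => c (J α) (J β) (J γ))
  have hnat : ∀ i : ℕ, (i : Ordinal.{0}) < (Order.succ μ).ord := by
    intro i
    have h3 : (Order.succ μ) ≥ ℵ₀ := hμ.trans (Order.le_succ μ)
    exact lt_of_lt_of_le (Ordinal.natCast_lt_omega0 i) (Ordinal.omega0_le_of_isSuccLimit
      (Cardinal.isSuccLimit_ord h3))
  have hlt : ∀ i k : Fin 5, i < k → ((i : ℕ) : Ordinal.{0}) < ((k : ℕ) : Ordinal.{0}) := by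
    intro i k h
    exact_mod_cast h
  refine ⟨fun i => J (f ((i : ℕ) : Ordinal.{0})), col, ?_, ?_⟩
  · intro i k hik
    have h4 := hJ _ _ (hf1 _ (hnat i)) (hf1 _ (hnat k)) hik
    by_contra hne
    rcases lt_or_gt_of_ne hne with h | h
    · exact absurd h4 (hf2 _ _ (hlt _ _ h) (hnat k)).ne
    · exact absurd h4.symm (hf2 _ _ (hlt _ _ h) (hnat i)).ne
  · intro i k l hik hkl
    exact hf3 _ _ _ (hlt _ _ hik) (hlt _ _ hkl) (hnat l)

end Pool.Agent.CN
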