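import Pool.Agent.Lib.MP_764a00_al.Stm

/-!
# MP_764a00_al : piece FC
-/

namespace Pool.Agent.CN

private theorem fc_of_sub {Λ : Type} [AddCommGroup Λ] [LinearOrder Λ] [IsOrderedAddMonoid Λ]
    {a b c : Λ} (h : b - a = c) (hc : 0 ≤ c) : a ≤ b := by
  rw [← sub_nonneg, h]
  exact hc

private theorem fc_lin {Λ : Type} [AddCommGroup Λ] [LinearOrder Λ] [IsOrderedAddMonoid Λ]
    (Y A : ℕ → Λ) (m : ℕ) (hm : 3 ≤ m)
    (hp : ∀ i j, i < j → j ≤ m → A j - A i ≠ 0 → 0 ≤ Y j - Y i)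
    (ht : ∀ i j k, i < j → j < k → k ≤ m → A i - (2 : ℤ) • A j + A k ≠ 0 →
      0 ≤ Y i - (2 : ℤ) • Y j + Y k) :
    2 ^ (m - 3) • ((Y 1 - Y 0)⁺ ⊓ |A 1 - A 0|) ≤ |Y m - Y 1| := by
  by_cases h01 : A 1 - A 0 = 0
  · rw [h01, abs_zero, inf_eq_right.mpr (posPart_nonneg _), smul_zero]
    exact abs_nonneg _
  have hβ : 0 ≤ Y 1 - Y 0 := hp 0 1 (by omega) (by omega) h01
  -- (0) the triples (0, 1, j)
  have h0 : ∀ j, 1 < j → j ≤ m → A 0 - (2 : ℤ) • A 1 + A j ≠ 0 → Y 1 - Y 0 ≤ Y j - Y 1 := by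
    intro j h1 h2 h3
    exact fc_of_sub (by abel) (ht 0 1 j (by omega) h1 h2 h3)
  -- (1)
  have h1 : ∀ j, 1 < j → j ≤ m → 0 ≤ Y j - Y 1 := by
    intro j hj hj'
    by_cases h : A 0 - (2 : ℤ) • A 1 + A j = 0
    · refine hp 1 j hj hj' ?_
      have e : A j - A 1 = (A 0 - (2 : ℤ) • A 1 + A j) + (A 1 - A 0) := by abel
      rw [e, h, zero_add]
      exact h01
    · exact hβ.trans (h0 j hj hj' h)
  -- (2)
  have h2 : ∀ j k, 1 < j → j < k → k ≤ m → (2 : ℤ) • (Y j - Y 1) ≤ Y k - Y 1 := by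
    intro j k hj hjk hk
    by_cases h : A 1 - (2 : ℤ) • A j + A k = 0
    · have e : A 0 - (2 : ℤ) • A j + A k = (A 1 - (2 : ℤ) • A j + A k) - (A 1 - A 0) := by abel
      have h3 : A 0 - (2 : ℤ) • A j + A k ≠ 0 := by
        rw [e, h, zero_sub]
        exact neg_ne_zero.mpr h01
      have h4 := ht 0 j k (by omega) hjk hk h3
      refine fc_of_sub (c := (Y 0 - (2 : ℤ) • Y j + Y k) + (Y 1 - Y 0)) (by abel)
        (add_nonneg h4 hβ)
    · exact fc_of_sub (by abel) (ht 1 j k hj hjk hk h)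
  -- (3)
  have h3 : Y 1 - Y 0 ≤ Y 3 - Y 1 := by
    by_cases h : A 0 - (2 : ℤ) • A 1 + A 2 = 0
    · by_cases h' : A 0 - (2 : ℤ) • A 1 + A 3 = 0
      · have e : A 0 - (2 : ℤ) • A 2 + A 3 = (A 0 - (2 : ℤ) • A 1 + A 3) -
            (2 : ℤ) • (A 0 - (2 : ℤ) • A 1 + A 2) - (2 : ℤ) • (A 1 - A 0) := by abel
        have h4 : A 0 - (2 : ℤ) • A 2 + A 3 ≠ 0 := by
          rw [e, h, h', smul_zero, sub_zero, zero_sub]
          refine neg_ne_zero.mpr ?_
          rw [two_zsmul]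
          intro hc
          rcases lt_trichotomy (A 1 - A 0) 0 with hl | hl | hl
          · exact absurd hc (add_neg hl hl).ne
          · exact h01 hl
          · exact absurd hc (add_pos hl hl).ne'
        have h5 := ht 0 2 3 (by omega) (by omega) hm h4
        have h6 := h1 2 (by omega) (by omega)
        refine fc_of_sub (c := (Y 0 - (2 : ℤ) • Y 2 + Y 3) + ((Y 2 - Y 1) + (Y 2 - Y 1)))
          (by abel) (add_nonneg h5 (add_nonneg h6 h6))
      · exact h0 3 (by omega) hm h'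
    · have h4 := h0 2 (by omega) (by omega) h
      have h5 := h2 2 3 (by omega) (by omega) hm
      have h6 := h1 2 (by omega) (by omega)
      refine h4.trans (le_trans ?_ h5)
      rw [two_zsmul]
      exact le_add_of_nonneg_left h6
  -- (4)
  have h4 : ∀ n, n + 3 ≤ m → 2 ^ n • (Y 1 - Y 0) ≤ Y (n + 3) - Y 1 := by
    intro n
    induction n with
    | zero =>
      intro _
      rw [pow_zero, one_smul]
      exact h3
    | succ n ih =>
      intro hn
      have h5 := ih (by omega)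
      have h6 := h2 (n + 3) (n + 1 + 3) (by omega) (by omega) hn
      refine le_trans ?_ h6
      rw [pow_succ, mul_comm, mul_smul, two_smul, two_zsmul]
      exact add_le_add h5 h5
  have h5 := h4 (m - 3) (by omega)
  rw [Nat.sub_add_cancel hm] at h5
  refine le_trans ?_ (h5.trans (le_abs_self _))
  refine nsmul_le_nsmul_right ?_ _
  rw [posPart_eq_self.mpr hβ]
  exact inf_le_left

theorem p_FC (ht : S_TR) : S_FC := by
  intro N _ _ _ y a m hm h2 h3
  refine ht N _ _ ?_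
  intro Λ _ _ _ π hs hi
  have hneg : ∀ x, π (x⁻) = (π x)⁻ := fun x => by
    rw [negPart_def, negPart_def, hs, map_neg, map_zero]
  have hpos : ∀ x, π (x⁺) = (π x)⁺ := fun x => by
    rw [posPart_def, posPart_def, hs, map_zero]
  have habs : ∀ x, π |x| = |π x| := fun x => by
    change π (x ⊔ -x) = π x ⊔ -π x
    rw [hs, map_neg]
  -- minimum zero in a linear order
  have hmin : ∀ u v : N, u⁻ ⊓ |v| = 0 → π v ≠ 0 → 0 ≤ π u := by
    intro u v h hv
    have h4 : (π u)⁻ ⊓ |π v| = 0 := by rw [← hneg, ← habs, ← hi, h, map_zero]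
    rcases min_choice (π u)⁻ |π v| with h5 | h5
    · have h6 : (π u)⁻ = 0 := h5.symm.trans h4
      exact negPart_eq_zero.mp h6
    · exact absurd (abs_eq_zero.mp (h5.symm.trans h4)) hv
  have key := fc_lin (fun i => π (y i)) (fun i => π (a i)) m hm
    (fun i j hij hj h => by
      rw [← map_sub] at h ⊢
      exact hmin _ _ (h2 i j hij hj) h)
    (fun i j k hij hjk hk h => by
      rw [← map_zsmul, ← map_sub, ← map_add] at h ⊢
      exact hmin _ _ (h3 i j k hij hjk hk) h)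
  rw [map_nsmul, hi, hpos, habs, habs, map_sub, map_sub, map_sub]
  exact key

end Pool.Agent.CN
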