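import Pool.Agent.Lib.MP_764a00_al.Stm

/-! One step of the decision (S_G1). -/

namespace Pool.Agent.CN

open Cardinal

theorem p_G1 (dt : S_DT) (lb : S_LB) : S_G1 := by
  intro M _ B lam R p hlam hR hG
  have hF : ∀ q r : Cond M B lam, ∀ x y, r ≤ q → FPos R q x y → FPos R r x y := by
    intro q r x y hrq h
    exact ⟨hR _ _ _ _ hrq h.1, hR _ _ _ _ hrq h.2.1,
      fun s hs z hz h1 h2 => h.2.2 s (hs.trans hrq) z hz h1 h2⟩
  let D : (p.H × p.H) ⊕ (p.H ⊕ (ℕ × p.H × p.H)) → Set (Cond M B lam) := fun a =>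
    match a with
    | Sum.inl (x, y) => {q | R q x y ∨ ∀ r ≤ q, ¬ R r x y}
    | Sum.inr (Sum.inl x) => {q | ∃ y ∈ q.H, FPos R q x y}
    | Sum.inr (Sum.inr (K, u, v)) => {q | (∃ z z', z ∈ q.H ∧ z' ∈ q.H ∧ FPos R q z z' ∧
      z - u ∈ dv M K ∧ z' - v ∈ dv M K) ∨ ∀ r ≤ q, ¬ ∃ z z', z ∈ r.H ∧ z' ∈ r.H ∧
      FPos R r z z' ∧ z - u ∈ dv M K ∧ z' - v ∈ dv M K}
  have hcard : #((p.H × p.H) ⊕ (p.H ⊕ (ℕ × p.H × p.H))) ≤ lam := by
    have h1 : #p.H ≤ lam := p.cardH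
    have h2 : #(p.H × p.H) ≤ lam := by
      rw [mk_prod, lift_id]
      exact (mul_le_mul' h1 h1).trans (mul_eq_self hlam).le
    have h3 : #(ℕ × p.H × p.H) ≤ lam := by
      rw [mk_prod, lift_id, lift_id, mk_nat]
      exact (mul_le_mul' hlam h2).trans (mul_eq_self hlam).le
    have h4 : #(p.H ⊕ (ℕ × p.H × p.H)) ≤ lam := by
      rw [mk_sum, lift_id, lift_id]
      exact (add_le_add h1 h3).trans (add_eq_self hlam).le
    rw [mk_sum, lift_id, lift_id]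
    exact (add_le_add h2 h4).trans (add_eq_self hlam).le
  obtain ⟨q, hqp, hq⟩ := dt (Cond M B lam) lam hlam
    (fun J _ _ f hJ hf => by
      obtain ⟨q, hq, -⟩ := lb M B lam hlam J f hJ hf
      exact ⟨q, hq⟩) p _ D hcard
    (by
      rintro (⟨x, y⟩ | x | ⟨K, u, v⟩) q hqp
      · by_cases h : ∃ r ≤ q, R r x y
        · obtain ⟨r, hr, hrxy⟩ := h
          exact ⟨r, hr, Or.inl hrxy⟩
        · push Not at h
          exact ⟨q, le_rfl, Or.inr h⟩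
      · obtain ⟨r, hr, y, hy, hF'⟩ := hG.pos q hqp x (hqp.1 x.2)
        exact ⟨r, hr, y, hy, hF'⟩
      · by_cases h : ∃ r ≤ q, ∃ z z', z ∈ r.H ∧ z' ∈ r.H ∧
            FPos R r z z' ∧ z - u ∈ dv M K ∧ z' - v ∈ dv M K
        · obtain ⟨r, hr, hrxy⟩ := h
          exact ⟨r, hr, Or.inl hrxy⟩
        · refine ⟨q, le_rfl, Or.inr ?_⟩
          intro r hr h'
          exact h ⟨r, hr, h'⟩)
    (by
      rintro (⟨x, y⟩ | x | ⟨K, u, v⟩) q hq r hr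
      · rcases hq with h | h
        · exact Or.inl (hR _ _ _ _ hr h)
        · exact Or.inr fun s hs => h s (hs.trans hr)
      · obtain ⟨y, hy, hF'⟩ := hq
        exact ⟨y, hr.1 hy, hF _ _ _ _ hr hF'⟩
      · rcases hq with ⟨z, z', h1, h2, h3, h4, h5⟩ | h
        · exact Or.inl ⟨z, z', hr.1 h1, hr.1 h2, hF _ _ _ _ hr h3, h4, h5⟩
        · exact Or.inr fun s hs => h s (hs.trans hr))
  refine ⟨q, hqp, ?_, ?_, ?_⟩
  · intro x hx y hy
    exact hq (Sum.inl (⟨x, hx⟩, ⟨y, hy⟩))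
  · intro x hx
    exact hq (Sum.inr (Sum.inl ⟨x, hx⟩))
  · intro K u hu v hv
    exact hq (Sum.inr (Sum.inr (K, ⟨u, hu⟩, ⟨v, hv⟩)))

end Pool.Agent.CN
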