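import Pool.Agent.Lib.MP_764a00_al.Stm

/-! # decided lattice ordered groups exist (helper80) -/

namespace Pool.Agent.CN

open Cardinal

/-- a lattice order from a relation with positive parts -/
private theorem g2_lat (N : Type) [AddCommGroup N] (rel : N → N → Prop) (hrfl : ∀ x, rel x x)
    (htrans : ∀ x y z, rel x y → rel y z → rel x z) (hanti : ∀ x y, rel x y → rel y x → x = y)
    (hadd : ∀ x y z, rel x y → rel (z + x) (z + y)) (P : N → N) (h0 : ∀ x, rel 0 (P x))
    (h1 : ∀ x, rel x (P x)) (h2 : ∀ x z, rel 0 z → rel x z → rel (P x) z) :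
    ∃ (lat : Lattice N) (_ : @IsOrderedAddMonoid N _ lat.toPartialOrder.toPreorder),
      (∀ x y : N, x ≤ y ↔ rel x y) ∧ ∀ x : N, x⁺ = P x := by
  have hsub : ∀ x y z w, rel x y → x + z = w → rel w (y + z) := by
    intro x y z w h e
    have := hadd x y z h
    rw [add_comm z x, add_comm z y] at this
    rwa [e] at this
  let lat : Lattice N :=
    { le := rel
      le_refl := hrfl
      le_trans := htrans
      le_antisymm := hanti
      sup := fun x y => y + P (x - y)
      inf := fun x y => x - P (x - y)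
      le_sup_left := fun x y => by
        have := hadd (x - y) (P (x - y)) y (h1 _)
        rwa [add_sub_cancel] at this
      le_sup_right := fun x y => by
        have := hadd 0 (P (x - y)) y (h0 _)
        rwa [add_zero] at this
      sup_le := fun x y z hx hy => by
        have e1 : rel 0 (z - y) := by
          have := hadd y z (-y) hy
          rwa [neg_add_cancel, neg_add_eq_sub] at this
        have e2 : rel (x - y) (z - y) := by
          have := hadd x z (-y) hx
          rwa [neg_add_eq_sub, neg_add_eq_sub] at this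
        have := hadd _ _ y (h2 _ _ e1 e2)
        rwa [add_sub_cancel] at this
      inf_le_left := fun x y => by
        have := hadd 0 (P (x - y)) (x - P (x - y)) (h0 _)
        rwa [add_zero, sub_add_cancel] at this
      inf_le_right := fun x y => by
        have := hadd (x - y) (P (x - y)) (y - P (x - y)) (h1 _)
        have e : y - P (x - y) + (x - y) = x - P (x - y) := by abel
        rwa [e, sub_add_cancel] at this
      le_inf := fun z x y hx hy => by
        have e1 : rel 0 (x - z) := by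
          have := hadd z x (-z) hx
          rwa [neg_add_cancel, neg_add_eq_sub] at this
        have e2 : rel (x - y) (x - z) := by
          have := hadd z y (x - y - z) hy
          have e : x - y - z + z = x - y := by abel
          have e' : x - y - z + y = x - z := by abel
          rwa [e, e'] at this
        have := hadd _ _ (z - P (x - y)) (h2 _ _ e1 e2)
        have e : z - P (x - y) + (x - z) = x - P (x - y) := by abel
        rwa [sub_add_cancel, e] at this }
  refine ⟨lat, ?_, fun x y => Iff.rfl, fun x => ?_⟩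
  · refine @IsOrderedAddMonoid.mk N _ lat.toPartialOrder.toPreorder ?_ ?_
    · intro x y h z
      have := hadd x y z h
      rw [add_comm z x, add_comm z y] at this
      exact this
    · intro x y h z
      exact hadd x y z h
  · change 0 + P (x - 0) = P x
    rw [zero_add, sub_zero]

section

variable {M : Type} [AddCommGroup M] {B : Set M} {lam : Cardinal.{0}}

private theorem g2_gd {R : Cond M B lam → M → M → Prop} {p q : Cond M B lam} (h : Gd R p)
    (hq : q ≤ p) : Gd R q where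
  rfl := fun r hr => h.rfl r (hr.trans hq)
  trans := fun r hr => h.trans r (hr.trans hq)
  anti := fun r hr => h.anti r (hr.trans hq)
  add := fun r hr => h.add r (hr.trans hq)
  pos := fun r hr => h.pos r (hr.trans hq)
  arch := fun r hr => h.arch r (hr.trans hq)

private theorem g2_fpos {R : Cond M B lam → M → M → Prop}
    (hR : ∀ p q x y, q ≤ p → R p x y → R q x y) {p q : Cond M B lam} (hq : q ≤ p) {x y : M}
    (h : FPos R p x y) : FPos R q x y :=
  ⟨hR _ _ _ _ hq h.1, hR _ _ _ _ hq h.2.1, fun r hr => h.2.2 r (hr.trans hq)⟩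

/-- a condition which decides everything about its own elements -/
private theorem g2_cond (g1 : S_G1) (lb : S_LB) (R : Cond M B lam → M → M → Prop)
    (p : Cond M B lam) (hlam : ℵ₀ ≤ lam) (hR : ∀ p q x y, q ≤ p → R p x y → R q x y)
    (hG : Gd R p) :
    ∃ q ≤ p, (∀ x ∈ q.H, ∀ y ∈ q.H, R q x y ∨ ∀ r ≤ q, ¬ R r x y) ∧
    (∀ x ∈ q.H, ∃ y ∈ q.H, FPos R q x y) ∧
    ∀ (K : ℕ), ∀ u ∈ q.H, ∀ v ∈ q.H, (∃ z z', z ∈ q.H ∧ z' ∈ q.H ∧ FPos R q z z' ∧
      z - u ∈ dv M K ∧ z' - v ∈ dv M K) ∨ ∀ r ≤ q, ¬ ∃ z z', z ∈ r.H ∧ z' ∈ r.H ∧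
      FPos R r z z' ∧ z - u ∈ dv M K ∧ z' - v ∈ dv M K := by
  have hstep : ∀ q : {q : Cond M B lam // q ≤ p}, ∃ r : {q : Cond M B lam // q ≤ p}, r.1 ≤ q.1 ∧
      (∀ x ∈ q.1.H, ∀ y ∈ q.1.H, R r.1 x y ∨ ∀ s ≤ r.1, ¬ R s x y) ∧
      (∀ x ∈ q.1.H, ∃ y ∈ r.1.H, FPos R r.1 x y) ∧
      ∀ (K : ℕ), ∀ u ∈ q.1.H, ∀ v ∈ q.1.H, (∃ z z', z ∈ r.1.H ∧ z' ∈ r.1.H ∧ FPos R r.1 z z' ∧
        z - u ∈ dv M K ∧ z' - v ∈ dv M K) ∨ ∀ s ≤ r.1, ¬ ∃ z z', z ∈ s.H ∧ z' ∈ s.H ∧
        FPos R s z z' ∧ z - u ∈ dv M K ∧ z' - v ∈ dv M K := by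
    intro q
    obtain ⟨r, hr, h⟩ := g1 M B lam R q.1 hlam hR (g2_gd hG q.2)
    exact ⟨⟨r, hr.trans q.2⟩, hr, h⟩
  choose st hst using hstep
  let f : ℕ → {q : Cond M B lam // q ≤ p} := fun n => Nat.rec ⟨p, le_rfl⟩ (fun _ q => st q) n
  have hf : ∀ n, f (n + 1) = st (f n) := fun n => rfl
  have hanti : Antitone (fun n => (f n).1) := by
    refine antitone_nat_of_succ_le fun n => ?_
    rw [hf n]
    exact (hst (f n)).1
  obtain ⟨q, hq, hqH⟩ := lb M B lam hlam ℕ (fun n => (f n).1) (by simpa using hlam) hanti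
  have hH : ∀ x ∈ q.H, ∀ y ∈ q.H, ∃ n, x ∈ (f n).1.H ∧ y ∈ (f n).1.H := by
    intro x hx y hy
    obtain ⟨j, hj⟩ := hqH x hx
    obtain ⟨k, hk⟩ := hqH y hy
    exact ⟨max j k, (hanti (le_max_left j k)).1 hj, (hanti (le_max_right j k)).1 hk⟩
  refine ⟨q, hq 0, ?_, ?_, ?_⟩
  · intro x hx y hy
    obtain ⟨n, hn, hn'⟩ := hH x hx y hy
    have hqn : q ≤ (st (f n)).1 := hq (n + 1)
    rcases (hst (f n)).2.1 x hn y hn' with h | h
    · exact Or.inl (hR _ _ _ _ hqn h)
    · exact Or.inr fun r hr => h r (hr.trans hqn)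
  · intro x hx
    obtain ⟨n, hn, -⟩ := hH x hx x hx
    have hqn : q ≤ (st (f n)).1 := hq (n + 1)
    obtain ⟨y, hy, h⟩ := (hst (f n)).2.2.1 x hn
    exact ⟨y, hqn.1 hy, g2_fpos hR hqn h⟩
  · intro K u hu v hv
    obtain ⟨n, hn, hn'⟩ := hH u hu v hv
    have hqn : q ≤ (st (f n)).1 := hq (n + 1)
    rcases (hst (f n)).2.2.2 K u hn v hn' with ⟨z, z', hz, hz', h, h'⟩ | h
    · exact Or.inl ⟨z, z', hqn.1 hz, hqn.1 hz', g2_fpos hR hqn h, h'⟩
    · exact Or.inr fun r hr => h r (hr.trans hqn)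

end

theorem p_G2 (g1 : S_G1) (lb : S_LB) : S_G2 := by
  intro M _ B lam R p hlam hR hG
  obtain ⟨q, hqp, hdec, hpos, hwit⟩ := g2_cond g1 lb R p hlam hR hG
  refine ⟨q, hqp, ?_⟩
  have hGq : Gd R q := g2_gd hG hqp
  have hup : ∀ x ∈ q.H, ∀ y ∈ q.H, (∃ r ≤ q, R r x y) → R q x y := by
    rintro x hx y hy ⟨r, hr, h⟩
    rcases hdec x hx y hy with h' | h'
    · exact h'
    · exact absurd h (h' r hr)
  have hpos' : ∀ x : q.H, ∃ y : q.H, FPos R q x y := by
    intro x
    obtain ⟨y, hy, h⟩ := hpos x x.2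
    exact ⟨⟨y, hy⟩, h⟩
  choose P hP using hpos'
  have hleast : ∀ x ∈ q.H, ∀ y ∈ q.H, ∀ z ∈ q.H, FPos R q x y → R q 0 z → R q x z → R q y z := by
    intro x hx y hy z hz h h0 h1
    exact hup y hy z hz (h.2.2 q le_rfl z hz h0 h1)
  obtain ⟨lat, hord, hle, hpp⟩ := g2_lat q.H (fun x y => R q x y)
    (fun x => hup x x.2 x x.2 (hGq.rfl q le_rfl x x.2))
    (fun x y z h h' => hup x x.2 z z.2 (hGq.trans q le_rfl x x.2 y y.2 z z.2 h h'))
    (fun x y h h' => Subtype.ext (hGq.anti q le_rfl x x.2 y y.2 h h'))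
    (fun x y z h => by
      have := hup (z + x) (add_mem z.2 x.2) (z + y) (add_mem z.2 y.2)
        (hGq.add q le_rfl x x.2 y y.2 z z.2 h)
      simpa using this)
    P (fun x => by simpa using (hP x).1) (fun x => (hP x).2.1)
    (fun x z h h' => hleast x x.2 (P x) (P x).2 z z.2 (hP x) (by simpa using h) h')
  refine ⟨⟨q.H, lat, hord⟩, ?_⟩
  refine
    { eq := rfl
      arch := ?_
      dec := fun x y => hdec x x.2 y y.2
      le := fun x y => hle x y
      pos := ?_
      wit := ?_ }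
  · intro a b h
    rw [hle]
    refine hup _ a.2 _ (zero_mem _) ?_
    refine hGq.arch q le_rfl a a.2 b b.2 fun n => ?_
    have := (hle _ _).1 (h n)
    simpa using this
  · intro x
    have := hpp x
    rw [this]
    exact hP x
  · rintro K u v ⟨r, hr, h⟩
    rcases hwit K u u.2 v v.2 with ⟨z, z', hz, hz', hzz, h1, h2⟩ | h'
    · refine ⟨⟨z, hz⟩, h1, ?_⟩
      have e1 := hpp ⟨z, hz⟩
      have e2 : ((P ⟨z, hz⟩ : q.H) : M) = z' := by
        refine hGq.anti q le_rfl _ (P ⟨z, hz⟩).2 _ hz' ?_ ?_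
        · exact hleast z hz _ (P ⟨z, hz⟩).2 z' hz' (hP ⟨z, hz⟩) hzz.1 hzz.2.1
        · exact hleast z hz z' hz' _ (P ⟨z, hz⟩).2 hzz (hP ⟨z, hz⟩).1 (hP ⟨z, hz⟩).2.1
      rw [e1, e2]
      exact h2
    · exact absurd h (h' r hr)

end Pool.Agent.CN
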