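import Pool.Agent.Lib.MP_764a00_al.Stm

/-! Decided lattice ordered groups are sublattices of each other (S_G3). -/

namespace Pool.Agent.CN

theorem p_G3 : S_G3 := by
  intro M _ B lam R p q L L' hR hG hqp hL hL' hN
  -- positive parts agree
  have hpos : ∀ x : L.N, AddSubgroup.inclusion hN (x⁺) = (AddSubgroup.inclusion hN x)⁺ := by
    intro x
    obtain ⟨a1, a2, a3⟩ := hL.pos x
    have a1' := hR _ _ _ _ hqp a1
    have a2' := hR _ _ _ _ hqp a2
    obtain ⟨b1, b2, b3⟩ := hL'.pos (AddSubgroup.inclusion hN x)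
    have hx : ((AddSubgroup.inclusion hN x : L'.N) : M) = x := rfl
    rw [hx] at b2 b3
    apply le_antisymm
    · -- y ≤ y'
      obtain ⟨r, hr, hry⟩ := a3 q hqp (((AddSubgroup.inclusion hN x)⁺ : L'.N) : M)
        (by rw [← hL'.eq]; exact ((AddSubgroup.inclusion hN x)⁺).2) b1 b2
      rw [hL'.le]
      rcases hL'.dec (AddSubgroup.inclusion hN (x⁺)) ((AddSubgroup.inclusion hN x)⁺) with h | h
      · exact h
      · exact absurd hry (h r hr)
    · obtain ⟨r, hr, hry⟩ := b3 q le_rfl ((x⁺ : L.N) : M)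
        (by rw [← hL'.eq]; exact hN (x⁺).2) a1' a2'
      rw [hL'.le]
      rcases hL'.dec ((AddSubgroup.inclusion hN x)⁺) (AddSubgroup.inclusion hN (x⁺)) with h | h
      · exact h
      · exact absurd hry (h r hr)
  have hsup : ∀ (N : Type) [AddCommGroup N] [Lattice N] [IsOrderedAddMonoid N] (a b : N),
      a ⊔ b = b + (a - b)⁺ := by
    intro N _ _ _ a b
    rw [posPart_def, add_sup]
    congr 1
    · abel
    · rw [add_zero]
  have hinf : ∀ (N : Type) [AddCommGroup N] [Lattice N] [IsOrderedAddMonoid N] (a b : N),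
      a ⊓ b = a - (a - b)⁺ := by
    intro N _ _ _ a b
    have h1 := inf_add_sup a b
    rw [hsup N a b] at h1
    have h2 : a ⊓ b = a + b - (b + (a - b)⁺) := by rw [← h1]; abel
    rw [h2]
    abel
  refine ⟨⟨hN, ?_, ?_⟩, ?_⟩
  · intro a b
    rw [hsup L.N a b, hsup L'.N, map_add, hpos, map_sub]
  · intro a b
    rw [hinf L.N a b, hinf L'.N, map_sub, hpos, map_sub]
  · rintro K u v ⟨z, hz1, hz2⟩
    exact hL.wit K u v ⟨q, hqp, z, ((z⁺ : L'.N) : M), by rw [← hL'.eq]; exact z.2,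
      by rw [← hL'.eq]; exact (z⁺).2, hL'.pos z, hz1, hz2⟩

end Pool.Agent.CN
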