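import Pool.Agent.Lib.MP_764a00_al.Stm

/-! [764 GA] small filtrations. (helper21) -/

namespace Pool.Agent.CN

open Cardinal

theorem p_GA : S_GA := by
  classical
  intro A lam μ S hlam hmono hcofi hS
  have h0 : #S ≤ Cardinal.mk lam.ord.ToType := by rw [Cardinal.mk_ord_toType]; exact hS
  obtain ⟨j⟩ := (Cardinal.le_def _ _).1 h0
  let τ : S → Ordinal.{0} := fun x => Ordinal.typein (α := lam.ord.ToType) (· < ·) (j x)
  have hτinj : Function.Injective τ := by
    intro x y hxy
    exact j.injective ((Ordinal.typein_injective _) hxy)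
  have hτlt : ∀ x, τ x < lam.ord := by
    intro x
    have h1 := Ordinal.typein_lt_type (α := lam.ord.ToType) (· < ·) (j x)
    rwa [Ordinal.type_toType] at h1
  refine ⟨fun n => {x | ∃ h : x ∈ S, τ ⟨x, h⟩ < (μ n).ord}, ?_, ?_, ?_⟩
  · intro n m hnm x hx
    obtain ⟨h, hx⟩ := hx
    exact ⟨h, hx.trans_le (Cardinal.ord_le_ord.2 (hmono hnm))⟩
  · intro n
    let g : {x | ∃ h : x ∈ S, τ ⟨x, h⟩ < (μ n).ord} → Set.Iio (μ n).ord := fun x =>
      ⟨τ ⟨x.1, x.2.choose⟩, x.2.choose_spec⟩
    have hg : Function.Injective g := by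
      intro x y hxy
      have h1 : τ ⟨x.1, x.2.choose⟩ = τ ⟨y.1, y.2.choose⟩ := congrArg Subtype.val hxy
      have h2 := hτinj h1
      exact Subtype.ext (congrArg (fun z : S => (z : A)) h2)
    have h2 := Cardinal.lift_mk_le_lift_mk_of_injective hg
    rw [Cardinal.mk_Iio_ordinal, Cardinal.card_ord] at h2
    simpa using h2
  · ext x
    rw [Set.mem_iUnion]
    constructor
    · rintro ⟨n, h, _⟩
      exact h
    · intro hx
      have h1 := hτlt ⟨x, hx⟩
      rw [Cardinal.lt_ord] at h1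
      have h2 : Order.succ (τ ⟨x, hx⟩).card < lam := hlam.isSuccLimit.succ_lt h1
      obtain ⟨n, hn⟩ := hcofi _ h2
      refine ⟨n, hx, ?_⟩
      rw [Cardinal.lt_ord]
      exact (Order.lt_succ _).trans_le hn

end Pool.Agent.CN
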