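import Pool.Agent.Lib.MP_764a00_al.Stm

/-!
# MP_764a00_al : no condition forces an Archimedean lattice order
-/

namespace Pool.Agent.CN

open Cardinal

theorem gf_mono {M : Type} [AddCommGroup M] {B : Set M} {lam : Cardinal.{0}}
    {R : Cond M B lam → M → M → Prop} {p q : Cond M B lam} (h : Gd R p) (hq : q ≤ p) : Gd R q where
  rfl := fun r hr => h.rfl r (hr.trans hq)
  trans := fun r hr => h.trans r (hr.trans hq)
  anti := fun r hr => h.anti r (hr.trans hq)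
  add := fun r hr => h.add r (hr.trans hq)
  pos := fun r hr => h.pos r (hr.trans hq)
  arch := fun r hr => h.arch r (hr.trans hq)

theorem p_GF (g2 : S_G2) (g3 : S_G3) (se : S_SE) (kt : S_KT) : S_GF := by
  intro M _ B lam hM hsl hlam hcof hB hdens R hmono p hGd
  obtain ⟨q₁, hq₁, L₁, hD₁⟩ := g2 M B lam R p hlam.le hmono hGd
  have hG₁ : Gd R q₁ := gf_mono hGd hq₁
  have hpure₁ : L₁.Pure := by
    intro z hz
    rw [hD₁.eq] at hz ⊢
    exact q₁.pure z hz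
  have hBL : B ⊆ (L₁.N : Set M) := by
    rw [hD₁.eq]
    exact q₁.base
  have hdense₁ : L₁.Dense := by
    intro z K
    obtain ⟨u, hu, hu'⟩ := hdens z K
    exact ⟨⟨u, hBL hu⟩, hu'⟩
  have hcard₁ : #L₁.N = lam := by
    apply le_antisymm
    · rw [hD₁.eq]
      exact q₁.cardH
    · rw [← hB]
      exact Cardinal.mk_le_mk_of_subset hBL
  obtain ⟨q₂, hq₂, I, X, h, a, x, hBD, hx, hT⟩ := se M B lam hM hsl hlam hcof hdens q₁ L₁
    hD₁.eq.le hpure₁ hBL hD₁.arch hcard₁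
  have hG₂ : Gd R q₂ := gf_mono hG₁ hq₂
  obtain ⟨q₃, hq₃, L₃, hD₃⟩ := g2 M B lam R q₂ hlam.le hmono hG₂
  have hle : L₁.N ≤ L₃.N := by
    rw [hD₁.eq, hD₃.eq]
    exact hq₂.1.trans hq₃.1
  obtain ⟨hsub, hcls⟩ := g3 M B lam R q₁ q₃ L₁ L₃ hmono hG₁ (hq₃.trans hq₂) hD₁ hD₃ hle
  have hpure₃ : L₃.Pure := by
    intro z hz
    rw [hD₃.eq] at hz ⊢
    exact q₃.pure z hz
  refine kt M L₁ L₃ I X h a x hM hpure₁ hdense₁ hBD hsub hcls hpure₃ hD₃.arch ?_ ?_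
  · intro l
    rw [hD₃.eq]
    exact hq₃.1 (hx l)
  · intro z hz y hy hyT
    rw [hD₃.eq] at hy
    exact (hT z hz).2 y (hq₃.2.2 (L₁, z) (hT z hz).1 y hy hyT) hyT

end Pool.Agent.CN
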