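import Pool.Agent.Lib.MP_764a00_al.Stm

set_option autoImplicit false

namespace Pool.Agent.CN

theorem p_K0 : S_K0 := by
  intro M _ L L' hD hC z K
  obtain ⟨u, hu⟩ := hD (z : M) K
  obtain ⟨v, hv⟩ := hD ((z⁺ : L'.N) : M) K
  obtain ⟨z', h1, h2⟩ := hC K u v ⟨z, hu, hv⟩
  refine ⟨z', ?_, ?_⟩
  · have := (dv M K).sub_mem h1 hu
    rwa [sub_sub_sub_cancel_right] at this
  · have := (dv M K).sub_mem h2 hv
    rwa [sub_sub_sub_cancel_right] at this

end Pool.Agent.CN
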