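import Pool.Agent.Lib.MP_764a00_al.Stm

/-!
# MP_764a00_al : patching
-/

namespace Pool.Agent.CN

theorem p_K1 (hp : S_PT) (h3 : S_U3) : S_K1 := by
  intro M _ L X hM hP hD hX g hg w hw K
  refine hp M L hM hP hD |w| g K (abs_nonneg w) ?_
  intro F hF
  obtain ⟨hadd, -, -, -, -⟩ := h3 L.N F
  have hOn : On L X F := by
    by_contra hno
    have hno' : ∀ b : L.N, (b : M) ∈ X → |b| ∉ F.F := fun b hb h => hno ⟨b, hb, h⟩
    -- the subgroup of elements outside `F`
    let S : AddSubgroup L.N :=
      { carrier := {c | |c| ∉ F.F}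
        add_mem' := fun {a b} ha hb => hadd a b ha hb
        zero_mem' := by
          show |(0 : L.N)| ∉ F.F
          rw [abs_zero]; exact F.zero
        neg_mem' := by
          intro a ha
          show |(-a : L.N)| ∉ F.F
          rw [abs_neg]; exact ha }
    have hcl : AddSubgroup.closure X ≤ S.map L.N.subtype := by
      rw [AddSubgroup.closure_le]
      intro b hb
      exact ⟨⟨b, hX hb⟩, hno' ⟨b, hX hb⟩ hb, rfl⟩
    obtain ⟨w', hw', hww⟩ := hcl hw
    have : w' = w := Subtype.ext hww
    rw [this] at hw'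
    exact hw' hF
  exact hg F hOn K

end Pool.Agent.CN
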