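import Pool.Agent.Lib.MP_764a00_al.Stm

/-! The sign of `c + ν` is constant on the support of `c` (S_K2). -/

namespace Pool.Agent.CN

section

variable {N : Type} [AddCommGroup N] [Lattice N]
variable {Λ : Type} [AddCommGroup Λ] [LinearOrder Λ]

private theorem k2_mono (π : N →+ Λ) (hs : ∀ x y, π (x ⊔ y) = π x ⊔ π y) {a b : N} (h : a ≤ b) :
    π a ≤ π b := by
  have h1 : a ⊔ b = b := sup_eq_right.2 h
  have h2 : π a ⊔ π b = π b := by rw [← hs, h1]
  exact sup_eq_right.1 h2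

private theorem k2_abs (π : N →+ Λ) (hs : ∀ x y, π (x ⊔ y) = π x ⊔ π y) (a : N) :
    π |a| = |π a| := by
  unfold abs
  rw [hs, map_neg]

private theorem k2_pos (π : N →+ Λ) (hs : ∀ x y, π (x ⊔ y) = π x ⊔ π y) (a : N) :
    π (a⁺) = (π a)⁺ := by
  rw [posPart_def, posPart_def, hs, map_zero]

private theorem k2_negp (π : N →+ Λ) (hs : ∀ x y, π (x ⊔ y) = π x ⊔ π y) (a : N) :
    π (a⁻) = (π a)⁻ := by
  rw [negPart_def, negPart_def, hs, map_zero, map_neg]

end

private theorem k2_zs {A : Type} [AddCommGroup A] (K : ℕ) (a : A) :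
    (5 : ℤ) ^ K • a = (5 ^ K : ℕ) • a := by
  rw [← natCast_zsmul]
  congr 1

private theorem k2_D1 (ht : S_TR) (N : Type) [AddCommGroup N] [Lattice N] [IsOrderedAddMonoid N]
    (hd : ∀ z : N, (∀ K : ℕ, ∃ e : N, z = (5 : ℤ) ^ K • e) → z = 0) (c z : N) (hz : Dc c z)
    (h0 : 0 ≤ z) (h1 : z ≤ |c|) : z = 0 := by
  apply hd
  intro K
  obtain ⟨r, e, hr, he⟩ := hz K
  refine ⟨e⁺ ⊓ |c|, ?_⟩
  have key : ∀ (Λ : Type) [AddCommGroup Λ] [LinearOrder Λ] [IsOrderedAddMonoid Λ] (π : N →+ Λ),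
      (∀ x y, π (x ⊔ y) = π x ⊔ π y) → (∀ x y, π (x ⊓ y) = π x ⊓ π y) →
      π z = π ((5 : ℤ) ^ K • (e⁺ ⊓ |c|)) := by
    intro Λ _ _ _ π hs hi
    have a1 : |π r| ⊓ |π c| = 0 := by
      rw [← k2_abs π hs, ← k2_abs π hs, ← hi, hr, map_zero]
    have a2 : 0 ≤ π z := by
      have := k2_mono π hs h0
      rwa [map_zero] at this
    have a3 : π z ≤ |π c| := by
      rw [← k2_abs π hs]; exact k2_mono π hs h1
    have a4 : π z = π r + (5 ^ K : ℕ) • π e := by
      rw [he, map_add, map_zsmul, k2_zs]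
    rw [map_zsmul, hi, k2_pos π hs, k2_abs π hs, k2_zs]
    rcases le_total |π r| |π c| with h | h
    · rw [inf_eq_left.2 h] at a1
      have a5 : π r = 0 := abs_eq_zero.1 a1
      rw [a5, zero_add] at a4
      have a6 : 0 ≤ π e := by
        by_contra hne
        push Not at hne
        have : (5 ^ K : ℕ) • (-π e) > 0 := nsmul_pos (neg_pos.2 hne) (by positivity)
        rw [smul_neg, ← a4] at this
        exact absurd (neg_pos.1 this) (not_lt.2 a2)
      have a7 : π e ≤ π z := by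
        rw [a4]
        calc π e = 1 • π e := (one_smul _ _).symm
          _ ≤ (5 ^ K : ℕ) • π e := nsmul_le_nsmul_left a6 (Nat.one_le_pow _ _ (by norm_num))
      rw [posPart_eq_self.2 a6, inf_eq_left.2 (a7.trans a3), a4]
    · rw [inf_eq_right.2 h] at a1
      rw [a1] at a3
      rw [a1, inf_eq_right.2 (posPart_nonneg _), smul_zero]
      exact le_antisymm a3 a2
  exact le_antisymm (ht N _ _ fun Λ _ _ _ π hs hi => (key Λ π hs hi).le)
    (ht N _ _ fun Λ _ _ _ π hs hi => (key Λ π hs hi).ge)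

private theorem k2_perp_le {N : Type} [AddCommGroup N] [Lattice N] [IsOrderedAddMonoid N]
    {a b c : N} (h : |a| ≤ |b|) (hb : |b| ⊓ |c| = 0) : |a| ⊓ |c| = 0 :=
  le_antisymm (hb ▸ inf_le_inf_right _ h) (le_inf (abs_nonneg _) (abs_nonneg _))

private theorem k2_perp_add (ht : S_TR) {N : Type} [AddCommGroup N] [Lattice N]
    [IsOrderedAddMonoid N]
    {a b c : N} (ha : |a| ⊓ |c| = 0) (hb : |b| ⊓ |c| = 0) : |a + b| ⊓ |c| = 0 := by
  refine le_antisymm (ht N _ _ fun Λ _ _ _ π hs hi => ?_) (le_inf (abs_nonneg _) (abs_nonneg _))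
  have a1 : |π a| ⊓ |π c| = 0 := by
    rw [← k2_abs π hs, ← k2_abs π hs, ← hi, ha, map_zero]
  have a2 : |π b| ⊓ |π c| = 0 := by
    rw [← k2_abs π hs, ← k2_abs π hs, ← hi, hb, map_zero]
  rw [hi, k2_abs π hs, k2_abs π hs, map_add, map_zero]
  rcases le_total |π c| 0 with h | h
  · exact inf_le_right.trans h
  rcases le_total |π a| |π c| with h1 | h1
  · rw [inf_eq_left.2 h1] at a1
    rw [abs_eq_zero.1 a1, zero_add, a2]
  · rw [inf_eq_right.2 h1] at a1
    rw [a1]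
    exact inf_le_right

private theorem k2_D0 (ht : S_TR) {N : Type} [AddCommGroup N] [Lattice N] [IsOrderedAddMonoid N]
    {c g : N} (hg : Dc c g) : Dc c g⁺ := by
  intro K
  obtain ⟨r, e, hr, he⟩ := hg K
  refine ⟨g⁺ - (5 : ℤ) ^ K • e⁺, e⁺, ?_, by abel⟩
  have h1 : (5 : ℤ) ^ K • e⁺ = ((5 : ℤ) ^ K • e)⁺ := by
    have key : ∀ (Λ : Type) [AddCommGroup Λ] [LinearOrder Λ] [IsOrderedAddMonoid Λ] (π : N →+ Λ),
      (∀ x y, π (x ⊔ y) = π x ⊔ π y) → (∀ x y, π (x ⊓ y) = π x ⊓ π y) →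
      π ((5 : ℤ) ^ K • e⁺) = π (((5 : ℤ) ^ K • e)⁺) := by
      intro Λ _ _ _ π hs hi
      rw [map_zsmul, k2_pos π hs, k2_pos π hs, map_zsmul, k2_zs, k2_zs]
      rcases le_total 0 (π e) with h | h
      · rw [posPart_eq_self.2 h, posPart_eq_self.2 (nsmul_nonneg h _)]
      · rw [posPart_eq_zero.2 h, posPart_eq_zero.2 (nsmul_nonpos h _), smul_zero]
    exact le_antisymm (ht N _ _ fun Λ _ _ _ π hs hi => (key Λ π hs hi).le)
      (ht N _ _ fun Λ _ _ _ π hs hi => (key Λ π hs hi).ge)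
  rw [h1]
  apply k2_perp_le _ hr
  have h2 : r = g - (5 : ℤ) ^ K • e := by rw [he]; abel
  rw [h2, posPart_def, posPart_def]
  exact abs_sup_sub_sup_le_abs _ _ _

private theorem k2_Dneg {N : Type} [AddCommGroup N] [Lattice N] [IsOrderedAddMonoid N]
    {c g : N} (hg : Dc c g) : Dc c (-g) := by
  intro K
  obtain ⟨r, e, hr, he⟩ := hg K
  refine ⟨-r, -e, by rw [abs_neg]; exact hr, ?_⟩
  rw [he, smul_neg]
  abel

private theorem k2_Dadd (ht : S_TR) {N : Type} [AddCommGroup N] [Lattice N] [IsOrderedAddMonoid N]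
    {c g g' : N} (hg : Dc c g) (hg' : Dc c g') : Dc c (g + g') := by
  intro K
  obtain ⟨r, e, hr, he⟩ := hg K
  obtain ⟨r', e', hr', he'⟩ := hg' K
  refine ⟨r + r', e + e', k2_perp_add ht hr hr', ?_⟩
  rw [he, he', smul_add]
  abel

theorem p_K2 (ht : S_TR) : S_K2 := by
  intro N _ _ _ hd c ν hν hx
  have hνm : Dc c ν⁻ := by
    rw [← posPart_neg]
    exact k2_D0 ht (k2_Dneg hν)
  -- x⁻ ≤ ν⁻
  have e1 : ((c + ν)⁻ - ν⁻)⁺ = 0 := by
    apply k2_D1 ht N hd c
    · apply k2_D0 ht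
      rw [sub_eq_add_neg]
      exact k2_Dadd ht hx (k2_Dneg hνm)
    · exact posPart_nonneg _
    · rw [posPart_def]
      refine sup_le ?_ (abs_nonneg _)
      rw [sub_le_iff_le_add, negPart_def]
      refine sup_le ?_ (add_nonneg (abs_nonneg _) (negPart_nonneg _))
      rw [neg_add]
      exact add_le_add (neg_le_abs _) (neg_le_negPart _)
  have e2 : (ν⁻ - (c + ν)⁻)⁺ = 0 := by
    apply k2_D1 ht N hd c
    · apply k2_D0 ht
      rw [sub_eq_add_neg]
      exact k2_Dadd ht hνm (k2_Dneg hx)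
    · exact posPart_nonneg _
    · rw [posPart_def]
      refine sup_le ?_ (abs_nonneg _)
      rw [sub_le_iff_le_add, negPart_def]
      refine sup_le ?_ (add_nonneg (abs_nonneg _) (negPart_nonneg _))
      have : -ν = c + -(c + ν) := by abel
      rw [this]
      exact add_le_add (le_abs_self _) (neg_le_negPart _)
  have e3 : (c + ν)⁻ = ν⁻ := by
    apply le_antisymm
    · exact sub_nonpos.1 (posPart_eq_zero.1 e1)
    · exact sub_nonpos.1 (posPart_eq_zero.1 e2)
  refine le_antisymm (ht N _ _ fun Λ _ _ _ π hs hi => ?_) (le_inf (abs_nonneg _) (negPart_nonneg _))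
  have e4 : (π c + π ν)⁻ = (π ν)⁻ := by
    rw [← map_add, ← k2_negp π hs, ← k2_negp π hs, e3]
  rw [hi, k2_abs π hs, k2_negp π hs, map_zero, map_add]
  rcases le_total 0 (π c + π ν) with h | h
  · rw [negPart_eq_zero.2 h]
    exact inf_le_right
  · rw [negPart_eq_neg.2 h] at e4
    rcases le_total 0 (π ν) with h5 | h5
    · rw [negPart_eq_zero.2 h5] at e4
      have h6 : π c + π ν = 0 := neg_eq_zero.1 e4
      rw [h6, negPart_zero]
      exact inf_le_right
    · rw [negPart_eq_neg.2 h5] at e4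
      have h6 : π c = 0 := by
        have := neg_injective e4
        exact add_eq_right.1 this
      rw [h6, abs_zero]
      exact inf_le_left

end Pool.Agent.CN
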