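import Pool.Agent.Lib.MP_764a00_al.Stm

/-! An element which is locally divisible or disjoint (S_K3). -/

namespace Pool.Agent.CN

section

variable {N : Type} [AddCommGroup N] [Lattice N]
variable {Λ : Type} [AddCommGroup Λ] [LinearOrder Λ]

private theorem k3_abs (π : N →+ Λ) (hs : ∀ x y, π (x ⊔ y) = π x ⊔ π y) (a : N) :
    π |a| = |π a| := by
  unfold abs
  rw [hs, map_neg]

end

private theorem k3_zs {A : Type} [AddCommGroup A] (K : ℕ) (a : A) :
    (5 : ℤ) ^ K • a = (5 ^ K : ℕ) • a := by
  rw [← natCast_zsmul]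
  congr 1

theorem p_K3 (ht : S_TR) : S_K3 := by
  intro N _ _ _ hd c x hν hx
  have h0 : |c| = 0 := by
    apply hd
    intro K
    obtain ⟨r, e, hr, he⟩ := hν K
    refine ⟨|e| ⊓ |c|, ?_⟩
    have key : ∀ (Λ : Type) [AddCommGroup Λ] [LinearOrder Λ] [IsOrderedAddMonoid Λ] (π : N →+ Λ),
        (∀ x y, π (x ⊔ y) = π x ⊔ π y) → (∀ x y, π (x ⊓ y) = π x ⊓ π y) →
        π |c| = π ((5 : ℤ) ^ K • (|e| ⊓ |c|)) := by
      intro Λ _ _ _ π hs hi
      have a1 : |π r| ⊓ |π c| = 0 := by
        rw [← k3_abs π hs, ← k3_abs π hs, ← hi, hr, map_zero]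
      have a2 : |π x| ⊓ |π c| = 0 := by
        rw [← k3_abs π hs, ← k3_abs π hs, ← hi, hx, map_zero]
      have a4 : π x - π c = π r + (5 ^ K : ℕ) • π e := by
        rw [← map_sub, he, map_add, map_zsmul, k3_zs]
      rw [map_zsmul, hi, k3_abs π hs, k3_abs π hs, k3_zs]
      by_cases hc : π c = 0
      · rw [hc, abs_zero, inf_eq_right.2 (abs_nonneg _), smul_zero]
      · have hc' : 0 < |π c| := abs_pos.2 hc
        have b1 : π r = 0 := by
          rcases le_total |π r| |π c| with h | h
          · rw [inf_eq_left.2 h] at a1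
            exact abs_eq_zero.1 a1
          · rw [inf_eq_right.2 h] at a1
            exact absurd a1 hc'.ne'
        have b2 : π x = 0 := by
          rcases le_total |π x| |π c| with h | h
          · rw [inf_eq_left.2 h] at a2
            exact abs_eq_zero.1 a2
          · rw [inf_eq_right.2 h] at a2
            exact absurd a2 hc'.ne'
        rw [b1, b2, zero_add, zero_sub] at a4
        have b3 : |π c| = (5 ^ K : ℕ) • |π e| := by
          rw [← abs_neg, a4, abs_nsmul]
        have b4 : |π e| ≤ |π c| := by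
          rw [b3]
          calc |π e| = 1 • |π e| := (one_smul _ _).symm
            _ ≤ (5 ^ K : ℕ) • |π e| :=
              nsmul_le_nsmul_left (abs_nonneg _) (Nat.one_le_pow _ _ (by norm_num))
        rw [inf_eq_left.2 b4, b3]
    exact le_antisymm (ht N _ _ fun Λ _ _ _ π hs hi => (key Λ π hs hi).le)
      (ht N _ _ fun Λ _ _ _ π hs hi => (key Λ π hs hi).ge)
  apply le_antisymm
  · exact (le_abs_self c).trans h0.le
  · have := (neg_le_abs c).trans h0.le
    exact neg_nonpos.1 this

end Pool.Agent.CN
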