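import Pool.Agent.Lib.MP_764a00_al.Stm

/-! Convex or concave sequences (S_KC). -/

namespace Pool.Agent.CN

open Cardinal Ordinal

private theorem kc_add_inf {N : Type} [AddCommGroup N] [Lattice N] [IsOrderedAddMonoid N]
    {a b z : N} (ha : 0 ≤ a) (hb : 0 ≤ b) (hz : 0 ≤ z) : (a + b) ⊓ z ≤ a ⊓ z + b ⊓ z := by
  rw [inf_add, add_inf, add_inf]
  refine le_inf (le_inf inf_le_left (inf_le_right.trans ?_)) (le_inf (inf_le_right.trans ?_)
    (inf_le_right.trans ?_))
  · exact le_add_of_nonneg_left ha
  · exact le_add_of_nonneg_right hb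
  · exact le_add_of_nonneg_left hz

private theorem kc_fin {N : Type} [AddCommGroup N] [Lattice N] [IsOrderedAddMonoid N]
    (hA : Ar N) {x a b : N} (h1 : x⁻ ⊓ |a| = 0) (h2 : ∀ m : ℕ, 2 ^ m • (x⁺ ⊓ |a|) ≤ b) :
    |x| ⊓ |a| = 0 := by
  have h0 : 0 ≤ x⁺ ⊓ |a| := le_inf (posPart_nonneg _) (abs_nonneg _)
  have h3 : x⁺ ⊓ |a| ≤ 0 := by
    apply hA _ b
    intro n
    exact (nsmul_le_nsmul_left h0 Nat.lt_two_pow_self.le).trans (h2 n)
  have h4 : x⁺ ⊓ |a| = 0 := le_antisymm h3 h0
  refine le_antisymm ?_ (le_inf (abs_nonneg _) (abs_nonneg _))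
  rw [← posPart_add_negPart x]
  refine (kc_add_inf (posPart_nonneg _) (negPart_nonneg _) (abs_nonneg _)).trans ?_
  rw [h4, h1, add_zero]

theorem p_KC (hf : S_FC) : S_KC := by
  intro N _ _ _ hA y a hp hc
  have hω : ω < (Order.succ ℵ₀).ord := by
    rw [← ord_aleph0]
    exact ord_lt_ord.2 (Order.lt_succ _)
  have hω1 : Order.succ ω < (Order.succ ℵ₀).ord :=
    (isSuccLimit_ord (Order.le_succ _)).succ_lt hω
  rcases hc with hc | hc
  · -- convex
    refine ⟨((0 : ℕ) : Ordinal), ((1 : ℕ) : Ordinal), by exact_mod_cast Nat.zero_lt_one,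
      (natCast_lt_omega0 1).trans hω, ?_⟩
    have h01 : ((0 : ℕ) : Ordinal) < ((1 : ℕ) : Ordinal) := by exact_mod_cast Nat.zero_lt_one
    apply kc_fin hA (hp _ _ h01 ((natCast_lt_omega0 1).trans hω))
      (b := |y ω - y ((1 : ℕ) : Ordinal)|)
    intro m
    let s : ℕ → Ordinal := fun i => if i < m + 3 then (i : Ordinal) else ω
    have hs : ∀ i j, i < j → j ≤ m + 3 → s i < s j := by
      intro i j hij hj
      simp only [s]
      rw [if_pos (by omega : i < m + 3)]
      split_ifs with h
      · exact_mod_cast hij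
      · exact natCast_lt_omega0 i
    have hsb : ∀ i, s i < (Order.succ ℵ₀).ord := by
      intro i
      simp only [s]
      split_ifs
      · exact (natCast_lt_omega0 i).trans hω
      · exact hω
    have h := hf N (fun i => y (s i)) (fun i => a (s i)) (m + 3) (by omega)
      (fun i j hij hj => hp _ _ (hs i j hij hj) (hsb j))
      (fun i j k hij hjk hk => hc _ _ _ (hs i j hij (by omega)) (hs j k hjk hk) (hsb k))
    have e0 : s 0 = ((0 : ℕ) : Ordinal) := by simp only [s]; rw [if_pos (by omega)]
    have e1 : s 1 = ((1 : ℕ) : Ordinal) := by simp only [s]; rw [if_pos (by omega)]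
    have em : s (m + 3) = ω := by simp only [s]; rw [if_neg (by omega)]
    simp only [e0, e1, em, Nat.add_sub_cancel] at h
    exact h
  · -- concave
    refine ⟨ω, Order.succ ω, Order.lt_succ _, hω1, ?_⟩
    apply kc_fin hA (hp _ _ (Order.lt_succ _) hω1) (b := |y ω - y ((0 : ℕ) : Ordinal)|)
    intro m
    let s : ℕ → Ordinal := fun i => if i = 0 then Order.succ ω else if i = 1 then ω else
      ((m + 3 - i : ℕ) : Ordinal)
    have hs : ∀ i j, i < j → j ≤ m + 3 → s j < s i := by
      intro i j hij hj
      simp only [s]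
      rw [if_neg (by omega : ¬ j = 0)]
      by_cases h0 : i = 0
      · rw [if_pos h0]
        split_ifs
        · exact Order.lt_succ _
        · exact (natCast_lt_omega0 _).trans (Order.lt_succ _)
      · rw [if_neg h0, if_neg (by omega : ¬ j = 1)]
        split_ifs
        · exact natCast_lt_omega0 _
        · have : m + 3 - j < m + 3 - i := by omega
          exact_mod_cast this
    have hsb : ∀ i, s i < (Order.succ ℵ₀).ord := by
      intro i
      simp only [s]
      split_ifs
      · exact hω1
      · exact hω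
      · exact (natCast_lt_omega0 _).trans hω
    have h := hf N (fun i => - y (s i)) (fun i => - a (s i)) (m + 3) (by omega)
      (fun i j hij hj => by
        have := hp _ _ (hs i j hij hj) (hsb i)
        have e1 : - y (s j) - - y (s i) = y (s i) - y (s j) := by abel
        have e2 : - a (s j) - - a (s i) = a (s i) - a (s j) := by abel
        simp only [e1, e2]
        exact this)
      (fun i j k hij hjk hk => by
        have := hc _ _ _ (hs j k hjk hk) (hs i j hij (by omega)) (hsb i)
        have e1 : - y (s i) - (2 : ℤ) • - y (s j) + - y (s k) =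
          -(y (s k) - (2 : ℤ) • y (s j) + y (s i)) := by rw [smul_neg]; abel
        have e2 : - a (s i) - (2 : ℤ) • - a (s j) + - a (s k) =
          -(a (s k) - (2 : ℤ) • a (s j) + a (s i)) := by rw [smul_neg]; abel
        simp only [e1, e2]
        rw [negPart_neg, abs_neg]
        exact this)
    have e0 : s 0 = Order.succ ω := if_pos rfl
    have e1 : s 1 = ω := by
      change (if (1 : ℕ) = 0 then _ else if (1 : ℕ) = 1 then _ else _) = _
      rw [if_neg (by omega), if_pos rfl]
    have em : s (m + 3) = ((0 : ℕ) : Ordinal) := by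
      simp only [s]; rw [if_neg (by omega), if_neg (by omega), Nat.sub_self]
    simp only [e0, e1, em, Nat.add_sub_cancel] at h
    have f1 : - y ω - - y (Order.succ ω) = y (Order.succ ω) - y ω := by abel
    have f2 : - a ω - - a (Order.succ ω) = a (Order.succ ω) - a ω := by abel
    have f3 : - y ((0 : ℕ) : Ordinal) - - y ω = y ω - y ((0 : ℕ) : Ordinal) := by abel
    rw [f1, f2, f3] at h
    exact h

end Pool.Agent.CN
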