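import Pool.Agent.Lib.MP_764a00_al.Stm

/-!
# The contradiction (S_KT)
-/

namespace Pool.Agent.CN

open Cardinal

section

variable {N : Type} [AddCommGroup N] [Lattice N] [IsOrderedAddMonoid N]

theorem kt_inf_add (a b c : N) (ha : 0 ≤ a) (hb : 0 ≤ b) (hc : 0 ≤ c) :
    a ⊓ (b + c) ≤ a ⊓ b + a ⊓ c := by
  rw [inf_add, add_inf, add_inf]
  refine le_inf (le_inf ?_ ?_) (le_inf ?_ ?_)
  · exact inf_le_left.trans (le_add_of_nonneg_right ha)
  · exact inf_le_left.trans (le_add_of_nonneg_right hc)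
  · exact inf_le_left.trans (le_add_of_nonneg_left hb)
  · exact inf_le_right

/-- the elements disjoint from `a` -/
def kt_polar (a : N) : AddSubgroup N where
  carrier := {b | |a| ⊓ |b| = 0}
  add_mem' := by
    intro b c hb hc
    simp only [Set.mem_ofPred_eq] at hb hc ⊢
    apply le_antisymm
    · calc |a| ⊓ |b + c| ≤ |a| ⊓ (|b| + |c|) := inf_le_inf_left _ (abs_add_le b c)
        _ ≤ |a| ⊓ |b| + |a| ⊓ |c| := kt_inf_add _ _ _ (abs_nonneg a) (abs_nonneg b) (abs_nonneg c)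
        _ = 0 := by rw [hb, hc, add_zero]
    · exact le_inf (abs_nonneg a) (abs_nonneg _)
  zero_mem' := by
    simp only [Set.mem_ofPred_eq, abs_zero]
    exact inf_eq_right.2 (abs_nonneg a)
  neg_mem' := by
    intro b hb
    simp only [Set.mem_ofPred_eq, abs_neg] at hb ⊢
    exact hb

theorem kt_mem_polar {a b : N} : b ∈ kt_polar a ↔ |a| ⊓ |b| = 0 := Iff.rfl

theorem kt_smul_right {a b : N} (h : |a| ⊓ |b| = 0) (m : ℤ) : |a| ⊓ |m • b| = 0 :=
  (kt_polar a).zsmul_mem h m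

theorem kt_smul_left {a b : N} (h : |a| ⊓ |b| = 0) (m : ℤ) : |m • a| ⊓ |b| = 0 := by
  rw [inf_comm] at h ⊢
  exact kt_smul_right h m

theorem kt_abs_nsmul (d : N) (m : ℕ) (hm : 1 ≤ m) : |d| ≤ |(m : ℤ) • d| := by
  have hd : |d| = d⁺ + d⁻ := (posPart_add_negPart d).symm
  have hdis : |d⁺| ⊓ |d⁻| = 0 := by
    rw [abs_of_nonneg (posPart_nonneg d), abs_of_nonneg (negPart_nonneg d)]
    exact posPart_inf_negPart_eq_zero d
  have hdis2 : |(m : ℤ) • d⁺| ⊓ |(m : ℤ) • d⁻| = 0 := kt_smul_right (kt_smul_left hdis m) m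
  have hp : 0 ≤ (m : ℤ) • d⁺ := by
    rw [natCast_zsmul]; exact nsmul_nonneg (posPart_nonneg d) m
  have hq : 0 ≤ (m : ℤ) • d⁻ := by
    rw [natCast_zsmul]; exact nsmul_nonneg (negPart_nonneg d) m
  rw [abs_of_nonneg hp, abs_of_nonneg hq] at hdis2
  have h1 : |(m : ℤ) • d| = (m : ℤ) • d⁺ + (m : ℤ) • d⁻ := by
    have h2 : (m : ℤ) • d = (m : ℤ) • d⁺ - (m : ℤ) • d⁻ := by
      rw [← smul_sub, posPart_sub_negPart]
    rw [h2, abs_sub_comm, ← sup_sub_inf_eq_abs_sub, hdis2, sub_zero, ← inf_add_sup ((m : ℤ) • d⁺),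
      hdis2, zero_add]
  rw [h1, hd, natCast_zsmul, natCast_zsmul]
  refine add_le_add ?_ ?_
  · calc d⁺ = 1 • d⁺ := (one_nsmul _).symm
      _ ≤ m • d⁺ := nsmul_le_nsmul_left (posPart_nonneg d) hm
  · calc d⁻ = 1 • d⁻ := (one_nsmul _).symm
      _ ≤ m • d⁻ := nsmul_le_nsmul_left (negPart_nonneg d) hm

theorem kt_of_smul {d g : N} (hg : 0 ≤ g) (n : ℕ) (h : |(5 : ℤ) ^ n • d| ⊓ g = 0) :
    g ⊓ |d| = 0 := by
  have h1 : |d| ≤ |(5 : ℤ) ^ n • d| := by
    have := kt_abs_nsmul d (5 ^ n) (Nat.one_le_pow _ _ (by norm_num))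
    push_cast at this
    exact this
  apply le_antisymm
  · rw [← h, inf_comm]
    exact inf_le_inf_right _ h1
  · exact le_inf hg (abs_nonneg d)

end

section

variable {M : Type} [AddCommGroup M]

/-- elements of `M` which come from elements of `L` disjoint from `b` -/
def kt_P (L : LG M) (b : L.N) : AddSubgroup M := (kt_polar b).map L.N.subtype

theorem kt_mem_P {L : LG M} {b u : L.N} : (u : M) ∈ kt_P L b ↔ |b| ⊓ |u| = 0 := by
  unfold kt_P
  rw [AddSubgroup.mem_map]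
  constructor
  · rintro ⟨v, hv, hvu⟩
    have : v = u := Subtype.ext hvu
    rw [← this]
    exact hv
  · intro h
    exact ⟨u, h, rfl⟩

theorem kt_closure {L : LG M} {X : ℕ → Set M} (hX : ∀ n, X n ⊆ L.N) (ho : Orth L X)
    {i n : ℕ} (hin : i ≠ n) (u v : L.N) (hu : (u : M) ∈ AddSubgroup.closure (X i))
    (hv : (v : M) ∈ AddSubgroup.closure (X n)) : |u| ⊓ |v| = 0 := by
  have h1 : ∀ b : L.N, (b : M) ∈ X n → |b| ⊓ |u| = 0 := by
    intro b hb
    have hle : AddSubgroup.closure (X i) ≤ kt_P L b := by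
      rw [AddSubgroup.closure_le]
      intro w hw
      have : ((⟨w, hX i hw⟩ : L.N) : M) ∈ kt_P L b := by
        rw [kt_mem_P]
        exact ho n i (Ne.symm hin) b ⟨w, hX i hw⟩ hb hw
      exact this
    exact kt_mem_P.1 (hle hu)
  have hle : AddSubgroup.closure (X n) ≤ kt_P L u := by
    rw [AddSubgroup.closure_le]
    intro w hw
    have : ((⟨w, hX n hw⟩ : L.N) : M) ∈ kt_P L u := by
      rw [kt_mem_P, inf_comm]
      exact h1 ⟨w, hX n hw⟩ hw
    exact this
  exact kt_mem_P.1 (hle hv)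

theorem kt_closure_le {L : LG M} {X : ℕ → Set M} (hX : ∀ n, X n ⊆ L.N) (n : ℕ) {u : M}
    (hu : u ∈ AddSubgroup.closure (X n)) : u ∈ L.N :=
  (AddSubgroup.closure_le L.N).2 (hX n) hu

theorem kt_pure {L : LG M} (hL : L.Pure) (K : ℕ) {e : M} (h : (5 : ℤ) ^ K • e ∈ L.N) :
    e ∈ L.N := by
  induction K with
  | zero => simpa using h
  | succ K ih =>
    apply ih
    apply hL
    rwa [smul_smul, mul_comm, ← pow_succ]

theorem kt_div {L : LG M} (hM : Amb M) (z : L.N) (h : ∀ K : ℕ, ∃ e : L.N, z = (5 : ℤ) ^ K • e) :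
    z = 0 := by
  apply Subtype.ext
  apply hM.haus
  intro K
  obtain ⟨e, he⟩ := h K
  exact ⟨e, by rw [he]; rfl⟩

/-- divisibility modulo a polar, from approximations in the sublattice -/
theorem kt_dc {L L' : LG M} (hs : L.Sub L') (hp : L'.Pure) (c : L.N) (c' g : L'.N)
    (hc : (c' : M) = c) (h : ∀ K, ∃ r : L.N, |r| ⊓ |c| = 0 ∧ (g : M) - r ∈ dv M K) : Dc c' g := by
  obtain ⟨hle, hsup, hinf⟩ := hs
  intro K
  obtain ⟨r, hr, e, he⟩ := h K
  have hcc : c' = AddSubgroup.inclusion hle c := Subtype.ext hc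
  have habs : ∀ u : L.N, AddSubgroup.inclusion hle |u| = |AddSubgroup.inclusion hle u| := by
    intro u
    show AddSubgroup.inclusion hle (u ⊔ -u) = _
    rw [hsup, map_neg]
    rfl
  have heN : e ∈ L'.N := by
    apply kt_pure hp K
    rw [← he]
    exact L'.N.sub_mem g.2 (hle r.2)
  refine ⟨AddSubgroup.inclusion hle r, ⟨e, heN⟩, ?_, ?_⟩
  · rw [hcc, ← habs, ← habs, ← hinf, hr, map_zero]
  · apply Subtype.ext
    show (g : M) = (r : M) + (5 : ℤ) ^ K • e
    rw [← he]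
    abel

theorem kt_dc_neg {L : LG M} {c g : L.N} (h : Dc c g) : Dc (-c) (-g) := by
  intro K
  obtain ⟨r, e, h1, h2⟩ := h K
  refine ⟨-r, -e, by rw [abs_neg, abs_neg]; exact h1, ?_⟩
  rw [h2, smul_neg]
  abel

theorem kt_dc_neg' {L : LG M} {c g : L.N} (h : Dc c g) : Dc (-c) g := by
  intro K
  obtain ⟨r, e, h1, h2⟩ := h K
  exact ⟨r, e, by rw [abs_neg]; exact h1, h2⟩

/-- the local analysis of one combination -/
theorem kt_core (k1 : S_K1) (k2 : S_K2) {L L' : LG M} {X : ℕ → Set M} (hM : Amb M)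
    (hLp : L.Pure) (hLd : L.Dense) (hX : ∀ n, X n ⊆ L.N) (ho : Orth L X) (hs : L.Sub L')
    (hp : L'.Pure) (z : L'.N) (d : ℕ → M) (hd : ∀ i, d i ∈ AddSubgroup.closure (X i))
    (hz : ∀ K, (z : M) - ∑ i ∈ Finset.range K, (5 : ℤ) ^ i • d i ∈ dv M K) (n : ℕ)
    (D : L'.N) (hD : (D : M) = d n) :
    Dc ((5 : ℤ) ^ n • D) (z - (5 : ℤ) ^ n • D) ∧
    (Sm L (X n) ((z⁻ : L'.N) : M) → z⁻ ⊓ |D| = 0) ∧
    (Sm L (X n) ((z⁺ : L'.N) : M) → z⁺ ⊓ |D| = 0) := by
  have hdN : ∀ i, d i ∈ L.N := fun i => kt_closure_le hX i (hd i)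
  set w : L.N := (5 : ℤ) ^ n • ⟨d n, hdN n⟩ with hw
  have hwM : (w : M) = (5 : ℤ) ^ n • d n := rfl
  have hwcl : (w : M) ∈ AddSubgroup.closure (X n) := by
    rw [hwM]
    exact (AddSubgroup.closure (X n)).zsmul_mem (hd n) _
  set c : L'.N := (5 : ℤ) ^ n • D with hc
  have hcM : (c : M) = (5 : ℤ) ^ n • (D : M) := rfl
  have hcw : (c : M) = w := by rw [hcM, hwM, hD]
  have hdc : Dc c (z - c) := by
    apply kt_dc hs hp w c (z - c) hcw
    intro K
    refine ⟨∑ i ∈ (Finset.range (K + n + 1)).erase n, (5 : ℤ) ^ i • (⟨d i, hdN i⟩ : L.N), ?_, ?_⟩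
    · rw [inf_comm]
      have : (∑ i ∈ (Finset.range (K + n + 1)).erase n, (5 : ℤ) ^ i • (⟨d i, hdN i⟩ : L.N)) ∈
          kt_polar w := by
        apply AddSubgroup.sum_mem
        intro i hi
        rw [Finset.mem_erase] at hi
        apply AddSubgroup.zsmul_mem
        rw [kt_mem_polar]
        exact kt_closure hX ho (Ne.symm hi.1) w ⟨d i, hdN i⟩ hwcl (hd i)
      exact this
    · have h1 := hz (K + n + 1)
      have h2 : dv M (K + n + 1) ≤ dv M K := dv_anti (by omega)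
      have h3 := h2 h1
      have h4 : (((z - c : L'.N) : M) -
          ((∑ i ∈ (Finset.range (K + n + 1)).erase n, (5 : ℤ) ^ i • (⟨d i, hdN i⟩ : L.N) : L.N) : M)) =
          (z : M) - ∑ i ∈ Finset.range (K + n + 1), (5 : ℤ) ^ i • d i := by
        have h5 := Finset.add_sum_erase (Finset.range (K + n + 1)) (fun i => (5 : ℤ) ^ i • d i)
          (Finset.mem_range.2 (by omega : n < K + n + 1))
        rw [← h5]
        push_cast
        rw [hcM, hD]
        abel
      rw [h4]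
      exact h3
  have hsm : ∀ g : L'.N, Sm L (X n) (g : M) → Dc c g := by
    intro g hg
    apply kt_dc hs hp w c g hcw
    intro K
    exact k1 M L (X n) hM hLp hLd (hX n) (g : M) hg w hwcl K
  refine ⟨hdc, ?_, ?_⟩
  · intro h
    have h1 := k2 L'.N (kt_div hM) c (z - c) hdc (by
      rw [add_sub_cancel]
      exact hsm _ h)
    rw [add_sub_cancel] at h1
    exact kt_of_smul (negPart_nonneg z) n h1
  · intro h
    have h1 := k2 L'.N (kt_div hM) (-c) (-(z - c)) (kt_dc_neg hdc) (by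
      rw [show -c + -(z - c) = -z by abel, negPart_neg]
      exact kt_dc_neg' (hsm _ h))
    rw [show -c + -(z - c) = -z by abel, negPart_neg, abs_neg] at h1
    exact kt_of_smul (posPart_nonneg z) n h1

end

/-- an injection of the ordinals below `θ` -/
theorem kt_inj (I : Type) (θ : Cardinal.{0}) (hθ : θ ≤ #I) (h0 : 0 < θ) :
    ∃ ι : Ordinal.{0} → I, ∀ α < θ.ord, ∀ β < θ.ord, ι α = ι β → α = β := by
  classical
  have h1 : #θ.ord.ToType ≤ #I := by rw [mk_ord_toType]; exact hθ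
  obtain ⟨g⟩ := (Cardinal.le_def _ _).1 h1
  have hI : Nonempty I := by
    rw [← Cardinal.mk_ne_zero_iff]
    exact (lt_of_lt_of_le h0 hθ).ne'
  refine ⟨fun α => if hα : α < θ.ord then g (Ordinal.ToType.mk ⟨α, hα⟩) else hI.some, ?_⟩
  intro α hα β hβ hab
  simp only [dif_pos hα, dif_pos hβ] at hab
  have h2 := g.injective hab
  have h3 := Ordinal.ToType.mk.injective h2
  exact congrArg Subtype.val h3

theorem p_KT (he : S_ER3) (k0 : S_K0) (k1 : S_K1) (k2 : S_K2) (k3 : S_K3) (kc : S_KC) :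
    S_KT := by
  classical
  intro M _ L L' I X h a x hM hLp hLd hBD hs hcls hp' harch hx hdec
  obtain ⟨ι, hι⟩ := kt_inj I (Order.succ (2 ^ (2 ^ ℵ₀ : Cardinal.{0}) : Cardinal.{0}))
    (Order.succ_le_of_lt hBD.big) (lt_of_le_of_lt (by simp) (Order.lt_succ _))
  -- signs and thresholds
  have hex : ∀ z : L'.N, ∃ s : Bool × ℕ, Typ x (z : M) → ∀ n ≥ s.2,
      (s.1 = true → Sm L (X n) ((z⁺ : L'.N) : M)) ∧
      (s.1 = false → Sm L (X n) ((z⁻ : L'.N) : M)) := by
    intro z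
    by_cases ht : Typ x (z : M)
    · have h1 : ((z⁺ : L'.N) : M) ∈ L.T z := k0 M L L' hLd hcls z
      rcases hdec (z : M) ht ((z⁺ : L'.N) : M) (z⁺ : L'.N).2 h1 with ⟨n₀, hn⟩ | ⟨n₀, hn⟩
      · refine ⟨(true, n₀), fun _ n hn' => ⟨fun _ => hn n hn', fun hf => ?_⟩⟩
        exact absurd hf (by simp)
      · refine ⟨(false, n₀), fun _ n hn' => ⟨fun hf => ?_, fun _ => ?_⟩⟩
        · exact absurd hf (by simp)
        · have h2 : ((z⁻ : L'.N) : M) = ((z⁺ : L'.N) : M) - (z : M) := by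
            have h3 : (z⁻ : L'.N) = z⁺ - z := by
              rw [eq_sub_iff_add_eq, add_comm]
              nth_rewrite 1 [← posPart_sub_negPart z]
              abel
            rw [h3]
            rfl
          rw [h2]
          exact hn n hn'
    · exact ⟨(true, 0), fun h => absurd h ht⟩
  choose S hS using hex
  obtain ⟨f, col, hf1, hf2, hf3⟩ := he ((Bool × ℕ) × (Bool × ℕ)) ℵ₀ le_rfl Cardinal.mk_le_aleph0
    (fun α β γ => (S (⟨x (ι β), hx _⟩ - ⟨x (ι α), hx _⟩),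
      S (⟨x (ι α), hx _⟩ - (2 : ℤ) • ⟨x (ι β), hx _⟩ + ⟨x (ι γ), hx _⟩)))
  have hle : L.N ≤ L'.N := hs.1
  obtain ⟨n, hn⟩ : ∃ n, n = max col.1.2 col.2.2 := ⟨_, rfl⟩
  have haN : ∀ l, a n l ∈ L'.N := fun l => hle (kt_closure_le hBD.sub n (hBD.aX n l))
  obtain ⟨Y, hY⟩ : ∃ Y : Ordinal.{0} → L'.N, ∀ α, Y α = ⟨x (ι (f α)), hx _⟩ := ⟨_, fun _ => rfl⟩
  obtain ⟨A, hA⟩ : ∃ A : Ordinal.{0} → L'.N, ∀ α, A α = ⟨a n (ι (f α)), haN _⟩ :=
    ⟨_, fun _ => rfl⟩
  have hne : ∀ α β, α < β → β < (Order.succ ℵ₀ : Cardinal.{0}).ord → ι (f α) ≠ ι (f β) := by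
    intro α β hab hb h1
    have h2 := hι _ (hf1 α (hab.trans hb)) _ (hf1 β hb) h1
    exact absurd h2 (hf2 α β hab hb).ne
  have hlim : ∀ l K, x l - ∑ i ∈ Finset.range K, (5 : ℤ) ^ i • (h i + a i l) ∈ dv M K := hBD.lim
  have hsucc : ∀ β, β < (Order.succ ℵ₀ : Cardinal.{0}).ord →
      Order.succ β < (Order.succ ℵ₀ : Cardinal.{0}).ord := by
    intro β hb
    exact (isSuccLimit_ord (Order.le_succ ℵ₀)).succ_lt hb
  -- pairs
  have hpair : ∀ α β, α < β → β < (Order.succ ℵ₀ : Cardinal.{0}).ord →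
      Dc ((5 : ℤ) ^ n • (A β - A α)) ((Y β - Y α) - (5 : ℤ) ^ n • (A β - A α)) ∧
      (col.1.1 = false → (Y β - Y α)⁻ ⊓ |A β - A α| = 0) ∧
      (col.1.1 = true → (Y β - Y α)⁺ ⊓ |A β - A α| = 0) := by
    intro α β hab hb
    have hc := hf3 α β (Order.succ β) hab (Order.lt_succ β) (hsucc β hb)
    have hc1 : S (Y β - Y α) = col.1 := by
      rw [← hc, hY, hY]
    have ht : Typ x ((Y β - Y α : L'.N) : M) := by
      left
      refine ⟨ι (f α), ι (f β), hne α β hab hb, ?_⟩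
      rw [hY, hY]
      rfl
    have hsm := hS _ ht n (by rw [hc1, hn]; exact le_max_left _ _)
    rw [hc1] at hsm
    obtain ⟨c1, c2, c3⟩ := kt_core k1 k2 hM hLp hLd hBD.sub hBD.orth hs hp' (Y β - Y α)
      (fun i => a i (ι (f β)) - a i (ι (f α)))
      (fun i => AddSubgroup.sub_mem _ (hBD.aX i _) (hBD.aX i _))
      (by
        intro K
        have h1 := (dv M K).sub_mem (hlim (ι (f β)) K) (hlim (ι (f α)) K)
        have h2 : ((Y β - Y α : L'.N) : M) -
            ∑ i ∈ Finset.range K, (5 : ℤ) ^ i • (a i (ι (f β)) - a i (ι (f α))) =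
            (x (ι (f β)) - ∑ i ∈ Finset.range K, (5 : ℤ) ^ i • (h i + a i (ι (f β)))) -
            (x (ι (f α)) - ∑ i ∈ Finset.range K, (5 : ℤ) ^ i • (h i + a i (ι (f α)))) := by
          rw [hY, hY]
          simp only [smul_sub, smul_add, Finset.sum_sub_distrib, Finset.sum_add_distrib,
            AddSubgroup.coe_sub]
          abel
        rw [h2]
        exact h1) n (A β - A α) (by rw [hA, hA]; rfl)
    exact ⟨c1, fun h1 => c2 (hsm.2 h1), fun h1 => c3 (hsm.1 h1)⟩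
  -- triples
  have htri : ∀ α β γ, α < β → β < γ → γ < (Order.succ ℵ₀ : Cardinal.{0}).ord →
      (col.2.1 = false → (Y α - (2 : ℤ) • Y β + Y γ)⁻ ⊓ |A α - (2 : ℤ) • A β + A γ| = 0) ∧
      (col.2.1 = true → (Y α - (2 : ℤ) • Y β + Y γ)⁺ ⊓ |A α - (2 : ℤ) • A β + A γ| = 0) := by
    intro α β γ hab hbg hg
    have hc := hf3 α β γ hab hbg hg
    have hc1 : S (Y α - (2 : ℤ) • Y β + Y γ) = col.2 := by
      rw [← hc, hY, hY, hY]
    have ht : Typ x ((Y α - (2 : ℤ) • Y β + Y γ : L'.N) : M) := by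
      right
      refine ⟨ι (f α), ι (f β), ι (f γ), hne α β hab (hbg.trans hg), hne β γ hbg hg,
        hne α γ (hab.trans hbg) hg, ?_⟩
      rw [hY, hY, hY]
      rfl
    have hsm := hS _ ht n (by rw [hc1, hn]; exact le_max_right _ _)
    rw [hc1] at hsm
    obtain ⟨c1, c2, c3⟩ := kt_core k1 k2 hM hLp hLd hBD.sub hBD.orth hs hp'
      (Y α - (2 : ℤ) • Y β + Y γ)
      (fun i => a i (ι (f α)) - (2 : ℤ) • a i (ι (f β)) + a i (ι (f γ)))
      (fun i => AddSubgroup.add_mem _ (AddSubgroup.sub_mem _ (hBD.aX i _)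
        (AddSubgroup.zsmul_mem _ (hBD.aX i _) _)) (hBD.aX i _))
      (by
        intro K
        have h1 := (dv M K).add_mem ((dv M K).sub_mem (hlim (ι (f α)) K)
          ((dv M K).zsmul_mem (hlim (ι (f β)) K) 2)) (hlim (ι (f γ)) K)
        have h2 : ((Y α - (2 : ℤ) • Y β + Y γ : L'.N) : M) -
            ∑ i ∈ Finset.range K, (5 : ℤ) ^ i •
              (a i (ι (f α)) - (2 : ℤ) • a i (ι (f β)) + a i (ι (f γ))) =
            (x (ι (f α)) - ∑ i ∈ Finset.range K, (5 : ℤ) ^ i • (h i + a i (ι (f α)))) -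
            (2 : ℤ) • (x (ι (f β)) - ∑ i ∈ Finset.range K, (5 : ℤ) ^ i • (h i + a i (ι (f β)))) +
            (x (ι (f γ)) - ∑ i ∈ Finset.range K, (5 : ℤ) ^ i • (h i + a i (ι (f γ)))) := by
          rw [hY, hY, hY]
          simp only [two_zsmul, smul_sub, smul_add, Finset.sum_sub_distrib,
            Finset.sum_add_distrib, AddSubgroup.coe_sub, AddSubgroup.coe_add]
          abel
        rw [h2]
        exact h1) n (A α - (2 : ℤ) • A β + A γ) (by rw [hA, hA, hA]; rfl)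
    exact ⟨fun h1 => c2 (hsm.2 h1), fun h1 => c3 (hsm.1 h1)⟩
  have key : ∃ i j, i < j ∧ j < (Order.succ ℵ₀ : Cardinal.{0}).ord ∧
      |Y j - Y i| ⊓ |A j - A i| = 0 := by
    cases hc1 : col.1.1 with
    | false =>
      refine kc L'.N harch Y A (fun i j hij hj => (hpair i j hij hj).2.1 hc1) ?_
      cases hc2 : col.2.1 with
      | false => exact Or.inl (fun i j k hij hjk hk => (htri i j k hij hjk hk).1 hc2)
      | true => exact Or.inr (fun i j k hij hjk hk => (htri i j k hij hjk hk).2 hc2)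
    | true =>
      have e1 : ∀ i j, -Y j - -Y i = -(Y j - Y i) := fun i j => by abel
      have e2 : ∀ i j, -A j - -A i = -(A j - A i) := fun i j => by abel
      have e3 : ∀ i j k, -Y i - (2 : ℤ) • -Y j + -Y k = -(Y i - (2 : ℤ) • Y j + Y k) :=
        fun i j k => by rw [smul_neg]; abel
      have e4 : ∀ i j k, -A i - (2 : ℤ) • -A j + -A k = -(A i - (2 : ℤ) • A j + A k) :=
        fun i j k => by rw [smul_neg]; abel
      obtain ⟨i, j, h1, h2, h3⟩ := kc L'.N harch (fun α => -Y α) (fun α => -A α)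
        (fun i j hij hj => by
          simp only [e1, e2, negPart_neg, abs_neg]
          exact (hpair i j hij hj).2.2 hc1) (by
          cases hc2 : col.2.1 with
          | false =>
            right
            intro i j k hij hjk hk
            simp only [e3, e4, posPart_neg, abs_neg]
            exact (htri i j k hij hjk hk).1 hc2
          | true =>
            left
            intro i j k hij hjk hk
            simp only [e3, e4, negPart_neg, abs_neg]
            exact (htri i j k hij hjk hk).2 hc2)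
      refine ⟨i, j, h1, h2, ?_⟩
      simp only [e1, e2, abs_neg] at h3
      exact h3
  obtain ⟨i, j, hij, hj, hdis⟩ := key
  have h1 := k3 L'.N (kt_div hM) _ (Y j - Y i) (hpair i j hij hj).1 (kt_smul_right hdis _)
  have h2 : (5 : ℤ) ^ n • ((A j - A i : L'.N) : M) = 0 := congrArg Subtype.val h1
  have h3 := hM.tf _ _ (by positivity) h2
  have h4 : a n (ι (f j)) = a n (ι (f i)) := by
    rw [hA, hA] at h3
    exact sub_eq_zero.1 h3
  exact hne i j hij hj (hBD.inj n h4).symm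

end Pool.Agent.CN
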