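import Pool.Agent.Lib.MP_764a00_al.Stm

/-!
# MP_764a00_al : lower bounds of chains of conditions
-/

namespace Pool.Agent.CN

open Cardinal

theorem p_LB : S_LB := by
  intro M _ B lam hlam J _ _ f hJ hf
  have hle : ∀ {j j' : J}, j ≤ j' → (f j).H ≤ (f j').H := fun h => (hf h).1
  have hdir : Directed (· ≤ ·) fun j => (f j).H := by
    intro j j'
    rcases le_total j j' with h | h
    · exact ⟨j', hle h, le_rfl⟩
    · exact ⟨j, le_rfl, hle h⟩
  have hmem : ∀ x : M, x ∈ (⨆ j, (f j).H) ↔ ∃ j, x ∈ (f j).H := fun x =>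
    AddSubgroup.mem_iSup_of_directed hdir
  obtain ⟨j₀⟩ := (inferInstance : Nonempty J)
  have hmul : ∀ c : Cardinal.{0}, c ≤ lam → #J * c ≤ lam := fun c hc =>
    (mul_le_mul' hJ hc).trans (Cardinal.mul_eq_self hlam).le
  have hcH : #(⨆ j, (f j).H : AddSubgroup M) ≤ lam := by
    have h1 : ((⨆ j, (f j).H : AddSubgroup M) : Set M) = ⋃ j, ((f j).H : Set M) := by
      ext x
      rw [SetLike.mem_coe, hmem, Set.mem_iUnion]
      rfl
    have h2 : #(⋃ j, ((f j).H : Set M) : Set M) ≤ lam := by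
      refine (Cardinal.mk_iUnion_le _).trans (hmul _ ?_)
      exact ciSup_le' fun j => (f j).cardH
    have h3 : #((⨆ j, (f j).H : AddSubgroup M) : Set M) ≤ lam := by
      rw [h1]; exact h2
    exact h3
  have hcT : #(⋃ j, (f j).T : Set (LG M × M)) ≤ lam := by
    refine (Cardinal.mk_iUnion_le _).trans (hmul _ ?_)
    exact ciSup_le' fun j => (f j).cardT
  refine ⟨⟨⨆ j, (f j).H, ?_, ?_, hcH, ⋃ j, (f j).T, hcT, ?_⟩, ?_, ?_⟩
  · intro z hz
    obtain ⟨j, hj⟩ := (hmem _).1 hz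
    exact (hmem _).2 ⟨j, (f j).pure z hj⟩
  · intro b hb
    exact (hmem _).2 ⟨j₀, (f j₀).base hb⟩
  · intro t ht
    obtain ⟨j, hj⟩ := Set.mem_iUnion.1 ht
    obtain ⟨h1, h2, h3⟩ := (f j).good t hj
    exact ⟨h1, h2, (hmem _).2 ⟨j, h3⟩⟩
  · intro j
    refine ⟨fun x hx => (hmem _).2 ⟨j, hx⟩, fun t ht => Set.mem_iUnion.2 ⟨j, ht⟩, ?_⟩
    intro t ht y hy hT
    obtain ⟨j', hj'⟩ := (hmem _).1 hy
    rcases le_total j j' with h | h
    · exact (hf h).2.2 t ht y hj' hT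
    · exact hle h hj'
  · intro x hx
    exact (hmem _).1 hx

end Pool.Agent.CN
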