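import Pool.Agent.Lib.MP_764a00_al.Stm

/-!
# MP_764a00_al : the local-global principle
-/

namespace Pool.Agent.CN

private lemma lg0_pure {M : Type} [AddCommGroup M] (L : LG M) (hL : L.Pure) (K : ℕ) (y : M)
    (h : (5 : ℤ) ^ K • y ∈ L.N) : y ∈ L.N := by
  induction K with
  | zero => simpa using h
  | succ K ih =>
    apply ih
    apply hL
    rwa [smul_smul, ← pow_succ']

theorem p_LG0 (hp : S_PT) (hd : S_DS) : S_LG0 := by
  intro M _ L hM hP hD z K hz
  obtain ⟨u, hu⟩ := hD z K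
  obtain ⟨r, hr1, hr2⟩ := hp M L hM hP hD |u| z K (abs_nonneg u) (fun F _ => hz F)
  have h1 : (u : M) - (r : M) ∈ dv M K := by
    have : (u : M) - (r : M) = (z - r) - (z - u) := by abel
    rw [this]
    exact (dv M K).sub_mem hr2 hu
  obtain ⟨y, hy⟩ := h1
  have hyN : y ∈ L.N := by
    apply lg0_pure L hP K
    rw [← hy]
    exact L.N.sub_mem u.2 r.2
  obtain ⟨e, he⟩ := hd L.N u r K (by rw [inf_comm]; exact hr1)
    ⟨⟨y, hyN⟩, by
      apply Subtype.ext
      rw [AddSubgroup.coe_sub, hy]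
      rfl⟩
  have h2 : (u : M) ∈ dv M K := by
    refine ⟨(e : M), ?_⟩
    conv_lhs => rw [he]
    rfl
  have h3 : z = (z - u) + u := by abel
  rw [h3]
  exact (dv M K).add_mem hu h2

end Pool.Agent.CN
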