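import Pool.Agent.Lib.MP_764a00_al.Stm

/-!
# MP_764a00_al : the digits of one level
-/

namespace Pool.Agent.CN

open Cardinal

theorem ll_rec {I A : Type} [LinearOrder I] [WellFoundedLT I]
    (P : ∀ l : I, ({j // j < l} → A) → A → Prop) (H : ∀ l f, ∃ x, P l f x) :
    ∃ a : I → A, ∀ l, P l (fun j => a j) (a l) := by
  classical
  choose F hF using H
  have wf : WellFounded (fun x y : I => x < y) := wellFounded_lt
  let a : I → A := wf.fix (fun l f => F l (fun j => f j.1 j.2))
  refine ⟨a, fun l => ?_⟩
  have e : a l = F l (fun j => a j) := wf.fix_eq _ l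
  rw [e]
  exact hF l _

theorem ll_card {M : Type} [AddCommGroup M] {μ : Cardinal.{0}} (hμ : ℵ₀ ≤ μ) (S : Set M)
    (hS : #S ≤ μ) : #(AddSubgroup.closure S) ≤ μ := by
  classical
  let f : S × Bool → M := fun p => if p.2 then (p.1 : M) else -(p.1 : M)
  have hf : ∀ p : S × Bool, f (p.1, !p.2) = - f p := by
    rintro ⟨p, b⟩
    cases b <;> simp [f]
  have key : ∀ x : AddSubgroup.closure S, ∃ l : List (S × Bool), (l.map f).sum = (x : M) := by
    rintro ⟨x, hx⟩
    show ∃ l : List (S × Bool), (l.map f).sum = x
    induction hx using AddSubgroup.closure_induction with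
    | mem x hx => exact ⟨[(⟨x, hx⟩, true)], by simp [f]⟩
    | zero => exact ⟨[], rfl⟩
    | add x y _ _ hx hy =>
      obtain ⟨l, rfl⟩ := hx
      obtain ⟨m, rfl⟩ := hy
      exact ⟨l ++ m, by rw [List.map_append, List.sum_append]⟩
    | neg x _ hx =>
      obtain ⟨l, rfl⟩ := hx
      refine ⟨l.map (fun p => (p.1, !p.2)), ?_⟩
      clear * - hf
      induction l with
      | nil => simp
      | cons p l ih =>
        simp only [List.map_cons, List.sum_cons, hf, ih]
        abel
  choose g hg using key
  have hinj : Function.Injective g := by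
    intro x y hxy
    apply Subtype.ext
    rw [← hg x, ← hg y, hxy]
  refine (Cardinal.mk_le_of_injective hinj).trans ?_
  refine (Cardinal.mk_list_le_max _).trans (max_le hμ ?_)
  rw [Cardinal.mk_prod, Cardinal.lift_id, Cardinal.lift_id]
  exact Cardinal.mul_le_of_le hμ hS (Cardinal.mk_le_aleph0.trans hμ)

section

variable {M : Type} [AddCommGroup M] {I : Type}

theorem ll_lc_mem {k : I →₀ ℤ} {a : I → M} {G : AddSubgroup M}
    (h : ∀ l ∈ k.support, a l ∈ G) : lc k a ∈ G := by
  unfold lc Finsupp.sum
  exact sum_mem fun l hl => zsmul_mem (h l hl) _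

theorem ll_lc_erase (k : I →₀ ℤ) (a : I → M) (j : I) :
    lc k a = lc (k.erase j) a + k j • a j := by
  unfold lc
  rw [add_comm, Finsupp.add_sum_erase' k j (fun l c => c • a l) (fun i => by simp)]

theorem ll_lc_zero (a : I → M) : lc (0 : I →₀ ℤ) a = 0 := by
  unfold lc
  exact Finsupp.sum_zero_index

theorem ll_erase_of_zero {k : I →₀ ℤ} {j : I} (h : k j = 0) : k.erase j = k := by
  apply Finsupp.erase_of_notMem_support
  rw [Finsupp.mem_support_iff]
  exact fun h' => h' h

end

theorem p_LL (hs : S_SL) (hq : S_QS) (hb : S_BS) : S_LL := by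
  classical
  intro M _ L X μ Γ TT I _ _ hM hP hD hX hX5 hμ hcard hΓ hTT hTT2 hI
  -- the choice of one digit
  have hsel : ∀ Γ' : Set M, #Γ' ≤ μ → ∃ x, x ∈ AddSubgroup.closure X ∧ Sel L X Γ' TT x := by
    intro Γ' hΓ'
    obtain ⟨b, h1, b', h2, b'', h3, h⟩ := hs M L X μ Γ' TT hM hP hD hX hX5 hμ hcard hΓ' hTT hTT2
    refine ⟨_, ?_, h⟩
    have h1' := AddSubgroup.subset_closure (k := X) h1
    have h2' := AddSubgroup.subset_closure (k := X) h2
    have h3' := AddSubgroup.subset_closure (k := X) h3
    exact add_mem (sub_mem h1' (zsmul_mem h2' 3)) (zsmul_mem h3' 2)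
  obtain ⟨h, hhX, hh⟩ := hsel Γ hΓ
  let G : ∀ l : I, ({j // j < l} → M) → AddSubgroup M := fun l f =>
    AddSubgroup.closure (Γ ∪ {h} ∪ Set.range f)
  have hGc : ∀ l f, #(G l f) ≤ μ := by
    intro l f
    apply ll_card hμ
    refine (Cardinal.mk_union_le _ _).trans (Cardinal.add_le_of_le hμ ?_ ?_)
    · refine (Cardinal.mk_union_le _ _).trans (Cardinal.add_le_of_le hμ hΓ ?_)
      rw [Cardinal.mk_singleton]
      exact Cardinal.one_le_aleph0.trans hμ
    · exact Cardinal.mk_range_le.trans ((Cardinal.mk_subtype_le _).trans hI)
  obtain ⟨a, ha⟩ := ll_rec (I := I) (A := M)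
    (fun l f x => x ∈ AddSubgroup.closure X ∧ Sel L X (G l f) TT x)
    (fun l f => hsel (G l f) (hGc l f))
  have hGΓ : ∀ l, ∀ e ∈ Γ, e ∈ G l (fun j => a j) := fun l e he =>
    AddSubgroup.subset_closure (Or.inl (Or.inl he))
  have hGh : ∀ l, h ∈ G l (fun j => a j) := fun l =>
    AddSubgroup.subset_closure (Or.inl (Or.inr rfl))
  have hGa : ∀ l j, j < l → a j ∈ G l (fun j => a j) := fun l j hj =>
    AddSubgroup.subset_closure (Or.inr ⟨⟨j, hj⟩, rfl⟩)
  refine ⟨h, a, ⟨hhX, fun l => (ha l).1, ?_, ?_⟩⟩
  · -- old tasks
    intro L' hL' e he e' he' s q k hk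
    have hSne : (k.support.filter (fun l => ¬ (5 : ℤ) ∣ k l)).Nonempty := by
      obtain ⟨l, hl⟩ := hk
      refine ⟨l, ?_⟩
      rw [Finset.mem_filter, Finsupp.mem_support_iff]
      exact ⟨fun h0 => hl (h0 ▸ dvd_zero _), hl⟩
    set j := (k.support.filter (fun l => ¬ (5 : ℤ) ∣ k l)).max' hSne with hj
    have hjmem := Finset.max'_mem _ hSne
    rw [← hj, Finset.mem_filter] at hjmem
    obtain ⟨hjs, hj5⟩ := hjmem
    have hjmax : ∀ l, j < l → (5 : ℤ) ∣ k l := by
      intro l hl
      by_contra h5
      have hl2 : l ∈ k.support.filter (fun l => ¬ (5 : ℤ) ∣ k l) := by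
        rw [Finset.mem_filter, Finsupp.mem_support_iff]
        exact ⟨fun h0 => h5 (h0 ▸ dvd_zero _), h5⟩
      exact absurd (Finset.le_max' _ l hl2) (not_le.2 hl)
    let A : M := ∑ l ∈ (k.erase j).support.filter (fun l => l < j), k l • a l
    let B : M := ∑ l ∈ (k.erase j).support.filter (fun l => ¬ l < j), k l • a l
    have hsplit : lc k a = A + B + k j • a j := by
      rw [ll_lc_erase k a j]
      congr 1
      show (k.erase j).sum (fun l c => c • a l) = _
      unfold Finsupp.sum
      rw [← Finset.sum_filter_add_sum_filter_not (k.erase j).support (fun l => l < j)]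
      congr 1
      · refine Finset.sum_congr rfl fun l hl => ?_
        rw [Finset.mem_filter] at hl
        rw [Finsupp.erase_ne hl.2.ne]
      · refine Finset.sum_congr rfl fun l hl => ?_
        rw [Finset.mem_filter, Finsupp.support_erase, Finset.mem_erase] at hl
        rw [Finsupp.erase_ne hl.1.1]
    have hA : A ∈ G j (fun i => a i) := by
      refine sum_mem fun l hl => zsmul_mem ?_ _
      rw [Finset.mem_filter] at hl
      exact hGa j l hl.2
    have hB : (5 : ℤ) ^ s • B ∈ dv M (s + 1) := by
      show (5 : ℤ) ^ s • (∑ l ∈ (k.erase j).support.filter (fun l => ¬ l < j), k l • a l) ∈ _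
      rw [Finset.smul_sum]
      refine sum_mem fun l hl => ?_
      rw [Finset.mem_filter, Finsupp.support_erase, Finset.mem_erase] at hl
      have hjl : j < l := lt_of_le_of_ne (not_lt.1 hl.2) (Ne.symm hl.1.1)
      obtain ⟨c, hc⟩ := hjmax l hjl
      rw [hc]
      exact ⟨c • a l, by rw [smul_smul, smul_smul, pow_succ]; congr 1; ring⟩
    have hbase : (5 : ℤ) ^ s • (q • h + A) ∈ G j (fun i => a i) :=
      zsmul_mem (add_mem (zsmul_mem (hGh j) _) hA) _
    obtain ⟨F, hF1, hF2⟩ := (ha j).2.1 L' hL' (e + (5 : ℤ) ^ s • (q • h + A))
      (add_mem (hGΓ j e he) hbase) (e' + (5 : ℤ) ^ s • (q • h + A))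
      (add_mem (hGΓ j e' he') hbase) s (k j) hj5
    obtain ⟨Q, hQ1, hQ2, -⟩ := hq M L' hM (hTT2 L' hL').1 F (s + 1)
    have haux : ∀ e : M, e + (5 : ℤ) ^ s • (q • h + lc k a) ∈ cq L' F (s + 1) →
        e + (5 : ℤ) ^ s • (q • h + A) + ((5 : ℤ) ^ s * k j) • a j ∈ cq L' F (s + 1) := by
      intro e hmem
      rw [← hQ1, SetLike.mem_coe] at hmem ⊢
      have e1 : e + (5 : ℤ) ^ s • (q • h + A) + ((5 : ℤ) ^ s * k j) • a j =
          (e + (5 : ℤ) ^ s • (q • h + lc k a)) - (5 : ℤ) ^ s • B := by
        rw [hsplit]
        simp only [smul_add, mul_smul]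
        abel
      rw [e1]
      exact sub_mem hmem (hQ2 hB)
    exact ⟨F, fun hmem => hF1 (haux e hmem), fun hmem => hF2 (haux e' hmem)⟩
  · -- new tasks
    intro g hg q
    have main : ∀ (n : ℕ) (k k' : I →₀ ℤ), (k.support ∪ k'.support).card = n →
        (∀ F : Ultra L.N, On L X F → g + q • h + lc k a ∈ cb L F ∨ g + q • h + lc k' a ∈ cb L F) →
        (∀ l, k l = 0 ∨ k' l = 0) ∧ q = 0 ∧ Sm L X g := by
      intro n
      induction n using Nat.strong_induction_on with
      | _ n ih =>
        intro k k' hn hF
        rcases (k.support ∪ k'.support).eq_empty_or_nonempty with hemp | hne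
        · rw [Finset.union_eq_empty, Finsupp.support_eq_empty, Finsupp.support_eq_empty] at hemp
          obtain ⟨rfl, rfl⟩ := hemp
          simp only [ll_lc_zero, add_zero, or_self] at hF
          have hq0 : q = 0 := by
            by_contra hq0
            obtain ⟨F, hon, h1, -⟩ := hh.2.1 g hg g hg q q hq0 hq0
            exact h1 (hF F hon)
          refine ⟨fun l => Or.inl rfl, hq0, ?_⟩
          intro F hon
          have := hF F hon
          rwa [hq0, zero_smul, add_zero] at this
        · set j := (k.support ∪ k'.support).max' hne with hj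
          have hjmem := Finset.max'_mem _ hne
          rw [← hj, Finset.mem_union, Finsupp.mem_support_iff, Finsupp.mem_support_iff] at hjmem
          have hlt : ∀ l, l ≠ j → (k l ≠ 0 ∨ k' l ≠ 0) → l < j := by
            intro l hlj hl
            have hl2 : l ∈ k.support ∪ k'.support := by
              rw [Finset.mem_union, Finsupp.mem_support_iff, Finsupp.mem_support_iff]
              exact hl
            exact lt_of_le_of_ne (Finset.le_max' _ l hl2) hlj
          have hmem1 : g + q • h + lc (k.erase j) a ∈ G j (fun i => a i) := by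
            refine add_mem (add_mem (hGΓ j g hg) (zsmul_mem (hGh j) _)) (ll_lc_mem fun l hl => ?_)
            rw [Finsupp.support_erase, Finset.mem_erase, Finsupp.mem_support_iff] at hl
            exact hGa j l (hlt l hl.1 (Or.inl hl.2))
          have hmem2 : g + q • h + lc (k'.erase j) a ∈ G j (fun i => a i) := by
            refine add_mem (add_mem (hGΓ j g hg) (zsmul_mem (hGh j) _)) (ll_lc_mem fun l hl => ?_)
            rw [Finsupp.support_erase, Finset.mem_erase, Finsupp.mem_support_iff] at hl
            exact hGa j l (hlt l hl.1 (Or.inr hl.2))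
          have hk1 : g + q • h + lc k a = g + q • h + lc (k.erase j) a + k j • a j := by
            rw [ll_lc_erase k a j, ← add_assoc]
          have hk2 : g + q • h + lc k' a = g + q • h + lc (k'.erase j) a + k' j • a j := by
            rw [ll_lc_erase k' a j, ← add_assoc]
          by_cases h1 : k j = 0
          · have h2 : k' j ≠ 0 := by
              rcases hjmem with h3 | h3
              · exact absurd h1 h3
              · exact h3
            have he1 : k.erase j = k := ll_erase_of_zero h1
            rw [he1] at hmem1
            have hF' : ∀ F : Ultra L.N, On L X F → g + q • h + lc k a ∈ cb L F ∨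
                g + q • h + lc (k'.erase j) a ∈ cb L F := by
              intro F hon
              by_contra hcon
              push Not at hcon
              obtain ⟨F', hon', h5, h6⟩ := (ha j).2.2.2 _ hmem2 _ hmem1 (k' j) h2
                ⟨F, hon, hcon.2, hcon.1⟩
              rcases hF F' hon' with h7 | h7
              · exact h6 h7
              · rw [hk2] at h7
                exact h5 h7
            have hcard : (k.support ∪ (k'.erase j).support).card < n := by
              rw [← hn]
              apply Finset.card_lt_card
              rw [Finset.ssubset_iff_of_subset]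
              · refine ⟨j, ?_, ?_⟩
                · rw [Finset.mem_union, Finsupp.mem_support_iff, Finsupp.mem_support_iff]
                  exact Or.inr h2
                · rw [Finset.mem_union, Finsupp.mem_support_iff, Finsupp.mem_support_iff]
                  simp [h1]
              · apply Finset.union_subset_union_right
                rw [Finsupp.support_erase]
                exact Finset.erase_subset _ _
            obtain ⟨h8, h9⟩ := ih _ hcard k (k'.erase j) rfl hF'
            refine ⟨fun l => ?_, h9⟩
            rcases eq_or_ne l j with h10 | h10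
            · left; rw [h10, h1]
            · have := h8 l
              rwa [Finsupp.erase_ne h10] at this
          · by_cases h2 : k' j = 0
            · have he2 : k'.erase j = k' := ll_erase_of_zero h2
              rw [he2] at hmem2
              have hF' : ∀ F : Ultra L.N, On L X F → g + q • h + lc (k.erase j) a ∈ cb L F ∨
                  g + q • h + lc k' a ∈ cb L F := by
                intro F hon
                by_contra hcon
                push Not at hcon
                obtain ⟨F', hon', h5, h6⟩ := (ha j).2.2.2 _ hmem1 _ hmem2 (k j) h1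
                  ⟨F, hon, hcon.1, hcon.2⟩
                rcases hF F' hon' with h7 | h7
                · rw [hk1] at h7
                  exact h5 h7
                · exact h6 h7
              have hcard : ((k.erase j).support ∪ k'.support).card < n := by
                rw [← hn]
                apply Finset.card_lt_card
                rw [Finset.ssubset_iff_of_subset]
                · refine ⟨j, ?_, ?_⟩
                  · rw [Finset.mem_union, Finsupp.mem_support_iff, Finsupp.mem_support_iff]
                    exact Or.inl h1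
                  · rw [Finset.mem_union, Finsupp.mem_support_iff, Finsupp.mem_support_iff]
                    simp [h2]
                · apply Finset.union_subset_union_left
                  rw [Finsupp.support_erase]
                  exact Finset.erase_subset _ _
              obtain ⟨h8, h9⟩ := ih _ hcard (k.erase j) k' rfl hF'
              refine ⟨fun l => ?_, h9⟩
              rcases eq_or_ne l j with h10 | h10
              · right; rw [h10, h2]
              · have := h8 l
                rwa [Finsupp.erase_ne h10] at this
            · obtain ⟨F, hon, h3, h4⟩ := (ha j).2.2.1 _ hmem1 _ hmem2 (k j) (k' j) h1 h2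
              rcases hF F hon with h7 | h7
              · rw [hk1] at h7
                exact absurd h7 h3
              · rw [hk2] at h7
                exact absurd h7 h4
    intro k k' hF
    exact main _ k k' rfl hF

end Pool.Agent.CN
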