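import Pool.Agent.Lib.MP_764a00_al.Stm

/-!
Proof of `S_M0` (MP_764a00_al): the concrete ambient group.
-/

set_option autoImplicit false

namespace Pool.Agent.CN

open Cardinal

private instance m0_fact : Fact (Nat.Prime 5) := ⟨by norm_num⟩

private lemma m0_dvd_iff (x : ℤ_[5]) (n : ℕ) : (5 : ℤ_[5]) ^ n ∣ x ↔ ‖x‖ ≤ (5 : ℝ) ^ (-(n : ℤ)) := by
  have h := PadicInt.norm_le_pow_iff_mem_span_pow (p := 5) x n
  rw [Ideal.mem_span_singleton] at h
  push_cast at h
  exact h.symm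

private lemma m0_haus (x : ℤ_[5]) (h : ∀ n : ℕ, (5 : ℤ_[5]) ^ n ∣ x) : x = 0 := by
  rw [← norm_le_zero_iff]
  have h1 : ∀ n : ℕ, ‖x‖ ≤ ((1 / 5 : ℝ)) ^ n := by
    intro n
    have := (m0_dvd_iff x n).1 (h n)
    rwa [zpow_neg, zpow_natCast, ← inv_pow, ← one_div] at this
  have h2 : Filter.Tendsto (fun n : ℕ => ((1 / 5 : ℝ)) ^ n) Filter.atTop (nhds 0) :=
    tendsto_pow_atTop_nhds_zero_of_lt_one (by norm_num) (by norm_num)
  exact ge_of_tendsto' h2 h1

private lemma m0_sum_dvd (w : ℕ → ℤ_[5]) (K m : ℕ) (h : K ≤ m) :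
    (5 : ℤ_[5]) ^ K ∣ (∑ n ∈ Finset.range m, (5 : ℤ_[5]) ^ n * w n) -
      ∑ n ∈ Finset.range K, (5 : ℤ_[5]) ^ n * w n := by
  rw [← Finset.sum_Ico_eq_sub _ h]
  refine Finset.dvd_sum fun n hn => ?_
  exact Dvd.dvd.mul_right (pow_dvd_pow _ (Finset.mem_Ico.1 hn).1) _

private lemma m0_comp (w : ℕ → ℤ_[5]) : ∃ x : ℤ_[5], ∀ K : ℕ,
    (5 : ℤ_[5]) ^ K ∣ x - ∑ n ∈ Finset.range K, (5 : ℤ_[5]) ^ n * w n := by
  have hc : CauchySeq (fun K : ℕ => ∑ n ∈ Finset.range K, (5 : ℤ_[5]) ^ n * w n) := by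
    refine cauchySeq_of_le_geometric (1 / 5) 1 (by norm_num) fun n => ?_
    rw [dist_comm, dist_eq_norm]
    have h1 := (m0_dvd_iff _ n).1 (m0_sum_dvd w n (n + 1) (Nat.le_succ n))
    rwa [zpow_neg, zpow_natCast, ← inv_pow, ← one_div, ← one_mul ((1 / 5 : ℝ) ^ n)] at h1
  obtain ⟨x, hx⟩ := cauchySeq_tendsto_of_complete hc
  refine ⟨x, fun K => ?_⟩
  rw [m0_dvd_iff]
  have h2 : Filter.Tendsto (fun m : ℕ => ‖(∑ n ∈ Finset.range m, (5 : ℤ_[5]) ^ n * w n) -
      ∑ n ∈ Finset.range K, (5 : ℤ_[5]) ^ n * w n‖) Filter.atTop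
      (nhds ‖x - ∑ n ∈ Finset.range K, (5 : ℤ_[5]) ^ n * w n‖) :=
    (hx.sub_const _).norm
  refine le_of_tendsto h2 ?_
  filter_upwards [Filter.eventually_ge_atTop K] with m hm
  exact (m0_dvd_iff _ K).1 (m0_sum_dvd w K m hm)

/-- the ambient group: sequences converging to zero -/
private def m0_M (ι : Type) : AddSubgroup (ι → ℤ_[5]) where
  carrier := {x | ∀ K : ℕ, {i | ¬ (5 : ℤ_[5]) ^ K ∣ x i}.Finite}
  add_mem' := by
    intro a b ha hb K
    refine ((ha K).union (hb K)).subset fun i hi => ?_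
    by_contra hcon
    simp only [Set.mem_union, Set.mem_setOf_eq, not_or, not_not] at hcon
    exact hi (dvd_add hcon.1 hcon.2)
  zero_mem' := by
    intro K
    simp
  neg_mem' := by
    intro a ha K
    refine (ha K).subset fun i hi => ?_
    intro h
    exact hi (by simpa using h)

private lemma m0_mem {ι : Type} {x : ι → ℤ_[5]} :
    x ∈ m0_M ι ↔ ∀ K : ℕ, {i | ¬ (5 : ℤ_[5]) ^ K ∣ x i}.Finite := Iff.rfl

private lemma m0_zsmul (n : ℕ) (x : ℤ_[5]) : (5 : ℤ) ^ n • x = (5 : ℤ_[5]) ^ n * x := by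
  rw [zsmul_eq_mul]; push_cast; rfl

private lemma m0_dvd_of {ι : Type} {x : m0_M ι} {K : ℕ} (h : x ∈ dv (m0_M ι) K) (i : ι) :
    (5 : ℤ_[5]) ^ K ∣ (x : ι → ℤ_[5]) i := by
  obtain ⟨y, hy⟩ := h
  refine ⟨(y : ι → ℤ_[5]) i, ?_⟩
  rw [hy, ← m0_zsmul]
  rfl

private lemma m0_amb (ι : Type) : Amb (m0_M ι) where
  tf := by
    intro n x hn hx
    apply Subtype.ext
    funext i
    have h1 : (n • x : m0_M ι).1 i = 0 := by rw [hx]; rfl
    have h2 : (n • x : m0_M ι).1 i = (n : ℤ_[5]) * (x : ι → ℤ_[5]) i := by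
      rw [← zsmul_eq_mul]; rfl
    rw [h2] at h1
    rcases mul_eq_zero.1 h1 with h | h
    · exact absurd (by exact_mod_cast h) hn
    · exact h
  haus := by
    intro x hx
    apply Subtype.ext
    funext i
    exact m0_haus _ fun K => m0_dvd_of (hx K) i
  comp := by
    intro z
    have h1 : ∀ i : ι, ∃ x : ℤ_[5], ∀ K : ℕ,
        (5 : ℤ_[5]) ^ K ∣ x - ∑ n ∈ Finset.range K, (5 : ℤ_[5]) ^ n * (z n : ι → ℤ_[5]) i :=
      fun i => m0_comp _
    choose x hx using h1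
    choose y hy using hx
    -- `x i - ∑_{n < K} = 5 ^ K * y i K`
    have hmem : ∀ K : ℕ, (fun i => y i K) ∈ m0_M ι := by
      intro K
      rw [m0_mem]
      intro J
      have hfin : (⋃ n ∈ Finset.range J, {i | ¬ (5 : ℤ_[5]) ^ J ∣ (z (K + n) : ι → ℤ_[5]) i}).Finite :=
        Set.Finite.biUnion (Finset.finite_toSet _) fun n _ => m0_mem.1 (z (K + n)).2 J
      refine hfin.subset fun i hi => ?_
      by_contra hcon
      simp only [Set.mem_iUnion, Set.mem_setOf_eq, not_exists, not_not, Finset.mem_range] at hcon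
      apply hi
      have e1 := hy i K
      have e2 := hy i (K + J)
      rw [Finset.sum_range_add, pow_add] at e2
      have e3 : (5 : ℤ_[5]) ^ K * y i K =
          (5 : ℤ_[5]) ^ K * ((∑ n ∈ Finset.range J, (5 : ℤ_[5]) ^ n * (z (K + n) : ι → ℤ_[5]) i) +
            (5 : ℤ_[5]) ^ J * y i (K + J)) := by
        rw [← e1, mul_add, ← mul_assoc, ← e2, Finset.mul_sum]
        have : ∑ n ∈ Finset.range J, (5 : ℤ_[5]) ^ (K + n) * (z (K + n) : ι → ℤ_[5]) i =
            ∑ n ∈ Finset.range J, (5 : ℤ_[5]) ^ K * ((5 : ℤ_[5]) ^ n * (z (K + n) : ι → ℤ_[5]) i) := by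
          refine Finset.sum_congr rfl fun n _ => ?_
          rw [pow_add, mul_assoc]
        rw [this]
        ring
      have h5 : (5 : ℤ_[5]) ^ K ≠ 0 := pow_ne_zero _ (by norm_num)
      have e4 := mul_left_cancel₀ h5 e3
      show (5 : ℤ_[5]) ^ J ∣ y i K
      rw [e4]
      refine dvd_add (Finset.dvd_sum fun n hn => ?_) (Dvd.intro _ rfl)
      exact Dvd.dvd.mul_left (hcon n (Finset.mem_range.1 hn)) _
    have hx0 : x = fun i => y i 0 := by
      funext i
      have := hy i 0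
      simpa using this
    refine ⟨⟨x, by rw [hx0]; exact hmem 0⟩, fun K => ⟨⟨fun i => y i K, hmem K⟩, ?_⟩⟩
    apply Subtype.ext
    funext i
    have e1 := hy i K
    have e2 : ((⟨x, by rw [hx0]; exact hmem 0⟩ : m0_M ι) -
        ∑ n ∈ Finset.range K, (5 : ℤ) ^ n • z n : m0_M ι).1 i =
        x i - ∑ n ∈ Finset.range K, (5 : ℤ_[5]) ^ n * (z n : ι → ℤ_[5]) i := by
      rw [AddSubgroup.coe_sub, AddSubgroup.val_finset_sum, Pi.sub_apply, Finset.sum_apply]
      congr 1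
      refine Finset.sum_congr rfl fun n _ => ?_
      rw [← m0_zsmul]
      rfl
    have e3 : ((5 : ℤ) ^ K • (⟨fun i => y i K, hmem K⟩ : m0_M ι) : m0_M ι).1 i =
        (5 : ℤ_[5]) ^ K * y i K := by
      rw [← m0_zsmul]
      rfl
    rw [e2, e3, e1]

/-- finitely supported natural vectors -/
private noncomputable def m0_F (ι : Type) (u : ι →₀ ℕ) : m0_M ι :=
  ⟨fun i => (u i : ℤ_[5]), by
    rw [m0_mem]
    intro K
    refine u.support.finite_toSet.subset fun i hi => ?_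
    by_contra hcon
    apply hi
    have : u i = 0 := by simpa using hcon
    simp [this]⟩

private lemma m0_F_inj (ι : Type) : Function.Injective (m0_F ι) := by
  intro u v h
  ext i
  have := congrFun (congrArg Subtype.val h) i
  simp only [m0_F] at this
  exact_mod_cast this

private lemma m0_dense (ι : Type) (z : m0_M ι) (K : ℕ) :
    ∃ u ∈ Set.range (m0_F ι), z - u ∈ dv (m0_M ι) K := by
  classical
  let u : ι →₀ ℕ := Finsupp.onFinset (m0_mem.1 z.2 K).toFinset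
    (fun i => if (5 : ℤ_[5]) ^ K ∣ (z : ι → ℤ_[5]) i then 0 else ((z : ι → ℤ_[5]) i).appr K) (by
      intro i hi
      rw [Set.Finite.mem_toFinset]
      intro h
      exact hi (if_pos h))
  have hu : ∀ i, u i = if (5 : ℤ_[5]) ^ K ∣ (z : ι → ℤ_[5]) i then 0 else
      ((z : ι → ℤ_[5]) i).appr K := fun i => rfl
  have h1 : ∀ i, (5 : ℤ_[5]) ^ K ∣ (z : ι → ℤ_[5]) i - (u i : ℤ_[5]) := by
    intro i
    rw [hu]
    split_ifs with h
    · simpa using h
    · have := PadicInt.appr_spec K ((z : ι → ℤ_[5]) i)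
      rw [Ideal.mem_span_singleton] at this
      exact_mod_cast this
  choose y hy using h1
  refine ⟨m0_F ι u, ⟨u, rfl⟩, ⟨⟨y, ?_⟩, ?_⟩⟩
  · rw [m0_mem]
    intro J
    refine (m0_mem.1 z.2 (K + J)).subset fun i hi h => hi ?_
    have h2 : u i = 0 := by
      rw [hu, if_pos]
      exact (pow_dvd_pow _ (Nat.le_add_right K J)).trans h
    have h3 := hy i
    rw [h2] at h3
    simp only [Nat.cast_zero, sub_zero] at h3
    rw [h3, pow_add] at h
    exact (mul_dvd_mul_iff_left (pow_ne_zero _ (by norm_num))).1 h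
  · apply Subtype.ext
    funext i
    have e3 : ((5 : ℤ) ^ K • (⟨y, by
        rw [m0_mem]
        intro J
        refine (m0_mem.1 z.2 (K + J)).subset fun i hi h => hi ?_
        have h2 : u i = 0 := by
          rw [hu, if_pos]
          exact (pow_dvd_pow _ (Nat.le_add_right K J)).trans h
        have h3 := hy i
        rw [h2] at h3
        simp only [Nat.cast_zero, sub_zero] at h3
        rw [h3, pow_add] at h
        exact (mul_dvd_mul_iff_left (pow_ne_zero _ (by norm_num))).1 h⟩ : m0_M ι) : m0_M ι).1 i =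
        (5 : ℤ_[5]) ^ K * y i := by
      rw [← m0_zsmul]
      rfl
    rw [e3, ← hy i]
    rfl

private lemma m0_card (ι : Type) [Infinite ι] : #(m0_M ι) ≤ 2 ^ #ι := by
  have hinj : Function.Injective
      (fun (x : m0_M ι) => fun (p : ι × ℕ) => ((x : ι → ℤ_[5]) p.1).appr p.2) := by
    intro x y h
    apply Subtype.ext
    funext i
    rw [← sub_eq_zero]
    apply m0_haus
    intro n
    have h1 := congrFun h (i, n)
    simp only at h1
    have h2 := PadicInt.appr_spec n ((x : ι → ℤ_[5]) i)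
    have h3 := PadicInt.appr_spec n ((y : ι → ℤ_[5]) i)
    rw [Ideal.mem_span_singleton] at h2 h3
    rw [h1] at h2
    have h4 := dvd_sub h2 h3
    have e : (x : ι → ℤ_[5]) i - (y : ι → ℤ_[5]) i =
      (x : ι → ℤ_[5]) i - (((y : ι → ℤ_[5]) i).appr n : ℤ_[5]) -
        ((y : ι → ℤ_[5]) i - (((y : ι → ℤ_[5]) i).appr n : ℤ_[5])) := by ring
    rw [e]
    exact_mod_cast h4
  have h1 : #(m0_M ι) ≤ #(ι × ℕ → ℕ) := Cardinal.mk_le_of_injective hinj
  refine h1.trans ?_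
  have hι : ℵ₀ ≤ #ι := Cardinal.infinite_iff.1 inferInstance
  have h2 : #(ι × ℕ → ℕ) = ℵ₀ ^ (#ι * ℵ₀) := by simp
  rw [h2, Cardinal.mul_aleph0_eq hι, ← Cardinal.power_self_eq hι]
  exact Cardinal.power_le_power_right hι

theorem p_M0 : S_M0 := by
  intro ι hι
  refine ⟨m0_M ι, inferInstance, Set.range (m0_F ι), m0_amb ι, ?_, m0_dense ι, m0_card ι⟩
  rw [Cardinal.mk_range_eq _ (m0_F_inj ι), Cardinal.mk_finsupp_nat]
  exact max_eq_left (Cardinal.infinite_iff.1 inferInstance)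

end Pool.Agent.CN
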