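import Pool.Agent.Lib.MP_764a00_al.Stm

set_option autoImplicit false

namespace Pool.Agent.CN

private theorem mg_lin {Λ : Type} [AddCommGroup Λ] [LinearOrder Λ] [IsOrderedAddMonoid Λ]
    (c : ℤ) (hc : 2 ≤ c) (E1 E2 U : Λ) (h : |c • E1 - U| ≤ |c • E2 - U|) :
    |c • ((E1 - |c • E1 - U|) ⊔ (E2 - |c • E2 - U|)) - U| ≤ (c + 1) • |c • E1 - U| := by
  set D1 := c • E1 - U with hD1
  set D2 := c • E2 - U with hD2
  have hc0 : 0 < c := by omega
  have h1 : E2 - E1 ≤ |D2| := by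
    rw [← zsmul_le_zsmul_iff_right hc0]
    have e1 : c • (E2 - E1) = D2 - D1 := by
      rw [hD1, hD2, smul_sub]; abel
    rw [e1]
    have e2 : D2 - D1 ≤ |D2| + |D1| := by
      rw [sub_eq_add_neg]
      exact add_le_add (le_abs_self _) (neg_le_abs _)
    have e3 : |D2| + |D1| ≤ (2 : ℤ) • |D2| := by
      rw [two_zsmul]
      exact add_le_add_right h _
    exact e2.trans (e3.trans (zsmul_le_zsmul_left (abs_nonneg _) hc))
  set E := (E1 - |D1|) ⊔ (E2 - |D2|) with hE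
  have hle : E ≤ E1 := by
    refine sup_le ?_ ?_
    · exact sub_le_self _ (abs_nonneg _)
    · rw [sub_le_iff_le_add]
      rw [sub_le_iff_le_add] at h1
      rwa [add_comm] at h1
  have hge : E1 - |D1| ≤ E := le_sup_left
  have hU : c • E1 = D1 + U := by rw [hD1]; abel
  have hc1 : |D1| ≤ (c + 1) • |D1| := by
    have := zsmul_le_zsmul_left (abs_nonneg D1) (show (1 : ℤ) ≤ c + 1 by omega)
    rwa [one_zsmul] at this
  rw [abs_le]
  constructor
  · have h3 := zsmul_le_zsmul_right hc0.le hge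
    rw [smul_sub, hU] at h3
    have h4 : -((c + 1) • |D1|) ≤ D1 - c • |D1| := by
      rw [add_zsmul, one_zsmul, neg_add]
      have := neg_abs_le D1
      calc -(c • |D1|) + -|D1| ≤ -(c • |D1|) + D1 := add_le_add_right this _
        _ = D1 - c • |D1| := by abel
    refine h4.trans ?_
    have h5 : D1 - c • |D1| = (D1 + U - c • |D1|) - U := by abel
    rw [h5]
    exact sub_le_sub_right h3 _
  · have h3 := zsmul_le_zsmul_right hc0.le hle
    rw [hU] at h3
    have h4 : c • E - U ≤ D1 := by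
      rw [sub_le_iff_le_add]; exact h3
    exact h4.trans ((le_abs_self _).trans hc1)

private theorem mg_lin2 {Λ : Type} [AddCommGroup Λ] [LinearOrder Λ] [IsOrderedAddMonoid Λ]
    (c : ℤ) (hc : 2 ≤ c) (E1 E2 U : Λ) :
    |c • ((E1 - |c • E1 - U|) ⊔ (E2 - |c • E2 - U|)) - U| ≤
      (c + 1) • (|c • E1 - U| ⊓ |c • E2 - U|) := by
  rcases le_total |c • E1 - U| |c • E2 - U| with h | h
  · rw [inf_eq_left.2 h]
    exact mg_lin c hc E1 E2 U h
  · rw [inf_eq_right.2 h, sup_comm]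
    exact mg_lin c hc E2 E1 U h

theorem p_MG (ht : S_TR) : S_MG := by
  intro N _ _ _ K u e₁ e₂
  rcases Nat.eq_zero_or_pos K with hK | hK
  · subst hK
    refine ⟨u, ?_⟩
    rw [pow_zero, one_zsmul, sub_self, abs_zero]
    have h0 : (0 : N) ≤ |(1 : ℤ) • e₁ - u| ⊓ |(1 : ℤ) • e₂ - u| :=
      le_inf (abs_nonneg _) (abs_nonneg _)
    exact zsmul_nonneg h0 (by norm_num)
  · have hc : (2 : ℤ) ≤ (5 : ℤ) ^ K := by
      calc (2 : ℤ) ≤ 5 ^ 1 := by norm_num
        _ ≤ 5 ^ K := pow_le_pow_right₀ (by norm_num) hK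
    refine ⟨(e₁ - |(5 : ℤ) ^ K • e₁ - u|) ⊔ (e₂ - |(5 : ℤ) ^ K • e₂ - u|), ?_⟩
    apply ht
    intro Λ _ _ _ π hs hi
    have habs : ∀ x : N, π |x| = |π x| := by
      intro x
      change π (x ⊔ -x) = π x ⊔ -π x
      rw [hs, map_neg]
    simp only [habs, map_sub, map_zsmul, hs, hi]
    exact mg_lin2 _ hc _ _ _

end Pool.Agent.CN
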