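import Pool.Agent.Lib.MP_764a00_al.Stm

/-! [764 MU] cofinal sequences of cardinals. (helper21) -/

namespace Pool.Agent.CN

open Cardinal

set_option linter.deprecated false in
theorem p_MU : S_MU := by
  intro lam κ hlam hcof hκ
  obtain ⟨ι, f, hf, hι⟩ := Ordinal.exists_lsub_cof lam.ord
  rw [hcof] at hι
  have hcount : Nonempty (ι ≃ ℕ) := by
    have h1 : #ι = #ℕ := by rw [hι, Cardinal.mk_nat]
    exact Cardinal.eq.1 h1
  obtain ⟨φ⟩ := hcount
  let c : ℕ → Cardinal.{0} := fun n => (f (φ.symm n)).card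
  have hc : ∀ n, c n < lam := by
    intro n
    rw [← Cardinal.lt_ord, ← hf]
    exact Ordinal.lt_lsub f _
  have hc2 : ∀ χ < lam, ∃ n, χ ≤ c n := by
    intro χ hχ
    have h1 : χ.ord < Ordinal.lsub f := by rw [hf]; exact Cardinal.ord_lt_ord.2 hχ
    obtain ⟨i, hi⟩ := (Ordinal.lt_lsub_iff).1 h1
    refine ⟨φ i, ?_⟩
    show χ ≤ (f (φ.symm (φ i))).card
    rw [Equiv.symm_apply_apply]
    exact Cardinal.ord_le.1 hi
  let μ : ℕ → Cardinal.{0} := fun n => Nat.rec (max κ (c 0)) (fun n m => max m (c (n + 1))) n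
  have hμs : ∀ n, μ (n + 1) = max (μ n) (c (n + 1)) := fun n => rfl
  have hμ0 : μ 0 = max κ (c 0) := rfl
  have hcμ : ∀ n, c n ≤ μ n := by
    intro n
    cases n with
    | zero => rw [hμ0]; exact le_max_right _ _
    | succ n => rw [hμs]; exact le_max_right _ _
  refine ⟨μ, ?_, ?_, ?_, ?_⟩
  · apply monotone_nat_of_le_succ
    intro n
    rw [hμs]; exact le_max_left _ _
  · intro n
    induction n with
    | zero => rw [hμ0]; exact max_lt hκ (hc 0)
    | succ n ih => rw [hμs]; exact max_lt ih (hc _)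
  · rw [hμ0]; exact le_max_left _ _
  · intro χ hχ
    obtain ⟨n, hn⟩ := hc2 χ hχ
    exact ⟨n, hn.trans (hcμ n)⟩

end Pool.Agent.CN
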