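import Pool.Agent.Lib.MP_764a00_al.Stm

/-! Patching (S_PT). -/

namespace Pool.Agent.CN

private theorem pt_add_inf {N : Type} [AddCommGroup N] [Lattice N] [IsOrderedAddMonoid N]
    {a b z : N} (ha : 0 ≤ a) (hb : 0 ≤ b) (hz : 0 ≤ z) : (a + b) ⊓ z ≤ a ⊓ z + b ⊓ z := by
  rw [inf_add, add_inf, add_inf]
  refine le_inf (le_inf inf_le_left (inf_le_right.trans ?_)) (le_inf (inf_le_right.trans ?_)
    (inf_le_right.trans ?_))
  · exact le_add_of_nonneg_left ha
  · exact le_add_of_nonneg_right hb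
  · exact le_add_of_nonneg_left hz

private theorem pt_nsmul_inf {N : Type} [AddCommGroup N] [Lattice N] [IsOrderedAddMonoid N]
    {y z : N} (hy : 0 ≤ y) (hz : 0 ≤ z) (C : ℕ) : (C • y) ⊓ z ≤ C • (y ⊓ z) := by
  induction C with
  | zero => rw [zero_smul, zero_smul]; exact inf_le_left
  | succ C ih =>
    rw [succ_nsmul, succ_nsmul]
    exact (pt_add_inf (nsmul_nonneg hy C) hy hz).trans (add_le_add ih le_rfl)

private theorem pt_pure {M : Type} [AddCommGroup M] (L : LG M) (hp : L.Pure) (K : ℕ) :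
    ∀ z : M, (5 : ℤ) ^ K • z ∈ L.N → z ∈ L.N := by
  induction K with
  | zero => intro z hz; simpa using hz
  | succ K ih =>
    intro z hz
    apply ih
    apply hp
    rw [smul_smul, ← pow_succ']
    exact hz

theorem p_PT (h1 : S_U1) (h3 : S_U3) (hg : S_MG) : S_PT := by
  intro M _ L hM hp hd w g K hw hF
  obtain ⟨u, hu⟩ := hd g K
  -- Claim A
  have hA : ∀ F : Ultra L.N, w ∈ F.F → ∃ e : L.N, |(5 : ℤ) ^ K • e - u| ∉ F.F := by
    intro F hwF
    obtain ⟨q, hq, hgq⟩ := hF F hwF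
    have h5 : (u : M) - q ∈ dv M K := by
      have : (u : M) - q = (g - q) - (g - u) := by abel
      rw [this]
      exact sub_mem hgq hu
    obtain ⟨y, hy⟩ := h5
    have hyN : y ∈ L.N := by
      apply pt_pure L hp K
      rw [← hy]
      exact sub_mem u.2 q.2
    refine ⟨⟨y, hyN⟩, ?_⟩
    have h6 : (5 : ℤ) ^ K • (⟨y, hyN⟩ : L.N) - u = -q := by
      apply Subtype.ext
      push_cast
      rw [← hy]
      abel
    rw [h6, abs_neg]
    exact hq
  -- Claim C
  have hC : ∀ (T : Finset L.N) (hT : T.Nonempty),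
      (T : Set L.N) ⊆ insert w (Set.range (fun e : L.N => |(5 : ℤ) ^ K • e - u|)) →
      0 ≤ T.inf' hT id ∧
      ∃ (e : L.N) (C : ℕ), |(5 : ℤ) ^ K • e - u| ⊓ w ≤ C • T.inf' hT id := by
    intro T hT
    induction hT using Finset.Nonempty.cons_induction with
    | singleton a =>
      intro hS
      rw [Finset.coe_singleton, Set.singleton_subset_iff] at hS
      rw [Finset.inf'_singleton, id]
      rcases hS with rfl | ⟨e, rfl⟩
      · exact ⟨hw, 0, 1, by rw [one_smul]; exact inf_le_right⟩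
      · exact ⟨abs_nonneg _, e, 1, by rw [one_smul]; exact inf_le_left⟩
    | cons a T ha hT ih =>
      intro hS
      rw [Finset.coe_cons, Set.insert_subset_iff] at hS
      obtain ⟨ih0, e', C', ih1⟩ := ih hS.2
      rw [Finset.inf'_cons hT, id]
      rcases hS.1 with rfl | ⟨e₂, rfl⟩
      · refine ⟨le_inf hw ih0, e', C', ?_⟩
        calc |(5 : ℤ) ^ K • e' - u| ⊓ a ≤ (C' • T.inf' hT id) ⊓ a := le_inf ih1 inf_le_right
          _ ≤ C' • (T.inf' hT id ⊓ a) := pt_nsmul_inf ih0 hw C'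
          _ = C' • (a ⊓ T.inf' hT id) := by rw [inf_comm]
      · have ha0 : 0 ≤ |(5 : ℤ) ^ K • e₂ - u| := abs_nonneg _
        refine ⟨le_inf ha0 ih0, ?_⟩
        obtain ⟨e, he⟩ := hg L.N K u e' e₂
        have h5 : ((5 : ℤ) ^ K + 1) • (|(5 : ℤ) ^ K • e' - u| ⊓ |(5 : ℤ) ^ K • e₂ - u|) =
            (5 ^ K + 1 : ℕ) • (|(5 : ℤ) ^ K • e' - u| ⊓ |(5 : ℤ) ^ K • e₂ - u|) := by
          rw [← natCast_zsmul]
          congr 1
        rw [h5] at he
        refine ⟨e, (5 ^ K + 1) * C', ?_⟩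
        have hn : 0 ≤ |(5 : ℤ) ^ K • e' - u| ⊓ |(5 : ℤ) ^ K • e₂ - u| :=
          le_inf (abs_nonneg _) (abs_nonneg _)
        calc |(5 : ℤ) ^ K • e - u| ⊓ w
            ≤ ((5 ^ K + 1 : ℕ) • (|(5 : ℤ) ^ K • e' - u| ⊓ |(5 : ℤ) ^ K • e₂ - u|)) ⊓ w :=
              inf_le_inf_right _ he
          _ ≤ (5 ^ K + 1 : ℕ) • ((|(5 : ℤ) ^ K • e' - u| ⊓ |(5 : ℤ) ^ K • e₂ - u|) ⊓ w) :=
              pt_nsmul_inf hn hw _
          _ ≤ (5 ^ K + 1 : ℕ) • (C' • (|(5 : ℤ) ^ K • e₂ - u| ⊓ T.inf' hT id)) := by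
              apply nsmul_le_nsmul_right
              calc (|(5 : ℤ) ^ K • e' - u| ⊓ |(5 : ℤ) ^ K • e₂ - u|) ⊓ w
                  ≤ (C' • T.inf' hT id) ⊓ |(5 : ℤ) ^ K • e₂ - u| := by
                    refine le_inf ?_ (inf_le_left.trans inf_le_right)
                    exact (le_inf (inf_le_left.trans inf_le_left) inf_le_right).trans ih1
                _ ≤ C' • (T.inf' hT id ⊓ |(5 : ℤ) ^ K • e₂ - u|) := pt_nsmul_inf ih0 ha0 C'
                _ = _ := by rw [inf_comm]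
          _ = ((5 ^ K + 1) * C') • (|(5 : ℤ) ^ K • e₂ - u| ⊓ T.inf' hT id) := by
              rw [mul_smul]
  -- there is T with infimum zero
  by_cases hex : ∃ (T : Finset L.N) (hT : T.Nonempty),
      (T : Set L.N) ⊆ insert w (Set.range (fun e : L.N => |(5 : ℤ) ^ K • e - u|)) ∧
      T.inf' hT id = 0
  · obtain ⟨T, hT, hTS, hT0⟩ := hex
    obtain ⟨-, e, C, he⟩ := hC T hT hTS
    rw [hT0, smul_zero] at he
    refine ⟨u - (5 : ℤ) ^ K • e, ?_, ?_⟩
    · rw [abs_sub_comm]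
      exact le_antisymm he (le_inf (abs_nonneg _) hw)
    · have : g - ((u - (5 : ℤ) ^ K • e : L.N) : M) = (g - u) + (5 : ℤ) ^ K • (e : M) := by
        push_cast
        abel
      rw [this]
      exact add_mem hu ⟨e, rfl⟩
  · exfalso
    push Not at hex
    obtain ⟨F, hFS⟩ := h1 L.N (insert w (Set.range (fun e : L.N => |(5 : ℤ) ^ K • e - u|)))
      ⟨w, Set.mem_insert _ _⟩
      (by
        rintro a (rfl | ⟨e, rfl⟩)
        · exact hw
        · exact abs_nonneg _)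
      (fun T hT hTS => hex T hT hTS)
    obtain ⟨e, he⟩ := hA F (hFS (Set.mem_insert _ _))
    exact he (hFS (Set.mem_insert_of_mem _ ⟨e, rfl⟩))

end Pool.Agent.CN
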