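import Pool.Agent.Lib.MP_764a00_al.Stm

/-!
# MP_764a00_al : the sets `cq` are subgroups (helper81)
-/

namespace Pool.Agent.CN

theorem p_QS (h3 : S_U3) : S_QS := by
  intro M _ L _hM _hP F K
  obtain ⟨h1, -, -, -, -⟩ := h3 L.N F
  have hz : |(0 : L.N)| ∉ F.F := by rw [abs_zero]; exact F.zero
  let A : AddSubgroup M :=
    { carrier := cq L F K
      add_mem' := by
        rintro a b ⟨q, hq, ha⟩ ⟨r, hr, hb⟩
        refine ⟨q + r, h1 q r hq hr, ?_⟩
        have e : a + b - ((q + r : L.N) : M) = (a - q) + (b - r) := by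
          rw [AddSubgroup.coe_add]; abel
        rw [e]
        exact (dv M K).add_mem ha hb
      zero_mem' := ⟨0, hz, by simpa using (dv M K).zero_mem⟩
      neg_mem' := by
        rintro a ⟨q, hq, ha⟩
        refine ⟨-q, by rw [abs_neg]; exact hq, ?_⟩
        have e : -a - ((-q : L.N) : M) = -(a - q) := by
          rw [AddSubgroup.coe_neg]; abel
        rw [e]
        exact (dv M K).neg_mem ha }
  have hdv : dv M K ≤ A := by
    intro z hzz
    refine ⟨0, hz, ?_⟩
    simpa using hzz
  refine ⟨A, rfl, hdv, ?_, ?_⟩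
  · intro q hq
    refine ⟨q, hq, ?_⟩
    rw [sub_self]
    exact (dv M K).zero_mem
  · intro c z hc hcz
    have hco : IsCoprime ((5 : ℤ) ^ K) c := by
      apply IsCoprime.pow_left
      rw [Int.isCoprime_iff_gcd_eq_one]
      have h5 : (5 : ℤ).natAbs.Prime := by norm_num
      rw [Int.gcd_eq_natAbs]
      refine (Nat.Prime.coprime_iff_not_dvd h5).2 fun hd => hc ?_
      exact Int.natAbs_dvd_natAbs.1 hd
    obtain ⟨β, α, hab⟩ := hco
    have e : z = α • (c • z) + (5 : ℤ) ^ K • (β • z) := by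
      rw [smul_smul, smul_smul, ← add_smul, mul_comm ((5 : ℤ) ^ K) β, add_comm (α * c), hab,
        one_smul]
    rw [e]
    exact A.add_mem (A.zsmul_mem hcz α) (hdv ⟨β • z, rfl⟩)

end Pool.Agent.CN
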