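import Pool.Agent.Lib.MP_764a00_al.Stm

/-!
# MP_764a00_al : elements with equal truncations
-/

namespace Pool.Agent.CN

section
variable {N : Type} [AddCommGroup N] [Lattice N] [IsOrderedAddMonoid N]

private theorem r1_mono {Λ : Type} [AddCommGroup Λ] [LinearOrder Λ] [IsOrderedAddMonoid Λ]
    (π : N →+ Λ) (hs : ∀ x y, π (x ⊔ y) = π x ⊔ π y) : ∀ x y : N, x ≤ y → π x ≤ π y := by
  intro x y hxy
  have := hs x y
  rw [sup_eq_right.2 hxy] at this
  rw [this]; exact le_sup_left

private theorem r1_half (ht : S_TR) (hA : Ar N) (z u u' : N) (hz : 0 ≤ z)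
    (hu' : 0 ≤ u') (h : ∀ n : ℕ, u ⊓ n • z = u' ⊓ n • z) : ((u - u') ⊔ 0) ⊓ z = 0 := by
  have key : ∀ n : ℕ, n • (((u - u') ⊔ 0) ⊓ z) ≤ u' := by
    intro n
    apply ht N
    intro Λ _ _ _ π hs hi
    have hmono := r1_mono π hs
    have hz' : 0 ≤ π z := by simpa using hmono _ _ hz
    have hu1 : 0 ≤ π u' := by simpa using hmono _ _ hu'
    have hn := congrArg π (h n)
    rw [hi, hi, map_nsmul] at hn
    rw [map_nsmul, hi, hs, map_sub, map_zero]
    by_cases hc : π u ≤ π u'
    · rw [sup_eq_right.2 (sub_nonpos.2 hc), inf_eq_left.2 hz', smul_zero]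
      exact hu1
    · push Not at hc
      have h1 : n • π z ≤ π u' := by
        by_contra hcon
        push Not at hcon
        rw [inf_eq_left.2 hcon.le] at hn
        rcases min_choice (π u) (n • π z) with h2 | h2
        · rw [h2] at hn; exact absurd hn hc.ne'
        · rw [h2] at hn; exact absurd hn hcon.ne'
      calc n • (((π u - π u') ⊔ 0) ⊓ π z) ≤ n • π z := nsmul_le_nsmul_right inf_le_right n
        _ ≤ π u' := h1
  exact le_antisymm (hA _ _ key) (le_inf le_sup_right hz)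

end

theorem p_R1 (ht : S_TR) : S_R1 := by
  intro N _ _ _ hA z u u' hz hu hu' h
  have h1 := r1_half ht hA z u u' hz hu' h
  have h2 := r1_half ht hA z u' u hz hu (fun n => (h n).symm)
  apply le_antisymm _ (le_inf (abs_nonneg _) hz)
  have h3 : |u - u'| ⊓ z ≤ ((u' - u) ⊔ 0) ⊓ z + ((u - u') ⊔ 0) ⊓ z → |u - u'| ⊓ z ≤ 0 := by
    intro h4; rwa [h1, h2, add_zero] at h4
  apply h3
  apply ht N
  intro Λ _ _ _ π hs hi
  have hmono := r1_mono π hs
  have hz' : 0 ≤ π z := by simpa using hmono _ _ hz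
  have habs : π |u - u'| = |π u - π u'| := by
    rw [abs, hs, map_neg, map_sub]; rfl
  rw [hi, habs, map_add, hi, hi, hs, hs, map_sub, map_sub, map_zero]
  rcases le_total (π u) (π u') with hc | hc
  · rw [abs_of_nonpos (sub_nonpos.2 hc), neg_sub, sup_eq_left.2 (sub_nonneg.2 hc)]
    exact le_add_of_nonneg_right (le_inf le_sup_right hz')
  · rw [abs_of_nonneg (sub_nonneg.2 hc), sup_eq_left.2 (sub_nonneg.2 hc)]
    exact le_add_of_nonneg_left (le_inf le_sup_right hz')

end Pool.Agent.CN
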