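import Pool.Agent.Lib.MP_764a00_al.Stm

/-!
# MP_764a00_al : elements modulo a polar
-/

namespace Pool.Agent.CN

open Cardinal

theorem r2_add {N : Type} [AddCommGroup N] [Lattice N] [IsOrderedAddMonoid N] {a b c : N}
    (ha : 0 ≤ a) (hb : 0 ≤ b) (hc : 0 ≤ c) (h1 : a ⊓ b = 0) (h2 : a ⊓ c = 0) :
    a ⊓ (b + c) = 0 := by
  apply le_antisymm
  · have h3 : a ⊓ (b + c) - c ≤ a ⊓ b := by
      refine le_inf ?_ ?_
      · exact (sub_le_self _ hc).trans inf_le_left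
      · rw [sub_le_iff_le_add]
        exact inf_le_right
    rw [h1, sub_nonpos] at h3
    rw [← h2]
    exact le_inf inf_le_left h3
  · exact le_inf ha (add_nonneg hb hc)

theorem r2_nsmul {N : Type} [AddCommGroup N] [Lattice N] [IsOrderedAddMonoid N] {a b : N}
    (ha : 0 ≤ a) (hb : 0 ≤ b) (h : a ⊓ b = 0) (n : ℕ) : a ⊓ n • b = 0 := by
  induction n with
  | zero => rw [zero_smul]; exact inf_eq_right.2 ha
  | succ n ih =>
    rw [succ_nsmul]
    exact r2_add ha (nsmul_nonneg hb n) hb ih h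

theorem r2_mem {N : Type} [AddCommGroup N] [Lattice N] [IsOrderedAddMonoid N] {z v : N}
    (hz : 0 ≤ z) (hv : 0 ≤ v) (n : ℕ) (h : v ≤ n • z) : v ∈ perp (perp {z}) := by
  intro w hw
  have h1 : |w| ⊓ z = 0 := by
    have := hw z (Set.mem_singleton z)
    rwa [abs_of_nonneg hz] at this
  have h2 := r2_nsmul (abs_nonneg w) hz h1 n
  rw [abs_of_nonneg hv]
  apply le_antisymm
  · rw [← h2]
    exact le_inf inf_le_right (inf_le_left.trans h)
  · exact le_inf hv (abs_nonneg w)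

theorem p_R2 (h1 : S_R1) : S_R2 := by
  intro N _ _ _ hN z hz
  refine ⟨fun u => (fun n => ⟨u⁺ ⊓ n • z, r2_mem hz (le_inf (posPart_nonneg u)
    (nsmul_nonneg hz n)) n inf_le_right⟩, fun n => ⟨u⁻ ⊓ n • z, r2_mem hz
      (le_inf (negPart_nonneg u) (nsmul_nonneg hz n)) n inf_le_right⟩), fun u u' h => ?_⟩
  have e1 : ∀ n : ℕ, u⁺ ⊓ n • z = u'⁺ ⊓ n • z := fun n =>
    congrArg Subtype.val (congrFun (congrArg Prod.fst h) n)
  have e2 : ∀ n : ℕ, u⁻ ⊓ n • z = u'⁻ ⊓ n • z := fun n =>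
    congrArg Subtype.val (congrFun (congrArg Prod.snd h) n)
  have f1 := h1 N hN z u⁺ u'⁺ hz (posPart_nonneg u) (posPart_nonneg u') e1
  have f2 := h1 N hN z u⁻ u'⁻ hz (negPart_nonneg u) (negPart_nonneg u') e2
  rw [inf_comm] at f1 f2
  have f3 := r2_add hz (abs_nonneg _) (abs_nonneg _) f1 f2
  have hle : |u - u'| ≤ |u⁺ - u'⁺| + |u⁻ - u'⁻| := by
    have : u - u' = (u⁺ - u'⁺) - (u⁻ - u'⁻) := by
      conv_lhs => rw [← posPart_sub_negPart u, ← posPart_sub_negPart u']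
      abel
    rw [this, sub_eq_add_neg]
    refine (abs_add_le _ _).trans ?_
    rw [abs_neg]
  intro w hw
  rw [Set.mem_singleton_iff.1 hw, abs_of_nonneg hz]
  apply le_antisymm
  · rw [← f3]
    exact le_inf inf_le_right (inf_le_left.trans hle)
  · exact le_inf (abs_nonneg _) hz

end Pool.Agent.CN
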