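import Pool.Agent.Lib.MP_764a00_al.Stm

/-!
# MP_764a00_al : totally ordered polars are small (helper81)
-/

namespace Pool.Agent.CN

open Cardinal

private theorem r3_disj {N : Type} [AddCommGroup N] [Lattice N] [IsOrderedAddMonoid N]
    {x y a : N} (hx0 : 0 ≤ x) (hy0 : 0 ≤ y) (ha : 0 ≤ a) (hx : x ⊓ a = 0) (hy : y ⊓ a = 0) :
    (x + y) ⊓ a = 0 := by
  apply le_antisymm
  · have h1 : (x + y) ⊓ a - y ≤ x := by
      rw [sub_le_iff_le_add]; exact inf_le_left
    have h2 : (x + y) ⊓ a - y ≤ a := (sub_le_self _ hy0).trans inf_le_right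
    have h3 : (x + y) ⊓ a - y ≤ 0 := by rw [← hx]; exact le_inf h1 h2
    have h4 : (x + y) ⊓ a ≤ y := sub_nonpos.1 h3
    rw [← hy]
    exact le_inf h4 inf_le_right
  · exact le_inf (add_nonneg hx0 hy0) ha

private theorem r3_solid {N : Type} [AddCommGroup N] [Lattice N] [IsOrderedAddMonoid N]
    {A : Set N} {u v : N} (hu : u ∈ perp A) (h : |v| ≤ |u|) : v ∈ perp A := by
  intro a ha
  apply le_antisymm
  · rw [← hu a ha]
    exact inf_le_inf_right _ h
  · exact le_inf (abs_nonneg _) (abs_nonneg _)

theorem p_R3 : S_R3 := by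
  intro N _ _ _ hAr A hA
  classical
  let W : AddSubgroup N :=
    { carrier := perp A
      add_mem' := by
        intro x y hx hy a ha
        apply le_antisymm
        · rw [← r3_disj (abs_nonneg x) (abs_nonneg y) (abs_nonneg a) (hx a ha) (hy a ha)]
          exact inf_le_inf_right _ (abs_add_le x y)
        · exact le_inf (abs_nonneg _) (abs_nonneg _)
      zero_mem' := by
        intro a _
        rw [abs_zero]
        exact inf_eq_left.2 (abs_nonneg a)
      neg_mem' := by
        intro x hx a ha
        rw [abs_neg]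
        exact hx a ha }
  have htot : ∀ u ∈ perp A, 0 ≤ u ∨ u ≤ 0 := by
    intro u hu
    have e1 : |u⁺| = u⁺ := abs_of_nonneg (posPart_nonneg u)
    have e2 : |u⁻| = u⁻ := abs_of_nonneg (negPart_nonneg u)
    have h1 : u⁺ ∈ perp A := r3_solid hu (by
      rw [e1, ← posPart_add_negPart u]
      exact le_add_of_nonneg_right (negPart_nonneg u))
    have h2 : u⁻ ∈ perp A := r3_solid hu (by
      rw [e2, ← posPart_add_negPart u]
      exact le_add_of_nonneg_left (posPart_nonneg u))
    have h3 : |u⁺| ⊓ |u⁻| = 0 := by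
      rw [e1, e2]; exact posPart_inf_negPart_eq_zero u
    rcases hA _ h1 _ h2 h3 with h | h
    · exact Or.inr (posPart_eq_zero.1 h)
    · exact Or.inl (negPart_eq_zero.1 h)
  have hcmp : ∀ x y : W, x ≤ y ∨ y ≤ x := by
    intro x y
    rcases htot ((y - x : W) : N) (y - x : W).2 with h | h
    · left
      rw [AddSubgroup.coe_sub] at h
      exact sub_nonneg.1 h
    · right
      rw [AddSubgroup.coe_sub] at h
      exact sub_nonpos.1 h
  letI lo : LinearOrder W :=
    { (inferInstance : PartialOrder W) with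
      le_total := hcmp
      toDecidableLE := Classical.decRel _ }
  haveI : IsOrderedAddMonoid W :=
    { add_le_add_left := fun x y h z => by
        have h' : (x : N) ≤ y := h
        change ((x + z : W) : N) ≤ ((y + z : W) : N)
        rw [AddSubgroup.coe_add, AddSubgroup.coe_add]
        exact add_le_add_left h' _ }
  haveI : Archimedean W := ⟨fun x y hy => by
    by_contra hcon
    push Not at hcon
    have h1 : ∀ n : ℕ, n • (y : N) ≤ x := fun n => by
      have h2 : n • y ≤ x := (hcon n).le
      have h3 : ((n • y : W) : N) ≤ x := h2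
      rwa [AddSubgroup.coe_nsmul] at h3
    have h4 : (y : N) ≤ 0 := hAr _ _ h1
    exact absurd (show y ≤ 0 from h4) (not_le.2 hy)⟩
  obtain ⟨f, hf⟩ := Archimedean.exists_orderAddMonoidHom_real_injective W
  calc #(perp A) = #W := rfl
    _ ≤ #ℝ := Cardinal.mk_le_of_injective hf
    _ = 2 ^ ℵ₀ := by rw [Cardinal.mk_real, Cardinal.two_power_aleph0]

end Pool.Agent.CN
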