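import Pool.Agent.Lib.MP_764a00_al.Stm

/-!
# MP_764a00_al : splitting a large polar
-/

namespace Pool.Agent.CN

open Cardinal

section

variable {N : Type} [AddCommGroup N] [Lattice N] [IsOrderedAddMonoid N]

omit [IsOrderedAddMonoid N] in
private theorem r4_anti {A B : Set N} (h : A ⊆ B) : perp B ⊆ perp A := fun _ hz a ha => hz a (h ha)

omit [IsOrderedAddMonoid N] in
private theorem r4_sub2 (A : Set N) : A ⊆ perp (perp A) := by
  intro a ha b hb
  rw [inf_comm]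
  exact hb a ha

omit [IsOrderedAddMonoid N] in
private theorem r4_three (A : Set N) : perp (perp (perp A)) = perp A :=
  Set.Subset.antisymm (r4_anti (r4_sub2 A)) (r4_sub2 (perp A))

omit [IsOrderedAddMonoid N] in
private theorem r4_union (A B : Set N) : perp (A ∪ B) = perp A ∩ perp B := by
  ext z
  constructor
  · intro h
    exact ⟨fun a ha => h a (Or.inl ha), fun a ha => h a (Or.inr ha)⟩
  · rintro ⟨h1, h2⟩ a (ha | ha)
    · exact h1 a ha
    · exact h2 a ha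

private theorem r4_inf_add {x y c : N} (hx : 0 ≤ x) (hy : 0 ≤ y) (hc : 0 ≤ c) :
    (x + y) ⊓ c ≤ x ⊓ c + y ⊓ c := by
  rw [inf_add, add_inf, add_inf]
  refine le_inf (le_inf inf_le_left ?_) (le_inf ?_ ?_)
  · exact inf_le_right.trans (le_add_of_nonneg_left hx)
  · exact inf_le_right.trans (le_add_of_nonneg_right hy)
  · exact inf_le_right.trans (le_add_of_nonneg_right hc)

private theorem r4_sub {A : Set N} {u v : N} (hu : u ∈ perp A) (hv : v ∈ perp A) :
    u - v ∈ perp A := by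
  intro a ha
  refine le_antisymm ?_ (le_inf (abs_nonneg _) (abs_nonneg _))
  calc |u - v| ⊓ |a| ≤ (|u| + |v|) ⊓ |a| := inf_le_inf_right _ (by
          have := abs_add_le u (-v)
          rwa [abs_neg, ← sub_eq_add_neg] at this)
    _ ≤ |u| ⊓ |a| + |v| ⊓ |a| := r4_inf_add (abs_nonneg _) (abs_nonneg _) (abs_nonneg _)
    _ = 0 := by rw [hu a ha, hv a ha, add_zero]

private theorem r4_zero {u : N} (hu : |u| = 0) : u = 0 :=
  le_antisymm (hu ▸ le_abs_self u) (neg_nonpos.1 (hu ▸ neg_le_abs u))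

private theorem r4_pos {u : N} (hu : u ≠ 0) : 0 < |u| :=
  lt_of_le_of_ne (abs_nonneg u) fun h => hu (r4_zero h.symm)

private theorem r4_abs {A : Set N} {u : N} (hu : u ∈ perp A) : |u| ∈ perp A := by
  intro a ha
  rw [abs_abs]
  exact hu a ha

end

/-- fibres -/
private theorem r4_fib {N Y : Type} [AddCommGroup N] (Z W : Set N) (Ψ : N → Y)
    (h : ∀ u ∈ Z, ∀ u' ∈ Z, Ψ u = Ψ u' → u - u' ∈ W) : #Z ≤ #Y * #W := by
  classical
  let rep : Y → N := fun y => if hy : ∃ u ∈ Z, Ψ u = y then hy.choose else 0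
  have hrep : ∀ u ∈ Z, rep (Ψ u) ∈ Z ∧ Ψ (rep (Ψ u)) = Ψ u := by
    intro u hu
    have hy : ∃ v ∈ Z, Ψ v = Ψ u := ⟨u, hu, rfl⟩
    have : rep (Ψ u) = hy.choose := dif_pos hy
    rw [this]
    exact hy.choose_spec
  have hpr : #(Y × W) = #Y * #W := by simp
  rw [← hpr]
  refine mk_le_of_injective (f := fun u : Z => (Ψ u, (⟨(u : N) - rep (Ψ u),
    h u u.2 _ (hrep u u.2).1 (hrep u u.2).2.symm⟩ : W))) ?_
  intro u u' huu
  simp only [Prod.mk.injEq, Subtype.mk.injEq] at huu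
  obtain ⟨h1, h2⟩ := huu
  rw [h1] at h2
  exact Subtype.ext (sub_left_injective h2)

/-- the size of the values -/
private theorem r4_val {T : Type} {lam : Cardinal.{0}} (_hs : lam.IsStrongLimit) (_hl : ℵ₀ < lam)
    (χ : Cardinal.{0}) (hχ : ℵ₀ ≤ χ) (hT : #T ≤ χ) :
    #((ℕ → T) × (ℕ → T)) ≤ 2 ^ χ := by
  have h1 : #(ℕ → T) ≤ 2 ^ χ := by
    rw [← Cardinal.power_def, mk_nat]
    calc #T ^ ℵ₀ ≤ (2 ^ χ) ^ χ :=
          (power_le_power_right (hT.trans (cantor χ).le)).trans (power_le_power_left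
            (power_ne_zero _ two_ne_zero) hχ)
      _ = 2 ^ χ := by rw [← power_mul, mul_eq_self hχ]
  have hpr : #((ℕ → T) × (ℕ → T)) = #(ℕ → T) * #(ℕ → T) := by rw [mk_prod, lift_id]
  rw [hpr]
  have h2 : ℵ₀ ≤ (2 : Cardinal.{0}) ^ χ := hχ.trans (cantor χ).le
  calc #(ℕ → T) * #(ℕ → T) ≤ 2 ^ χ * 2 ^ χ := mul_le_mul' h1 h1
    _ = 2 ^ χ := mul_eq_self h2

theorem p_R4 (h2 : S_R2) (h3 : S_R3) : S_R4 := by
  intro N _ _ _ hN lam χ₀ A hs hl hχ₀ hZ
  by_contra hcon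
  push Not at hcon
  set χ : Cardinal.{0} := max χ₀ ℵ₀ with hχdef
  have hχ : χ < lam := max_lt hχ₀ hl
  have hχa : ℵ₀ ≤ χ := le_max_right _ _
  have hlam : ℵ₀ ≤ lam := hl.le
  have H : ∀ C : Set N, perp C ⊆ perp A → χ ≤ #(perp C) → #(perp (A ∪ perp C)) < lam := by
    intro C h4 h5
    refine lt_of_le_of_ne ?_ (hcon C h4 ((le_max_left _ _).trans h5))
    rw [← hZ]
    exact mk_le_mk_of_subset (r4_anti Set.subset_union_left)
  -- the maximal family of small elements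
  obtain ⟨𝒜, h𝒜⟩ : ∃ 𝒜 : Set N, Maximal (fun S : Set N => (∀ z ∈ S, z ∈ perp A ∧ 0 < z ∧
      #(perp (perp {z})) < χ) ∧ S.Pairwise fun u v => |u| ⊓ |v| = 0) 𝒜 := by
    refine zorn_subset _ ?_
    intro c hc hchain
    refine ⟨⋃₀ c, ⟨?_, ?_⟩, fun s hs => Set.subset_sUnion_of_mem hs⟩
    · rintro z ⟨s, hs, hz⟩
      exact (hc hs).1 z hz
    · rintro u ⟨s, hs, hu⟩ v ⟨t, ht, hv⟩ huv
      rcases hchain.total hs ht with h | h
      · exact (hc ht).2 (h hu) hv huv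
      · exact (hc hs).2 hu (h hv) huv
  obtain ⟨⟨hA1, hA2⟩, hmax⟩ := h𝒜
  have hAZ : 𝒜 ⊆ perp A := fun z hz => (hA1 z hz).1
  -- (a)
  have ha : #𝒜 < lam := by
    by_contra h4
    rw [not_lt] at h4
    obtain ⟨𝒜₁, hs1, hs2⟩ := le_mk_iff_exists_subset.1 (hχ.le.trans h4)
    have h5 : #(𝒜 \ 𝒜₁ : Set N) + #𝒜₁ = #𝒜 := mk_sdiff_add_mk hs1
    have h6 : lam ≤ #(𝒜 \ 𝒜₁ : Set N) := by
      by_contra h7
      rw [not_le] at h7
      have := add_lt_of_lt hlam h7 (hs2.trans_lt hχ)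
      rw [h5] at this
      exact absurd h4 (not_le.2 this)
    have h7 := H (perp 𝒜₁) (by
      have := r4_anti (r4_anti (hs1.trans hAZ))
      rwa [r4_three] at this) (by
      rw [← hs2]
      exact mk_le_mk_of_subset (r4_sub2 _))
    rw [r4_union, r4_three] at h7
    refine absurd (h6.trans (mk_le_mk_of_subset ?_)) (not_le.2 h7)
    rintro z ⟨hz1, hz2⟩
    refine ⟨hAZ hz1, fun a ha' => hA2 hz1 (hs1 ha') ?_⟩
    rintro rfl
    exact hz2 ha'
  -- (b)
  have hb : lam ≤ #(perp (A ∪ 𝒜)) := by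
    by_contra h4
    rw [not_le] at h4
    have hP : ∀ z : 𝒜, ∃ Φ : N → (ℕ → perp (perp {(z : N)})) × (ℕ → perp (perp {(z : N)})),
        ∀ u u', Φ u = Φ u' → u - u' ∈ perp {(z : N)} := fun z => h2 N hN z (hA1 z z.2).2.1.le
    choose Φ hΦ using hP
    have h5 := r4_fib (perp A) (perp (A ∪ 𝒜)) (fun u => fun z : 𝒜 => Φ z u) (by
      intro u hu u' hu' huu
      rw [r4_union]
      refine ⟨r4_sub hu hu', fun a ha' => ?_⟩
      have := hΦ ⟨a, ha'⟩ u u' (congrFun huu ⟨a, ha'⟩)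
      exact this a rfl)
    have h6 : #((z : 𝒜) → (ℕ → perp (perp {(z : N)})) × (ℕ → perp (perp {(z : N)}))) < lam := by
      rw [mk_pi]
      refine lt_of_le_of_lt (prod_le_prod _ (fun _ => 2 ^ χ) fun z =>
        r4_val hs hl χ hχa (hA1 z z.2).2.2.le) ?_
      rw [prod_const', ← power_mul]
      exact hs.isStrongPrelimit (mul_lt_of_lt hlam hχ ha)
    rw [hZ] at h5
    exact absurd h5 (not_le.2 (mul_lt_of_lt hlam h6 h4))
  -- (c)
  have hc : ∀ z ∈ perp (A ∪ 𝒜), 0 < z → #(perp A ∩ perp {z} : Set N) < lam := by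
    intro z hz hz0
    rw [r4_union] at hz
    have hz1 : χ ≤ #(perp (perp {z})) := by
      by_contra h4
      rw [not_le] at h4
      have h5 : z ∈ 𝒜 := by
        refine hmax (y := insert z 𝒜) ⟨?_, ?_⟩ (Set.subset_insert _ _) (Set.mem_insert _ _)
        · rintro w (rfl | hw)
          · exact ⟨hz.1, hz0, h4⟩
          · exact hA1 w hw
        · refine hA2.insert fun w hw _ => ⟨hz.2 w hw, ?_⟩
          rw [inf_comm]
          exact hz.2 w hw
      have h6 := hz.2 z h5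
      rw [inf_idem] at h6
      exact absurd (r4_zero h6) hz0.ne'
    have h4 : perp (perp {z}) ⊆ perp A := by
      have h5 : ({z} : Set N) ⊆ perp A := by
        rintro w rfl
        exact hz.1
      have := r4_anti (r4_anti h5)
      rwa [r4_three] at this
    have h5 := H (perp {z}) h4 hz1
    rwa [r4_union, r4_three] at h5
  -- (d)
  have hd : ∀ z₁ ∈ perp (A ∪ 𝒜), ∀ z₂ ∈ perp (A ∪ 𝒜), 0 < z₁ → 0 < z₂ → |z₁| ⊓ |z₂| = 0 →
      False := by
    intro z₁ hz₁ z₂ hz₂ h01 h02 h12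
    have h4 : #(perp (perp {z₁})) < lam := by
      refine lt_of_le_of_lt (mk_le_mk_of_subset ?_) (hc z₂ hz₂ h02)
      have h5 : ({z₁} : Set N) ⊆ perp (A ∪ {z₂}) := by
        rintro w rfl
        rw [r4_union] at hz₁ ⊢
        refine ⟨hz₁.1, ?_⟩
        rintro a rfl
        exact h12
      have := r4_anti (r4_anti h5)
      rwa [r4_three, r4_union] at this
    obtain ⟨Φ, hΦ⟩ := h2 N hN z₁ h01.le
    have h5 := r4_fib (perp A) (perp A ∩ perp {z₁}) Φ (by
      intro u hu u' hu' huu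
      exact ⟨r4_sub hu hu', hΦ u u' huu⟩)
    rw [hZ] at h5
    refine absurd h5 (not_le.2 (mul_lt_of_lt hlam ?_ (hc z₁ hz₁ h01)))
    refine lt_of_le_of_lt (r4_val hs hl (max (#(perp (perp {z₁}))) ℵ₀) (le_max_right _ _)
      (le_max_left _ _)) (hs.isStrongPrelimit (max_lt h4 hl))
  have he := h3 N hN (A ∪ 𝒜) (by
    intro u hu v hv huv
    by_contra h4
    push Not at h4
    refine hd |u| (r4_abs hu) |v| (r4_abs hv) (r4_pos h4.1) (r4_pos h4.2) ?_
    rw [abs_abs, abs_abs]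
    exact huv)
  exact absurd (hb.trans he) (not_le.2 (hs.isStrongPrelimit hl))

end Pool.Agent.CN
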