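import Pool.Agent.Lib.MP_764a00_al.Stm

/-!
MP_764a00_al, piece R5: a sequence of large polars.
-/

namespace Pool.Agent.CN

open Cardinal

/-- a sequence of large polars -/
theorem p_R5 (h4 : S_R4) : S_R5 := by
  intro N _ _ _ hAr lam χ hsl h0 hχ hN
  have hstep : ∀ (n : ℕ) (A : {A : Set N // #(perp A) = lam}), ∃ C : Set N,
      perp C ⊆ perp A.1 ∧ χ n ≤ #(perp C) ∧ #(perp (A.1 ∪ perp C)) = lam := fun n A =>
    h4 N hAr lam (χ n) A.1 hsl h0 (hχ n) A.2
  choose F hF1 hF2 hF3 using hstep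
  have hempty : perp (∅ : Set N) = Set.univ := by
    ext z
    simp [perp]
  have hinit : #(perp (∅ : Set N)) = lam := by
    rw [hempty, mk_univ, hN]
  obtain ⟨A, hA⟩ : ∃ A : ℕ → {A : Set N // #(perp A) = lam},
      ∀ n, (A (n + 1)).1 = (A n).1 ∪ perp (F n (A n)) :=
    ⟨fun n => Nat.rec ⟨∅, hinit⟩ (fun n B => ⟨B.1 ∪ perp (F n B), hF3 n B⟩) n, fun _ => rfl⟩
  have hmono : ∀ n k, (A n).1 ⊆ (A (n + k)).1 := by
    intro n k
    induction k with
    | zero => exact subset_rfl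
    | succ k ih =>
      refine ih.trans ?_
      rw [← add_assoc, hA]
      exact Set.subset_union_left
  have hlt : ∀ n m, n < m → ∀ u ∈ perp (F n (A n)), ∀ v ∈ perp (F m (A m)), |v| ⊓ |u| = 0 := by
    intro n m hnm u hu v hv
    obtain ⟨k, rfl⟩ := Nat.exists_eq_add_of_lt hnm
    have h1 : u ∈ (A (n + 1)).1 := by
      rw [hA]
      exact Or.inr hu
    have h2 : u ∈ (A (n + k + 1)).1 := by
      have := hmono (n + 1) k h1
      have e : n + k + 1 = n + 1 + k := by ring
      rw [e]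
      exact this
    exact hF1 _ _ hv u h2
  refine ⟨fun n => F n (A n), fun n => hF2 n (A n), ?_⟩
  intro n m hnm u hu v hv
  rcases lt_or_gt_of_ne hnm with h | h
  · rw [inf_comm]
    exact hlt n m h u hu v hv
  · exact hlt m n h v hv u hu

end Pool.Agent.CN
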