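import Pool.Agent.Lib.MP_764a00_al.Stm

/-!
# MP_764a00_al : large 5-pure subgroups have many elements modulo 5
-/

namespace Pool.Agent.CN

open Cardinal

/-- congruence modulo 5 -/
private def r6_setoid {M : Type} [AddCommGroup M] (S : AddSubgroup M) : Setoid S where
  r z w := (z : M) - w ∈ dv M 1
  iseqv :=
    { refl := fun z => by rw [sub_self]; exact (dv M 1).zero_mem
      symm := fun {z w} h => by
        have := (dv M 1).neg_mem h
        rwa [neg_sub] at this
      trans := fun {x y z} h h' => by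
        have := (dv M 1).add_mem h h'
        rwa [sub_add_sub_cancel] at this }

theorem p_R6 : S_R6 := by
  intro M _ hM S χ hpure hχ hbig
  classical
  let s := r6_setoid S
  let b : S → S := fun z => (Quotient.mk s z).out
  have hb : ∀ z : S, (b z : M) - z ∈ dv M 1 := fun z => Quotient.mk_out (s := s) z
  have hb' : ∀ z : S, (z : M) - b z ∈ dv M 1 := by
    intro z
    have := (dv M 1).neg_mem (hb z)
    rwa [neg_sub] at this
  let X : Set M := Set.range (fun q : Quotient s => ((q.out : S) : M))
  have hX : X ⊆ S := by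
    rintro _ ⟨q, rfl⟩
    exact q.out.2
  have hbX : ∀ z : S, (b z : M) ∈ X := fun z => ⟨Quotient.mk s z, rfl⟩
  have hD : Dist5 X := by
    rintro _ ⟨q, rfl⟩ _ ⟨q', rfl⟩ h
    have h1 : q = q' := by
      rw [← q.out_eq, ← q'.out_eq]
      exact Quotient.sound (s := s) h
    rw [h1]
  refine ⟨X, hX, hD, ?_⟩
  by_contra hc
  rw [not_lt] at hc
  -- the division step
  have hstep : ∀ z : S, ∃ z' : S, (z : M) - b z = (5 : ℤ) • (z' : M) := by
    intro z
    obtain ⟨y, hy⟩ := hb' z
    rw [pow_one] at hy
    have hyS : y ∈ S := by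
      apply hpure
      rw [← hy]
      exact S.sub_mem z.2 (b z).2
    exact ⟨⟨y, hyS⟩, hy⟩
  choose t ht using hstep
  have hsum : ∀ (z : S) (K : ℕ), (z : M) =
      ∑ n ∈ Finset.range K, (5 : ℤ) ^ n • (b (t^[n] z) : M) + (5 : ℤ) ^ K • (t^[K] z : M) := by
    intro z K
    induction K with
    | zero => simp
    | succ K ih =>
      rw [Finset.sum_range_succ, Function.iterate_succ_apply', pow_succ, mul_smul,
        ← ht (t^[K] z), smul_sub, add_assoc, add_sub_cancel]
      exact ih
  have hinj : Function.Injective (fun (z : S) (n : ℕ) => (⟨(b (t^[n] z) : M), hbX _⟩ : X)) := by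
    intro z w h
    have h1 : ∀ n, (b (t^[n] z) : M) = (b (t^[n] w) : M) := by
      intro n
      have h2 := congrFun h n
      exact (Subtype.ext_iff.1 h2 :)
    apply Subtype.ext
    rw [← sub_eq_zero]
    apply hM.haus
    intro K
    rw [hsum z K, hsum w K]
    simp only [h1]
    rw [add_sub_add_left_eq_sub, ← smul_sub]
    exact ⟨_, rfl⟩
  have h1 := Cardinal.mk_le_of_injective hinj
  have h2 : #(ℕ → X) ≤ 2 ^ χ := by
    rw [← Cardinal.power_def, Cardinal.mk_nat]
    calc #X ^ ℵ₀ ≤ χ ^ ℵ₀ := Cardinal.power_le_power_right hc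
      _ ≤ χ ^ χ := Cardinal.power_le_power_left (by
          intro h0
          rw [h0] at hχ
          exact absurd hχ (not_le.2 Cardinal.aleph0_pos)) hχ
      _ = 2 ^ χ := Cardinal.power_self_eq hχ
  exact absurd (h1.trans h2) (not_le.2 hbig)

end Pool.Agent.CN
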