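import Pool.Agent.Lib.MP_764a00_al.Stm

/-!
# MP_764a00_al : end-homogeneous sequences (Erdos-Rado step)
-/

namespace Pool.Agent.CN

open Cardinal Ordinal

section ram

variable {C : Type} (c : List Ordinal.{0} → Ordinal.{0} → C)

/-- one step of the recursion -/
private noncomputable def ram_F (x β : Ordinal.{0}) (ih : ∀ α : Ordinal.{0}, α < β → Ordinal.{0}) :
    Ordinal.{0} :=
  sInf {y | (∀ α (h : α < β), ih α h < y) ∧ ∀ l : List Ordinal.{0}, (∀ α ∈ l, α < β) →
      c (l.map (fun α => if h : α < β then ih α h else 0)) y =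
      c (l.map (fun α => if h : α < β then ih α h else 0)) x}

/-- the sequence attached to `x` by recursion -/
private noncomputable def ram_g (x : Ordinal.{0}) : Ordinal.{0} → Ordinal.{0} :=
  WellFounded.fix (C := fun _ => Ordinal.{0}) (wellFounded_lt (α := Ordinal.{0})) (ram_F c x)

private theorem ram_g_fix (x β : Ordinal.{0}) :
    ram_g c x β = ram_F c x β (fun α _ => ram_g c x α) :=
  WellFounded.fix_eq _ _ _

private theorem ram_map (β : Ordinal.{0}) (g : Ordinal.{0} → Ordinal.{0}) (l : List Ordinal.{0})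
    (h : ∀ α ∈ l, α < β) : l.map (fun α => if _h : α < β then g α else 0) = l.map g := by
  apply List.map_congr_left
  intro a ha
  simp [h a ha]

private theorem ram_g_eq (x β : Ordinal.{0}) :
    ram_g c x β = sInf {y | (∀ α < β, ram_g c x α < y) ∧
      ∀ l : List Ordinal.{0}, (∀ α ∈ l, α < β) →
      c (l.map (ram_g c x)) y = c (l.map (ram_g c x)) x} := by
  rw [ram_g_fix, ram_F]
  congr 1
  ext y
  constructor
  · rintro ⟨h1, h2⟩
    refine ⟨h1, fun l hl => ?_⟩
    have := h2 l hl
    rw [ram_map β (ram_g c x) l hl] at this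
    exact this
  · rintro ⟨h1, h2⟩
    refine ⟨h1, fun l hl => ?_⟩
    have := h2 l hl
    rw [← ram_map β (ram_g c x) l hl] at this
    exact this

/-- if all earlier values are below `x`, then the value is at most `x` and has the properties -/
private theorem ram_spec (x β : Ordinal.{0}) (h : ∀ α < β, ram_g c x α < x) :
    ram_g c x β ≤ x ∧ (∀ α < β, ram_g c x α < ram_g c x β) ∧
      ∀ l : List Ordinal.{0}, (∀ α ∈ l, α < β) →
      c (l.map (ram_g c x)) (ram_g c x β) = c (l.map (ram_g c x)) x := by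
  have hx : x ∈ {y | (∀ α < β, ram_g c x α < y) ∧
      ∀ l : List Ordinal.{0}, (∀ α ∈ l, α < β) →
      c (l.map (ram_g c x)) y = c (l.map (ram_g c x)) x} := ⟨h, fun l _ => rfl⟩
  have h1 := csInf_le' hx
  have h2 := csInf_mem ⟨x, hx⟩
  rw [← ram_g_eq] at h1 h2
  exact ⟨h1, h2.1, h2.2⟩

/-- the data determine the sequence -/
private theorem ram_det (x y b : Ordinal.{0})
    (h : ∀ l : List Ordinal.{0}, (∀ α ∈ l, α < b) →
      c (l.map (ram_g c x)) x = c (l.map (ram_g c y)) y) :
    ∀ β ≤ b, ram_g c x β = ram_g c y β := by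
  intro β
  induction β using WellFoundedLT.induction with
  | ind β ih =>
    intro hβ
    rw [ram_g_eq, ram_g_eq]
    have hmap : ∀ l : List Ordinal.{0}, (∀ α ∈ l, α < β) →
        l.map (ram_g c x) = l.map (ram_g c y) := by
      intro l hl
      apply List.map_congr_left
      intro a ha
      exact ih a (hl a ha) ((hl a ha).le.trans hβ)
    congr 1
    ext z
    constructor
    · rintro ⟨h1, h2⟩
      refine ⟨fun α hα => ?_, fun l hl => ?_⟩
      · rw [← ih α hα (hα.le.trans hβ)]; exact h1 α hα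
      · rw [← h l (fun α hα => (hl α hα).trans_le hβ), ← h2 l hl, hmap l hl]
    · rintro ⟨h1, h2⟩
      refine ⟨fun α hα => ?_, fun l hl => ?_⟩
      · rw [ih α hα (hα.le.trans hβ)]; exact h1 α hα
      · rw [h l (fun α hα => (hl α hα).trans_le hβ), ← h2 l hl, hmap l hl]

end ram

/-- **End-homogeneous sequences.** -/
theorem p_RAM : S_RAM := by
  intro C κ hκ hC c
  classical
  -- it suffices to find a good `x`
  suffices hgood : ∃ x < (Order.succ (2 ^ κ : Cardinal.{0})).ord,
      ∀ β < (Order.succ κ).ord, ram_g c x β < x by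
    obtain ⟨x, hx, hxβ⟩ := hgood
    refine ⟨ram_g c x, fun β hβ => (hxβ β hβ).trans hx, fun α β hαβ hβ => ?_, ?_⟩
    · exact (ram_spec c x β (fun α hα => hxβ α (hα.trans hβ))).2.1 α hαβ
    · intro l β γ hl hβγ hγ
      rw [(ram_spec c x β (fun α hα => hxβ α (hα.trans (hβγ.trans_lt hγ)))).2.2 l hl,
        (ram_spec c x γ (fun α hα => hxβ α (hα.trans hγ))).2.2 l
          (fun α hα => (hl α hα).trans_le hβγ)]
  by_contra hcon
  push Not at hcon
  -- the least stopping time
  have hst : ∀ x : Set.Iio (Order.succ (2 ^ κ : Cardinal.{0})).ord,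
      ∃ b : Set.Iio (Order.succ κ).ord, ram_g c x.1 b.1 = x.1 ∧
        ∀ α < b.1, ram_g c x.1 α < x.1 := by
    intro x
    have hne : {β | β < (Order.succ κ).ord ∧ x.1 ≤ ram_g c x.1 β}.Nonempty := by
      obtain ⟨β, h1, h2⟩ := hcon x.1 x.2
      exact ⟨β, h1, h2⟩
    have hm := csInf_mem hne
    have hlt : ∀ α < sInf {β | β < (Order.succ κ).ord ∧ x.1 ≤ ram_g c x.1 β},
        ram_g c x.1 α < x.1 := by
      intro α hα
      by_contra hc
      push Not at hc
      exact absurd (csInf_le' (s := {β | β < (Order.succ κ).ord ∧ x.1 ≤ ram_g c x.1 β})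
        ⟨hα.trans hm.1, hc⟩) (not_le.mpr hα)
    exact ⟨⟨_, hm.1⟩, le_antisymm (ram_spec c x.1 _ hlt).1 hm.2, hlt⟩
  choose b hb1 hb2 using hst
  -- the data
  let F : Set.Iio (Order.succ (2 ^ κ : Cardinal.{0})).ord →
      Σ b : Set.Iio (Order.succ κ).ord, (List (Set.Iio b.1) → C) :=
    fun x => ⟨b x, fun l => c ((l.map Subtype.val).map (ram_g c x.1)) x.1⟩
  have hF : Function.Injective F := by
    intro x y hxy
    have hbxy : b x = b y := congrArg Sigma.fst hxy
    have hdata : ∀ l : List Ordinal.{0}, (∀ α ∈ l, α < (b x).1) →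
        c (l.map (ram_g c x.1)) x.1 = c (l.map (ram_g c y.1)) y.1 := by
      intro l hl
      -- transport
      have key : ∀ (u v : Σ b : Set.Iio (Order.succ κ).ord, (List (Set.Iio b.1) → C)), u = v →
          ∀ (m : List Ordinal.{0}) (hm : ∀ α ∈ m, α < u.1.1) (hm' : ∀ α ∈ m, α < v.1.1),
          u.2 (m.attach.map (fun a => ⟨a.1, hm a.1 a.2⟩)) =
            v.2 (m.attach.map (fun a => ⟨a.1, hm' a.1 a.2⟩)) := by
        intro u v huv m hm hm'
        subst huv
        rfl
      have e : ∀ (b' : Ordinal.{0}) (hm : ∀ α ∈ l, α < b'),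
          List.map Subtype.val (List.map (fun a : {a // a ∈ l} =>
            (⟨a.1, hm a.1 a.2⟩ : Set.Iio b')) l.attach) = l := by
        intro b' hm
        rw [List.map_map]
        exact List.attach_map_subtype_val l
      have hl' : ∀ α ∈ l, α < (b y).1 := fun α hα => by rw [← hbxy]; exact hl α hα
      have h7 : c ((List.map Subtype.val (List.map (fun a : {a // a ∈ l} =>
            (⟨a.1, hl a.1 a.2⟩ : Set.Iio (b x).1)) l.attach)).map (ram_g c x.1)) x.1 =
          c ((List.map Subtype.val (List.map (fun a : {a // a ∈ l} =>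
            (⟨a.1, hl' a.1 a.2⟩ : Set.Iio (b y).1)) l.attach)).map (ram_g c y.1)) y.1 :=
        key (F x) (F y) hxy l hl hl'
      rw [e _ hl, e _ hl'] at h7
      exact h7
    have h3 := ram_det c x.1 y.1 (b x).1 hdata (b x).1 le_rfl
    have h4 := hb1 x
    have h5 := hb1 y
    rw [← hbxy] at h5
    exact Subtype.ext (h4.symm.trans (h3.trans h5))
  have hcard := Cardinal.mk_le_of_injective hF
  have h2κ : ℵ₀ ≤ (2 : Cardinal.{0}) ^ κ := hκ.trans (Cardinal.cantor κ).le
  have hL : ∀ b : Set.Iio (Order.succ κ).ord,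
      #(List (Set.Iio b.1) → C) ≤ Cardinal.lift.{1} ((2 : Cardinal.{0}) ^ κ) := by
    intro b
    have hb : #(Set.Iio b.1) ≤ Cardinal.lift.{1} κ := by
      rw [Cardinal.mk_Iio_ordinal, Cardinal.lift_le]
      have := b.2
      rw [Set.mem_Iio, Cardinal.lt_ord, Order.lt_succ_iff] at this
      exact this
    have hlist : #(List (Set.Iio b.1)) ≤ Cardinal.lift.{1} κ := by
      refine (Cardinal.mk_list_le_max _).trans ?_
      refine max_le ?_ hb
      rw [← Cardinal.lift_aleph0.{1, 0}, Cardinal.lift_le]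
      exact hκ
    rw [Cardinal.mk_arrow]
    have h2 : Cardinal.lift.{1} (#C) ≤ Cardinal.lift.{1} ((2 : Cardinal.{0}) ^ κ) :=
      Cardinal.lift_le.mpr hC
    calc Cardinal.lift.{1} (#C) ^ Cardinal.lift.{0} (#(List (Set.Iio b.1)))
        ≤ Cardinal.lift.{1} ((2 : Cardinal.{0}) ^ κ) ^ Cardinal.lift.{1} κ := by
          rw [Cardinal.lift_uzero]
          refine (Cardinal.power_le_power_right h2).trans ?_
          refine Cardinal.power_le_power_left ?_ hlist
          intro h0
          rw [Cardinal.lift_eq_zero] at h0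
          rw [h0] at h2κ
          exact absurd h2κ (not_le.mpr Cardinal.aleph0_pos)
      _ = Cardinal.lift.{1} ((2 : Cardinal.{0}) ^ κ) := by
          rw [← Cardinal.lift_power, ← Cardinal.power_mul, Cardinal.mul_eq_self hκ]
  have hsum : #(Σ b : Set.Iio (Order.succ κ).ord, (List (Set.Iio b.1) → C)) ≤
      Cardinal.lift.{1} ((2 : Cardinal.{0}) ^ κ) := by
    rw [Cardinal.mk_sigma]
    refine (Cardinal.sum_le_sum _ _ hL).trans ?_
    rw [Cardinal.sum_const, Cardinal.lift_id, Cardinal.lift_id, Cardinal.mk_Iio_ordinal,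
      Cardinal.card_ord, ← Cardinal.lift_mul, Cardinal.lift_le]
    calc Order.succ κ * (2 : Cardinal.{0}) ^ κ ≤ 2 ^ κ * 2 ^ κ :=
          mul_le_mul_left (Order.succ_le_of_lt (Cardinal.cantor κ)) _
      _ = 2 ^ κ := Cardinal.mul_eq_self h2κ
  have hfin := hcard.trans hsum
  rw [Cardinal.mk_Iio_ordinal, Cardinal.card_ord, Cardinal.lift_le] at hfin
  exact absurd hfin (not_le.mpr (Order.lt_succ _))

end Pool.Agent.CN
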