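import Pool.Agent.Lib.MP_764a00_al.Stm

/-!
# MP_764a00_al : regions in an Archimedean lattice ordered group
-/

namespace Pool.Agent.CN

open Cardinal

section

variable {N : Type} [AddCommGroup N] [Lattice N] [IsOrderedAddMonoid N]

private lemma rg_sub {a b c : N} (ha : 0 ≤ a) (hb : 0 ≤ b) (hc : 0 ≤ c) :
    (a + b) ⊓ c ≤ a ⊓ c + b ⊓ c := by
  have h : a ⊓ c + b ⊓ c = ((a + b) ⊓ (c + b)) ⊓ ((a + c) ⊓ (c + c)) := by
    rw [add_inf, inf_add, inf_add]
  rw [h]
  refine le_inf (le_inf inf_le_left ?_) (le_inf ?_ ?_)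
  · exact inf_le_right.trans (le_add_of_nonneg_right hb)
  · exact inf_le_right.trans (le_add_of_nonneg_left ha)
  · exact inf_le_right.trans (le_add_of_nonneg_left hc)

private lemma rg_nsmul {a c : N} (ha : 0 ≤ a) (hc : 0 ≤ c) (h : a ⊓ c = 0) (n : ℕ) :
    (n • a) ⊓ c = 0 := by
  induction n with
  | zero => rw [zero_nsmul]; exact inf_eq_left.2 hc
  | succ n ih =>
    apply le_antisymm
    · rw [succ_nsmul]
      refine (rg_sub (nsmul_nonneg ha n) ha hc).trans ?_
      rw [ih, h, add_zero]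
    · exact le_inf (nsmul_nonneg ha _) hc

private lemma rg_semi {x : N} (h : 0 ≤ (5 : ℕ) • x) : 0 ≤ x := by
  have h1 : x⁺ ⊓ x⁻ = 0 := posPart_inf_negPart_eq_zero x
  have h2 := rg_nsmul (posPart_nonneg x) (negPart_nonneg x) h1 5
  have h3 : (5 : ℕ) • x⁻ ≤ (5 : ℕ) • x⁺ := by
    have h4 : (5 : ℕ) • x = (5 : ℕ) • x⁺ - (5 : ℕ) • x⁻ := by
      rw [← nsmul_sub, posPart_sub_negPart]
    rw [h4] at h
    exact sub_nonneg.1 h
  have h5 : x⁻ ≤ (5 : ℕ) • x⁻ := by
    have : (5 : ℕ) • x⁻ = x⁻ + (4 : ℕ) • x⁻ := by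
      rw [show (5 : ℕ) = 4 + 1 from rfl, succ_nsmul, add_comm]
    rw [this]
    exact le_add_of_nonneg_right (nsmul_nonneg (negPart_nonneg x) 4)
  have h6 : x⁻ ≤ 0 := by
    rw [← h2]
    exact le_inf (h5.trans h3) le_rfl
  have h7 : x⁻ = 0 := le_antisymm h6 (negPart_nonneg x)
  rw [← posPart_sub_negPart x, h7, sub_zero]
  exact posPart_nonneg x

private lemma rg_abs5 (z : N) : |z| ≤ |(5 : ℕ) • z| := by
  have key : ∀ y : N, (5 : ℕ) • y ≤ |(5 : ℕ) • z| → y ≤ |(5 : ℕ) • z| := by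
    intro y hy
    rw [← sub_nonneg]
    apply rg_semi
    rw [nsmul_sub, sub_nonneg]
    refine hy.trans ?_
    have : (5 : ℕ) • |(5 : ℕ) • z| = |(5 : ℕ) • z| + (4 : ℕ) • |(5 : ℕ) • z| := by
      rw [show (5 : ℕ) = 4 + 1 from rfl, succ_nsmul _ 4, add_comm]
    rw [this]
    exact le_add_of_nonneg_right (nsmul_nonneg (abs_nonneg _) 4)
  refine sup_le (key z (le_abs_self _)) (key (-z) ?_)
  rw [smul_neg]
  exact neg_le_abs _

/-- the polar as a subgroup -/
private def rg_perp (A : Set N) : AddSubgroup N where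
  carrier := perp A
  zero_mem' := by
    intro a _
    rw [abs_zero]
    exact inf_eq_left.2 (abs_nonneg a)
  add_mem' := by
    intro x y hx hy a ha
    apply le_antisymm
    · have h1 : |x + y| ⊓ |a| ≤ (|x| + |y|) ⊓ |a| := inf_le_inf_right _ (abs_add_le x y)
      refine h1.trans ((rg_sub (abs_nonneg x) (abs_nonneg y) (abs_nonneg a)).trans ?_)
      rw [hx a ha, hy a ha, add_zero]
    · exact le_inf (abs_nonneg _) (abs_nonneg _)
  neg_mem' := by
    intro x hx a ha
    rw [abs_neg]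
    exact hx a ha

private lemma rg_pure (A : Set N) (z : N) (h : (5 : ℕ) • z ∈ perp A) : z ∈ perp A := by
  intro a ha
  apply le_antisymm
  · rw [← h a ha]
    exact inf_le_inf_right _ (rg_abs5 z)
  · exact le_inf (abs_nonneg _) (abs_nonneg _)

end

theorem p_RG (h5 : S_R5) (h6 : S_R6) : S_RG := by
  intro M _ L lam χ hM hP hA hl h0 hc hχ
  have hm : ∀ n, max (χ n) ℵ₀ < lam := fun n => max_lt (hχ n) h0
  have h2 : ∀ n, (2 : Cardinal.{0}) ^ ((2 : Cardinal.{0}) ^ max (χ n) ℵ₀) < lam := fun n =>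
    hl.isStrongPrelimit (hl.isStrongPrelimit (hm n))
  obtain ⟨C, hC1, hC2⟩ := h5 L.N hA lam (fun n => (2 : Cardinal.{0}) ^ ((2 : Cardinal.{0}) ^ max (χ n) ℵ₀))
    hl h0 h2 hc
  have key : ∀ n, ∃ X : Set M, X ⊆ ((rg_perp (C n)).map L.N.subtype : AddSubgroup M) ∧ Dist5 X ∧
      max (χ n) ℵ₀ < #X := by
    intro n
    apply h6 M hM _ (max (χ n) ℵ₀)
    · intro z hz
      obtain ⟨u, hu1, hu2⟩ := hz
      have hzN : z ∈ L.N := by
        apply hP
        rw [← hu2]
        exact u.2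
      refine ⟨⟨z, hzN⟩, ?_, rfl⟩
      apply rg_pure (C n)
      have : (5 : ℕ) • (⟨z, hzN⟩ : L.N) = u := by
        apply Subtype.ext
        have h7 : ((u : L.N) : M) = (5 : ℤ) • z := hu2
        rw [h7, AddSubgroup.coe_nsmul]
        norm_cast
      rw [this]
      exact hu1
    · exact le_max_right _ _
    · refine lt_of_lt_of_le (Cardinal.cantor _) ((hC1 n).trans ?_)
      have e : (perp (C n)) ≃ ((rg_perp (C n)).map L.N.subtype : AddSubgroup M) :=
        (Equiv.ofBijective (fun x : perp (C n) =>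
          (⟨((x : L.N) : M), ⟨(x : L.N), x.2, rfl⟩⟩ :
            ((rg_perp (C n)).map L.N.subtype : AddSubgroup M))) (by
          constructor
          · intro x y hxy
            have h8 : ((x : L.N) : M) = ((y : L.N) : M) :=
              congrArg (fun t : ((rg_perp (C n)).map L.N.subtype : AddSubgroup M) => (t : M)) hxy
            exact Subtype.ext (Subtype.ext h8)
          · rintro ⟨y, u, hu, rfl⟩
            exact ⟨⟨u, hu⟩, rfl⟩))
      exact (Cardinal.mk_congr e).le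
  choose X hX1 hX2 hX3 using key
  refine ⟨X, ?_, ?_, hX2, ?_⟩
  · intro n x hx
    obtain ⟨u, _, rfl⟩ := hX1 n hx
    exact u.2
  · intro n m hnm a b ha hb
    obtain ⟨u, hu, hu2⟩ := hX1 n ha
    obtain ⟨v, hv, hv2⟩ := hX1 m hb
    have e1 : u = a := Subtype.ext hu2
    have e2 : v = b := Subtype.ext hv2
    rw [← e1, ← e2]
    exact hC2 n m hnm u hu v hv
  · intro n
    exact lt_of_le_of_lt (le_max_left _ _) (hX3 n)

end Pool.Agent.CN
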