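import Pool.Agent.Lib.MP_764a00_al.Stm

/-!
# MP_764a00_al : piece SL, the choice of the digits
-/

namespace Pool.Agent.CN

open Cardinal

private theorem sl_prod {A B : Type} {μ : Cardinal.{0}} (hμ : ℵ₀ ≤ μ) (hA : #A ≤ μ)
    (hB : #B ≤ μ) : #(A × B) ≤ μ := by
  rw [Cardinal.mk_prod, Cardinal.lift_id, Cardinal.lift_id]
  exact Cardinal.mul_le_of_le hμ hA hB

private theorem sl_sum {A B : Type} {μ : Cardinal.{0}} (hμ : ℵ₀ ≤ μ) (hA : #A ≤ μ)
    (hB : #B ≤ μ) : #(A ⊕ B) ≤ μ := by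
  rw [Cardinal.mk_sum, Cardinal.lift_id, Cardinal.lift_id]
  exact Cardinal.add_le_of_le hμ hA hB

/-- the failure described by a witness -/
private def SlBad {M : Type} [AddCommGroup M] (L : LG M) (X Γ : Set M) (TT : Set (LG M)) :
    (TT × Γ × Γ × ℕ × ℤ) ⊕ (Γ × Γ × ℤ × ℤ) ⊕ (Γ × Γ × ℤ) → M → Prop
  | Sum.inl w, a => ¬ (5 : ℤ) ∣ w.2.2.2.2 ∧ ∀ F : Ultra (w.1 : LG M).N,
      (w.2.1 : M) + ((5 : ℤ) ^ w.2.2.2.1 * w.2.2.2.2) • a ∈ cq (w.1 : LG M) F (w.2.2.2.1 + 1) ∨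
      (w.2.2.1 : M) + ((5 : ℤ) ^ w.2.2.2.1 * w.2.2.2.2) • a ∈ cq (w.1 : LG M) F (w.2.2.2.1 + 1)
  | Sum.inr (Sum.inl w), a => w.2.2.1 ≠ 0 ∧ w.2.2.2 ≠ 0 ∧ ∀ F : Ultra L.N, On L X F →
      (w.1 : M) + w.2.2.1 • a ∈ cb L F ∨ (w.2.1 : M) + w.2.2.2 • a ∈ cb L F
  | Sum.inr (Sum.inr w), a => w.2.2 ≠ 0 ∧
      (∃ F : Ultra L.N, On L X F ∧ (w.1 : M) ∉ cb L F ∧ (w.2.1 : M) ∉ cb L F) ∧
      ∀ F : Ultra L.N, On L X F → (w.1 : M) + w.2.2 • a ∈ cb L F ∨ (w.2.1 : M) ∈ cb L F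

private theorem sl_wit {M : Type} [AddCommGroup M] (L : LG M) (X Γ : Set M) (TT : Set (LG M))
    (a : M) (h : ¬ Sel L X Γ TT a) : ∃ w, SlBad L X Γ TT w a := by
  by_contra hno
  refine h ⟨?_, ?_, ?_⟩
  · intro L' hL' e he e' he' s c hc
    by_contra hF
    refine hno ⟨Sum.inl (⟨L', hL'⟩, ⟨e, he⟩, ⟨e', he'⟩, s, c), hc, fun F => ?_⟩
    by_contra hF'
    exact hF ⟨F, fun h1 => hF' (Or.inl h1), fun h2 => hF' (Or.inr h2)⟩
  · intro e he e' he' r r' hr hr'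
    by_contra hF
    refine hno ⟨Sum.inr (Sum.inl (⟨e, he⟩, ⟨e', he'⟩, r, r')), hr, hr', fun F hO => ?_⟩
    by_contra hF'
    exact hF ⟨F, hO, fun h1 => hF' (Or.inl h1), fun h2 => hF' (Or.inr h2)⟩
  · intro e he e' he' r hr hex
    by_contra hF
    refine hno ⟨Sum.inr (Sum.inr (⟨e, he⟩, ⟨e', he'⟩, r)), hr, hex, fun F hO => ?_⟩
    by_contra hF'
    exact hF ⟨F, hO, fun h1 => hF' (Or.inl h1), fun h2 => hF' (Or.inr h2)⟩

private theorem sl_bez {M : Type} [AddCommGroup M] {c : ℤ} (hc : ¬ (5 : ℤ) ∣ c) {x : M}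
    (h : c • x ∈ dv M 1) : x ∈ dv M 1 := by
  have hcop : IsCoprime c 5 := by
    have h5 : Prime (5 : ℤ) := by norm_num
    exact ((Prime.coprime_iff_not_dvd h5).2 hc).symm
  obtain ⟨u, v, huv⟩ := hcop
  obtain ⟨y, hy⟩ := h
  refine ⟨u • y + v • x, ?_⟩
  calc x = (u * c + v * 5) • x := by rw [huv, one_smul]
    _ = u • (c • x) + (v * 5) • x := by rw [add_smul, mul_smul]
    _ = u • ((5 : ℤ) ^ 1 • y) + (v * 5) • x := by rw [hy]
    _ = (5 : ℤ) ^ 1 • (u • y + v • x) := by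
      rw [smul_add, smul_smul, smul_smul, smul_smul, pow_one, mul_comm u 5, mul_comm v 5]

theorem p_SL (hq : S_QS) (hb : S_BS) (h0 : S_LG0) (h3 : S_U3) (c1 : S_C1) (c2 : S_C2)
    (c3 : S_C3) (he : S_ER5) : S_SL := by
  have _ := h3
  intro M _ L X μ Γ TT hM hLp hLd hXL hD hμ hX hΓ hTT hgood
  by_contra hno
  have hW : #((TT × Γ × Γ × ℕ × ℤ) ⊕ (Γ × Γ × ℤ × ℤ) ⊕ (Γ × Γ × ℤ)) ≤ μ := by
    have hN : #ℕ ≤ μ := by simpa using hμ
    have hZ : #ℤ ≤ μ := by simpa using hμ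
    exact sl_sum hμ (sl_prod hμ hTT (sl_prod hμ hΓ (sl_prod hμ hΓ (sl_prod hμ hN hZ))))
      (sl_sum hμ (sl_prod hμ hΓ (sl_prod hμ hΓ (sl_prod hμ hZ hZ)))
        (sl_prod hμ hΓ (sl_prod hμ hΓ hZ)))
  have hex : ∀ x y z : X, ∃ w, SlBad L X Γ TT w (tri (x : M) y z) := by
    intro x y z
    apply sl_wit
    intro hs
    exact hno ⟨x, x.2, y, y.2, z, z.2, hs⟩
  choose c hc using hex
  obtain ⟨b, col, hinj, hcol⟩ := he X _ μ hμ hW hX c
  have hbad : ∀ i j k : Fin 5, i < j → j < k →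
      SlBad L X Γ TT col (tri (b i : M) (b j) (b k)) := by
    intro i j k hij hjk
    rw [← hcol i j k hij hjk]
    exact hc _ _ _
  have hne : (b 1 : M) ≠ b 2 := by
    intro h
    have := hinj (Subtype.ext h)
    exact absurd this (by decide)
  rcases col with w | w | w
  · obtain ⟨⟨L', hL'⟩, e, e', s, m⟩ := w
    have h01 := hbad 0 1 2 (by decide) (by decide)
    have hm : ¬ (5 : ℤ) ∣ m := h01.1
    have hall : ∀ F : Ultra L'.N,
        ((5 : ℤ) ^ s * m) • ((b 1 : M) - b 2) ∈ cq L' F (s + 1) := by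
      intro F
      obtain ⟨A, hA, -, -, hcan⟩ := hq M L' hM (hgood L' hL').1 F (s + 1)
      have := c3 M A hcan (fun i => (b i : M)) e e' ((5 : ℤ) ^ s * m) (by
        intro i j k hij hjk
        have := (hbad i j k hij hjk).2 F
        rw [← SetLike.mem_coe, ← SetLike.mem_coe, hA]
        exact this)
      rw [← SetLike.mem_coe, hA] at this
      exact this
    have h1 := h0 M L' hM (hgood L' hL').1 (hgood L' hL').2 _ (s + 1) hall
    rw [mul_smul] at h1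
    exact hne (hD _ (b 1).2 _ (b 2).2 (sl_bez hm (hM.cancel h1)))
  · obtain ⟨e, e', r, r'⟩ := w
    have h01 := hbad 0 1 2 (by decide) (by decide)
    have hr : r ≠ 0 := h01.1
    have hr' : r' ≠ 0 := h01.2.1
    have hall : ∀ F : Ultra L.N, (b 1 : M) - b 2 ∈ cb L F := by
      intro F
      obtain ⟨A, hA, hmem, hcan⟩ := hb M L hM hLp F
      by_cases hO : On L X F
      · have := c1 M A hcan (fun i => (b i : M)) e e' r r' hr hr' (by
          intro i j k hij hjk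
          have := (hbad i j k hij hjk).2.2 F hO
          rw [← SetLike.mem_coe, ← SetLike.mem_coe, hA]
          exact this)
        rw [← SetLike.mem_coe, hA] at this
        exact this
      · have key : ∀ x : X, (x : M) ∈ A := by
          intro x
          have hx : |(⟨x, hXL x.2⟩ : L.N)| ∉ F.F := fun hx => hO ⟨⟨x, hXL x.2⟩, x.2, hx⟩
          exact hmem _ hx
        rw [← hA, SetLike.mem_coe]
        exact A.sub_mem (key _) (key _)
    have hz : (b 1 : M) - b 2 = 0 :=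
      hM.haus _ fun K => h0 M L hM hLp hLd _ K fun F => hall F K
    exact hne (sub_eq_zero.1 hz)
  · obtain ⟨e, e', r⟩ := w
    have h01 := hbad 0 1 2 (by decide) (by decide)
    have hr : r ≠ 0 := h01.1
    obtain ⟨F, hO, hne1, hne2⟩ := h01.2.1
    obtain ⟨A, hA, -, hcan⟩ := hb M L hM hLp F
    refine hne1 ?_
    rw [← hA, SetLike.mem_coe]
    refine c2 M A hcan (fun i => (b i : M)) e r hr ?_
    intro i j k hij hjk
    rw [← SetLike.mem_coe, hA]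
    exact ((hbad i j k hij hjk).2.2 F hO).resolve_right hne2

end Pool.Agent.CN
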