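import Pool.Agent.Lib.MP_764a00_al.Stm

/-! # generic sequences (helper80) -/

namespace Pool.Agent.CN

open Cardinal

private theorem sq_bdd (lam : Cardinal.{0}) (hlam : ℵ₀ ≤ lam)
    (S : Set (Order.succ lam).ord.ToType) (hS : #S ≤ lam) : ∃ j, ∀ i ∈ S, i ≤ j := by
  by_contra hc
  push Not at hc
  have hcof : IsCofinal S := fun x => by
    obtain ⟨i, hi, hxi⟩ := hc x
    exact ⟨i, hi, hxi.le⟩
  have h := Order.cof_le hcof
  rw [Ordinal.cof_toType, (isRegular_succ hlam).cof_ord] at h
  exact absurd (h.trans hS) (not_le.2 (Order.lt_succ lam))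

/-- the recursion -/
private theorem sq_rec {P : Type} [Preorder P] {J : Type} [LinearOrder J] [WellFoundedLT J]
    (lam : Cardinal.{0}) (hJ : ∀ j : J, #(Set.Iio j) ≤ lam)
    (hch : ∀ (J : Type) [LinearOrder J] [Nonempty J] (f : J → P), #J ≤ lam → Antitone f →
      ∃ q, ∀ j, q ≤ f j)
    (p : P) (E : J → Set P) (hE : ∀ j p, ∃ q ≤ p, q ∈ E j) :
    ∃ f : J → P, ∀ j, f j ≤ p ∧ (∀ i < j, f j ≤ f i) ∧ f j ∈ E j := by
  classical
  choose g hg hgE using hE
  -- one step of the recursion
  let F : (j : J) → ((i : J) → i < j → P) → P := fun j ih =>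
    if h : ∃ q, q ≤ p ∧ ∀ (i : J) (hi : i < j), q ≤ ih i hi then g j h.choose else p
  let f : J → P := (wellFounded_lt (α := J)).fix F
  have hf : ∀ j, f j = F j (fun i _ => f i) := fun j => (wellFounded_lt (α := J)).fix_eq F j
  refine ⟨f, fun j => ?_⟩
  induction j using (wellFounded_lt (α := J)).induction with
  | _ j ih =>
    have hex : ∃ q, q ≤ p ∧ ∀ (i : J) (hi : i < j), q ≤ f i := by
      rcases isEmpty_or_nonempty (Set.Iio j) with he | he
      · exact ⟨p, le_rfl, fun i hi => (he.false ⟨i, hi⟩).elim⟩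
      · have hanti : Antitone (fun i : Set.Iio j => f i) := by
          intro a b hab
          rcases hab.lt_or_eq with h | h
          · exact (ih b.1 b.2).2.1 a.1 h
          · rw [h]
        obtain ⟨q, hq⟩ := hch (Set.Iio j) (fun i => f i) (hJ j) hanti
        refine ⟨q, ?_, fun i hi => hq ⟨i, hi⟩⟩
        obtain ⟨i⟩ := he
        exact (hq i).trans (ih i.1 i.2).1
    have hfj : f j = g j hex.choose := by
      rw [hf j]
      exact dif_pos hex
    have hs := hex.choose_spec
    have hle := hg j hex.choose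
    rw [hfj]
    exact ⟨hle.trans hs.1, fun i hi => hle.trans (hs.2 i hi), hgE j hex.choose⟩

theorem p_SQ : S_SQ := by
  intro P _ lam hlam hch p A D hA hD
  classical
  set J := (Order.succ lam).ord.ToType with hJdef
  have hJc : #J = Order.succ lam := mk_ord_toType _
  obtain ⟨e⟩ : Nonempty (A ↪ J) := by
    rw [← hJc] at hA
    exact hA
  have hIio : ∀ j : J, #(Set.Iio j) ≤ lam := by
    intro j
    have h : #(Set.Iio j) < #J := mk_Iio_lt j (by
      rw [hJc, Ordinal.type_toType])
    rw [hJc] at h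
    exact Order.lt_succ_iff.1 h
  let E : J → Set P := fun j => {q | ∀ a, e a = j → q ∈ D a}
  have hE : ∀ j p, ∃ q ≤ p, q ∈ E j := by
    intro j p
    by_cases h : ∃ a, e a = j
    · obtain ⟨a, ha⟩ := h
      obtain ⟨q, hq, hqD⟩ := hD a p
      refine ⟨q, hq, fun b hb => ?_⟩
      have : b = a := e.injective (hb.trans ha.symm)
      rw [this]
      exact hqD
    · exact ⟨p, le_rfl, fun a ha => absurd ⟨a, ha⟩ h⟩
  obtain ⟨f, hf⟩ := sq_rec lam hIio hch p E hE
  refine ⟨J, inferInstance, f, ?_, ?_, fun j => (hf j).1, fun a => ?_, fun S hS => sq_bdd lam hlam S hS⟩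
  · rw [← mk_ne_zero_iff, hJc]
    exact (Order.succ_ne_bot lam)
  · intro a b hab
    rcases hab.lt_or_eq with h | h
    · exact (hf b).2.1 a h
    · rw [h]
  · exact ⟨e a, (hf (e a)).2.2 a rfl⟩

end Pool.Agent.CN
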