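import Pool.Agent.Lib.MP_764a00_al.Stm

/-!
# MP_764a00_al : piece TR, inequalities may be checked in totally ordered groups
-/

namespace Pool.Agent.CN

open Cardinal

theorem p_TR (h1 : S_U1) (h3 : S_U3) (h4 : S_U4) : S_TR := by
  have _ := h3
  intro N _ _ _ a b hab
  by_contra hne
  have hc0 : (0 : N) ≤ (a - b)⁺ := posPart_nonneg _
  have hcne : (a - b)⁺ ≠ 0 := by
    intro h
    exact hne (sub_nonpos.1 (posPart_eq_zero.1 h))
  obtain ⟨F, hF⟩ := h1 N {(a - b)⁺} ⟨_, rfl⟩ (by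
    intro x hx
    rw [Set.mem_singleton_iff] at hx
    rw [hx]; exact hc0) (by
    intro T hT hTs h0
    have hx : ∀ x ∈ T, x = (a - b)⁺ := fun x hx => by
      have := hTs (Finset.mem_coe.2 hx)
      rwa [Set.mem_singleton_iff] at this
    have hle : (a - b)⁺ ≤ T.inf' hT id := by
      apply Finset.le_inf'
      intro x hxT
      rw [hx x hxT]
      exact le_rfl
    rw [h0] at hle
    exact hcne (le_antisymm hle hc0))
  have hcF : (a - b)⁺ ∈ F.F := hF rfl
  obtain ⟨Λ, i1, i2, i3, π, hsup, hinf, hker⟩ := h4 N F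
  have h5 : π a ≤ π b := hab Λ π hsup hinf
  have h6 : π ((a - b)⁺) = 0 := by
    have : (a - b)⁺ = (a - b) ⊔ 0 := rfl
    rw [this, hsup, map_sub, map_zero]
    exact sup_eq_right.2 (sub_nonpos.2 h5)
  have h7 := (hker _).1 h6
  rw [abs_of_nonneg hc0] at h7
  exact h7 hcF

end Pool.Agent.CN
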