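import Pool.Agent.Lib.MP_764a00_al.Stm

/-! U3: the complement of a maximal filter gives a prime ideal. (helper39) -/

namespace Pool.Agent.CN

section

variable {N : Type} [AddCommGroup N] [Lattice N] [IsOrderedAddMonoid N]

private theorem u3_inf_add {x y z : N} (hx : 0 ≤ x) (hy : 0 ≤ y) (hz : 0 ≤ z) :
    (x + y) ⊓ z ≤ x ⊓ z + y ⊓ z := by
  rw [add_inf, inf_add, inf_add]
  refine le_inf (le_inf inf_le_left ?_) (le_inf ?_ ?_)
  · exact inf_le_right.trans (le_add_of_nonneg_right hy)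
  · exact inf_le_right.trans (le_add_of_nonneg_left hx)
  · exact inf_le_right.trans (le_add_of_nonneg_right hz)

omit [IsOrderedAddMonoid N] in
private theorem u3_key (F : Ultra N) {a f : N} (hf : f ∈ F.F) (h : a ⊓ f = 0) : a ∉ F.F := fun ha =>
  F.zero (h ▸ F.inf a ha f hf)

private theorem u3_le (F : Ultra N) {a b : N} (ha : 0 ≤ a) (hab : a ≤ b) (hb : b ∉ F.F) : a ∉ F.F := by
  obtain ⟨f, hf, h⟩ := F.max b (ha.trans hab) hb
  refine u3_key F hf (le_antisymm ?_ (le_inf ha (F.nonneg f hf)))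
  rw [← h]
  exact inf_le_inf_right f hab

private theorem u3_add (F : Ultra N) {a b : N} (ha : 0 ≤ a) (hb : 0 ≤ b) (ha' : a ∉ F.F)
    (hb' : b ∉ F.F) : a + b ∉ F.F := by
  obtain ⟨f, hf, h1⟩ := F.max a ha ha'
  obtain ⟨g, hg, h2⟩ := F.max b hb hb'
  have hfg := F.inf f hf g hg
  have h0 := F.nonneg _ hfg
  refine u3_key F hfg (le_antisymm ?_ (le_inf (add_nonneg ha hb) h0))
  refine (u3_inf_add ha hb h0).trans ?_
  have h3 : a ⊓ (f ⊓ g) ≤ 0 := by
    rw [← h1]
    exact inf_le_inf_left a inf_le_left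
  have h4 : b ⊓ (f ⊓ g) ≤ 0 := by
    rw [← h2]
    exact inf_le_inf_left b inf_le_right
  exact add_nonpos h3 h4

private theorem u3_one (F : Ultra N) (a b : N) (ha : |a| ∉ F.F) (hb : |b| ∉ F.F) :
    |a + b| ∉ F.F :=
  u3_le F (abs_nonneg _) (abs_add_le a b) (u3_add F (abs_nonneg a) (abs_nonneg b) ha hb)

private theorem u3_nsmul (F : Ultra N) (a : N) (ha : |a| ∉ F.F) (n : ℕ) : |n • a| ∉ F.F := by
  induction n with
  | zero => rw [zero_smul, abs_zero]; exact F.zero
  | succ n ih =>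
    rw [succ_nsmul]
    exact u3_one F _ _ ih ha

private theorem u3_sub (F : Ultra N) (a b : N) (ha : |a| ∉ F.F) (hb : |b| ∉ F.F) :
    |a - b| ∉ F.F := by
  rw [sub_eq_add_neg]
  exact u3_one F a (-b) ha (by rwa [abs_neg])

private theorem u3_four (F : Ultra N) (a : N) : |a⁺| ∉ F.F ∨ |a⁻| ∉ F.F := by
  by_contra h
  push Not at h
  have h1 := F.inf _ h.1 _ h.2
  rw [abs_of_nonneg (posPart_nonneg a), abs_of_nonneg (negPart_nonneg a),
    posPart_inf_negPart_eq_zero] at h1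
  exact F.zero h1

private theorem u3_pos (F : Ultra N) (a : N) (n : ℕ) (hn : n ≠ 0) (h : |n • a| ∉ F.F) : |a| ∉ F.F := by
  have e : a⁺ - a⁻ = a := posPart_sub_negPart a
  have e2 : n • a = n • a⁺ - n • a⁻ := by rw [← nsmul_sub, e]
  have hge : ∀ x : N, 0 ≤ x → |n • x| ∉ F.F → |x| ∉ F.F := by
    intro x hx hx'
    refine u3_le F (abs_nonneg x) ?_ hx'
    rw [abs_of_nonneg hx, abs_of_nonneg (nsmul_nonneg hx n)]
    obtain ⟨m, rfl⟩ := Nat.exists_eq_succ_of_ne_zero hn
    rw [Nat.succ_eq_add_one, succ_nsmul]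
    exact le_add_of_nonneg_left (nsmul_nonneg hx m)
  rcases u3_four F a with h1 | h1
  · have h2 : |n • a⁻| ∉ F.F := by
      have e3 : n • a⁻ = n • a⁺ - n • a := by rw [e2]; abel
      rw [e3]
      exact u3_sub F _ _ (u3_nsmul F _ h1 n) h
    have h3 := hge _ (negPart_nonneg a) h2
    rw [← e]
    exact u3_sub F _ _ h1 h3
  · have h2 : |n • a⁺| ∉ F.F := by
      have e3 : n • a⁺ = n • a + n • a⁻ := by rw [e2]; abel
      rw [e3]
      exact u3_one F _ _ h (u3_nsmul F _ h1 n)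
    have h3 := hge _ (posPart_nonneg a) h2
    rw [← e]
    exact u3_sub F _ _ h3 h1

end

/-- the complement of a maximal filter gives a prime ideal -/
theorem p_U3 : S_U3 := by
  intro N _ _ _ F
  refine ⟨u3_one F, fun a b hab hb => u3_le F (abs_nonneg a) hab hb, ?_, u3_four F, ?_⟩
  · intro a b hab
    by_contra h
    push Not at h
    exact F.zero (hab ▸ F.inf _ h.1 _ h.2)
  · intro n a hn h
    obtain ⟨m, rfl | rfl⟩ := n.eq_nat_or_neg
    · rw [natCast_zsmul] at h
      exact u3_pos F a m (by exact_mod_cast hn) h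
    · rw [neg_smul, natCast_zsmul, abs_neg] at h
      exact u3_pos F a m (by
        intro h0
        apply hn
        rw [h0]
        simp) h

end Pool.Agent.CN
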