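import Pool.Agent.Lib.MP_764a00_al.Stm

/-!
# MP_764a00_al : the quotient by a minimal prime ideal is totally ordered
-/

namespace Pool.Agent.CN

section

variable {N : Type} [AddCommGroup N] [Lattice N] [IsOrderedAddMonoid N]

/-- the prime ideal of `F` -/
def u4_Q (h3 : S_U3) (F : Ultra N) : AddSubgroup N where
  carrier := {a | |a| ∉ F.F}
  add_mem' := fun {a b} ha hb => (h3 N F).1 a b ha hb
  zero_mem' := by
    show |(0 : N)| ∉ F.F
    rw [abs_zero]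
    exact F.zero
  neg_mem' := by
    intro a ha
    show |-a| ∉ F.F
    rw [abs_neg]
    exact ha

theorem u4_mem {h3 : S_U3} {F : Ultra N} {a : N} : a ∈ u4_Q h3 F ↔ |a| ∉ F.F := Iff.rfl

theorem u4_solid {h3 : S_U3} {F : Ultra N} {a b : N} (h : |a| ≤ |b|) (hb : b ∈ u4_Q h3 F) :
    a ∈ u4_Q h3 F := (h3 N F).2.1 a b h hb

theorem u4_solid' {h3 : S_U3} {F : Ultra N} {a b : N} (ha : 0 ≤ a) (h : a ≤ b)
    (hb : b ∈ u4_Q h3 F) : a ∈ u4_Q h3 F :=
  u4_solid (by rw [abs_of_nonneg ha, abs_of_nonneg (ha.trans h)]; exact h) hb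

/-- the positive cone of the quotient -/
def u4_C (h3 : S_U3) (F : Ultra N) : AddGroupCone (N ⧸ u4_Q h3 F) where
  carrier := {x | ∃ a : N, 0 ≤ a ∧ QuotientAddGroup.mk' (u4_Q h3 F) a = x}
  add_mem' := by
    rintro _ _ ⟨a, ha, rfl⟩ ⟨b, hb, rfl⟩
    exact ⟨a + b, add_nonneg ha hb, map_add _ _ _⟩
  zero_mem' := ⟨0, le_rfl, map_zero _⟩
  eq_zero_of_mem_of_neg_mem' := by
    rintro _ ⟨a, ha, rfl⟩ ⟨b, hb, h⟩
    have h1 : QuotientAddGroup.mk' (u4_Q h3 F) (a + b) = 0 := by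
      rw [map_add, h, add_neg_cancel]
    rw [QuotientAddGroup.mk'_apply, QuotientAddGroup.eq_zero_iff] at h1
    rw [QuotientAddGroup.mk'_apply, QuotientAddGroup.eq_zero_iff]
    exact u4_solid' ha (le_add_of_nonneg_right hb) h1

theorem u4_memC {h3 : S_U3} {F : Ultra N} {x : N ⧸ u4_Q h3 F} :
    x ∈ u4_C h3 F ↔ ∃ a : N, 0 ≤ a ∧ QuotientAddGroup.mk' (u4_Q h3 F) a = x := Iff.rfl

theorem u4_posneg (h3 : S_U3) (F : Ultra N) (a : N) : a⁺ ∈ u4_Q h3 F ∨ a⁻ ∈ u4_Q h3 F :=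
  (h3 N F).2.2.2.1 a

instance u4_max (h3 : S_U3) (F : Ultra N) : HasMemOrNegMem (u4_C h3 F) where
  mem_or_neg_mem := by
    intro x
    obtain ⟨a, rfl⟩ := QuotientAddGroup.mk'_surjective (u4_Q h3 F) x
    rcases u4_posneg h3 F a with h | h
    · right
      refine ⟨a⁻, negPart_nonneg a, ?_⟩
      have h1 : QuotientAddGroup.mk' (u4_Q h3 F) a⁺ = 0 := by
        rw [QuotientAddGroup.mk'_apply, QuotientAddGroup.eq_zero_iff]
        exact h
      have h2 : QuotientAddGroup.mk' (u4_Q h3 F) (a⁺ - a⁻) =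
          QuotientAddGroup.mk' (u4_Q h3 F) a := by rw [posPart_sub_negPart]
      rw [map_sub, h1, zero_sub] at h2
      rw [← h2, neg_neg]
    · left
      refine ⟨a⁺, posPart_nonneg a, ?_⟩
      have h1 : QuotientAddGroup.mk' (u4_Q h3 F) a⁻ = 0 := by
        rw [QuotientAddGroup.mk'_apply, QuotientAddGroup.eq_zero_iff]
        exact h
      have h2 : QuotientAddGroup.mk' (u4_Q h3 F) (a⁺ - a⁻) =
          QuotientAddGroup.mk' (u4_Q h3 F) a := by rw [posPart_sub_negPart]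
      rw [map_sub, h1, sub_zero] at h2
      exact h2

theorem u4_sup (a b : N) : a ⊔ b = b + (a - b)⁺ := by
  rw [posPart_def, add_sup]
  simp

theorem u4_inf (a b : N) : a ⊓ b = a - (a - b)⁺ := by
  rw [posPart_def, sub_sup]
  simp [inf_comm]

theorem u4_zero {h3 : S_U3} {F : Ultra N} {a : N} :
    QuotientAddGroup.mk' (u4_Q h3 F) a = 0 ↔ a ∈ u4_Q h3 F := by
  rw [QuotientAddGroup.mk'_apply, QuotientAddGroup.eq_zero_iff]

end

theorem p_U4 (h3 : S_U3) : S_U4 := by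
  intro N _ _ _ F
  classical
  let o : LinearOrder (N ⧸ u4_Q h3 F) := LinearOrder.mkOfAddGroupCone (u4_C h3 F)
  have ho : IsOrderedAddMonoid (N ⧸ u4_Q h3 F) := IsOrderedAddMonoid.mkOfCone (u4_C h3 F)
  have key : ∀ x y : N,
      (QuotientAddGroup.mk' (u4_Q h3 F) (x - y)⁺ = 0 ∧
        QuotientAddGroup.mk' (u4_Q h3 F) x ≤ QuotientAddGroup.mk' (u4_Q h3 F) y) ∨
      (QuotientAddGroup.mk' (u4_Q h3 F) (x - y)⁺ =
          QuotientAddGroup.mk' (u4_Q h3 F) x - QuotientAddGroup.mk' (u4_Q h3 F) y ∧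
        QuotientAddGroup.mk' (u4_Q h3 F) y ≤ QuotientAddGroup.mk' (u4_Q h3 F) x) := by
    intro x y
    have h2 : QuotientAddGroup.mk' (u4_Q h3 F) (x - y)⁺ -
        QuotientAddGroup.mk' (u4_Q h3 F) (x - y)⁻ =
        QuotientAddGroup.mk' (u4_Q h3 F) x - QuotientAddGroup.mk' (u4_Q h3 F) y := by
      rw [← map_sub, ← map_sub, posPart_sub_negPart]
    rcases u4_posneg h3 F (x - y) with h | h
    · left
      rw [← u4_zero] at h
      refine ⟨h, ?_⟩
      rw [h, zero_sub] at h2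
      show QuotientAddGroup.mk' (u4_Q h3 F) y - QuotientAddGroup.mk' (u4_Q h3 F) x ∈ u4_C h3 F
      refine ⟨(x - y)⁻, negPart_nonneg _, ?_⟩
      rw [← neg_sub (QuotientAddGroup.mk' (u4_Q h3 F) x), ← h2, neg_neg]
    · right
      rw [← u4_zero] at h
      rw [h, sub_zero] at h2
      refine ⟨h2, ?_⟩
      show QuotientAddGroup.mk' (u4_Q h3 F) x - QuotientAddGroup.mk' (u4_Q h3 F) y ∈ u4_C h3 F
      exact ⟨(x - y)⁺, posPart_nonneg _, h2⟩
  refine ⟨N ⧸ u4_Q h3 F, inferInstance, o, ho, QuotientAddGroup.mk' (u4_Q h3 F), ?_, ?_, ?_⟩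
  · intro x y
    rw [u4_sup, map_add]
    rcases key x y with ⟨h1, h2⟩ | ⟨h1, h2⟩
    · rw [h1, add_zero, sup_eq_right.2 h2]
    · rw [h1, add_sub_cancel, sup_eq_left.2 h2]
  · intro x y
    rw [u4_inf, map_sub]
    rcases key x y with ⟨h1, h2⟩ | ⟨h1, h2⟩
    · rw [h1, sub_zero, inf_eq_left.2 h2]
    · rw [h1, sub_sub_cancel, inf_eq_right.2 h2]
  · intro a
    exact u4_zero

end Pool.Agent.CN
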