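import Pool.Agent.Lib.MP_764a00_al.W.Stm

/-!
# MP_764a00_al : the names of the elements
-/

namespace Pool.Agent.CNW

open Pool.Agent.CN Pool.Agent.CR Cardinal

/-- a name is not one of its own elements -/
private theorem w1_irr {P : Type} (τ : Nm P) : ∀ b : τ.Ix, τ.fn b ≠ τ := by
  induction τ with
  | mk α A c ih =>
    intro b h
    have h1 : A b = Nm.mk α A c := h
    have h2 : ∀ b' : (Nm.mk α A c).Ix, (Nm.mk α A c).fn b' ≠ Nm.mk α A c := by
      have h3 := ih b
      exact h1 ▸ h3
    exact h2 b h1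

section

variable {M : Type} [AddCommGroup M] {B : Set M} {lam : Cardinal.{0}}

private theorem w1_elN (x : M) : (elN x : Nm (Cond M B lam)) =
    .mk {z : M × Cond M B lam // WellOrderingRel z.1 x} (fun z => elN z.1.1) (fun z => z.1.2) := by
  conv_lhs => rw [elN, WellFounded.fix_eq]
  rfl

/-- smaller elements have names which are elements of the name -/
private theorem w1_child {x y : M} (h : WellOrderingRel x y) (p : Cond M B lam) :
    ∃ b : (elN y : Nm (Cond M B lam)).Ix, (elN y : Nm (Cond M B lam)).fn b = elN x ∧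
      (elN y : Nm (Cond M B lam)).cd b = p := by
  rw [w1_elN y]
  exact ⟨⟨(x, p), h⟩, rfl, rfl⟩

private theorem w1_inj (p : Cond M B lam) {x y : M}
    (h : (elN x : Nm (Cond M B lam)) = elN y) : x = y := by
  rcases trichotomous_of (WellOrderingRel : M → M → Prop) x y with h1 | h1 | h1
  · obtain ⟨b, hb, _⟩ := w1_child h1 p
    exact absurd (hb.trans h) (w1_irr _ b)
  · exact h1
  · obtain ⟨b, hb, _⟩ := w1_child h1 p
    exact absurd (hb.trans h.symm) (w1_irr _ b)

end

theorem p_W1 : S_W1 := by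
  intro M _ B lam
  refine ((FW.ev_ne (π := ppi M B lam)).and
    ((FW.ev_rel fun l o => ∃ x : M, l = [Ob.nm (elN x)] ∧ o = Ob.el x).and
    (FW.ev_rel fun l o => ∃ x : M, l = [Ob.el x] ∧ o = Ob.nm (elN x)))).mono ?_
  rintro S G ⟨⟨p, hp⟩, h1, h2⟩
  have hto : ∀ x : M, Ob.el x ∈ S → (elN x : Nm (Cond M B lam)) ∈ (ppi M B lam).H S := by
    intro x hx
    obtain ⟨o, ho, x', e, e'⟩ := h2 [Ob.el x] (by simpa using hx) ⟨_, x, rfl, rfl⟩
    obtain rfl : x = x' := by simpa using e
    subst e'
    exact ho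
  refine ⟨fun x => ⟨fun hx => ?_, hto x⟩, ?_⟩
  · have hx' : Ob.nm (elN x : Nm (Cond M B lam)) ∈ S := hx
    obtain ⟨o, ho, x', e, e'⟩ := h1 [Ob.nm (elN x)] (by simpa using hx') ⟨_, x, rfl, rfl⟩
    have e2 : (elN x : Nm (Cond M B lam)) = elN x' := by simpa using e
    obtain rfl := w1_inj p e2
    subst e'
    exact ho
  · have key : ∀ x y : M, Ob.el x ∈ S → WellOrderingRel x y →
        (ppi M B lam).vl S G (elN x) = (ppi M B lam).vl S G (elN y) → False := by
      intro x y hx h hv
      obtain ⟨b, hb1, hb2⟩ := w1_child (B := B) (lam := lam) h p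
      have hmem : (ppi M B lam).vl S G (elN x) ∈ (ppi M B lam).vl S G (elN y) := by
        unfold FW.Pr.vl
        rw [mem_val]
        exact ⟨b, by rw [hb1]; exact hto x hx, by rw [hb2]; exact hp, by rw [hb1]⟩
      rw [hv] at hmem
      exact ZFSet.mem_irrefl _ hmem
    intro x y hx hy hv
    rcases trichotomous_of (WellOrderingRel : M → M → Prop) x y with h | h | h
    · exact (key x y hx h hv).elim
    · exact h
    · exact (key y x hy h hv.symm).elim

end Pool.Agent.CNW
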