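import Pool.Agent.Lib.MP_764a00_al.W.Stm

/-! W3: the value of the name of the group. (helper39) -/

namespace Pool.Agent.CNW

open Pool.Agent.CN Pool.Agent.CR Pool.Agent.FW Cardinal

/-- the value of the name of the group -/
theorem p_W3 (w1 : S_W1) : S_W3 := by
  intro M _ B lam
  refine ((w1 M B lam).and (ev_nmop (fun _ => (grN : Nm (Cond M B lam))))).mono ?_
  rintro S G ⟨⟨h1, _⟩, h2⟩
  refine ⟨h2 [] (by simp), fun z => ?_⟩
  unfold Pr.vl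
  rw [mem_val]
  constructor
  · rintro ⟨⟨⟨x, p⟩, hx⟩, h3, h4, h5⟩
    exact ⟨x, ⟨(h1 x).1 h3, p, h4, hx⟩, h5⟩
  · rintro ⟨x, ⟨h3, p, h4, h5⟩, h6⟩
    exact ⟨⟨(x, p), h5⟩, (h1 x).2 h3, h4, h6⟩

end Pool.Agent.CNW
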