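import Pool.Agent.Lib.MP_764a00_al.W.Stm

/-!
# MP_764a00_al : the value of the name of the addition
-/

namespace Pool.Agent.CNW

open Pool.Agent.CN Pool.Agent.CR Cardinal

section

variable {M : Type} [AddCommGroup M] {B : Set M} {lam : Cardinal.{0}}

/-- the name of one element of the graph -/
private noncomputable def w4_T (x y : M) : Nm (Cond M B lam) :=
  FW.opN (FW.opN (elN x) (elN y)) (elN (x + y))

end

theorem p_W4 (w1 : S_W1) : S_W4 := by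
  intro M _ B lam
  refine ((w1 M B lam).and ((FW.ev_opN (π := ppi M B lam)).and
    ((FW.ev_dir (π := ppi M B lam)).and ((FW.ev_sub (π := ppi M B lam)).and
    ((FW.ev_nmop (π := ppi M B lam) fun _ => adN).and
    ((FW.ev_rel (π := ppi M B lam) fun l o => ∃ x y : M, l = [Ob.el x, Ob.el y] ∧
      o = Ob.el (x + y)).and
    ((FW.ev_rel (π := ppi M B lam) fun l o => ∃ (τ : Nm (Cond M B lam)) (p : Cond M B lam)
      (x : M), l = [Ob.nm τ, Ob.cn p] ∧ o = Ob.el x ∧ ∃ y, τ = w4_T x y ∧ x ∈ p.H ∧ y ∈ p.H).and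
    (FW.ev_rel (π := ppi M B lam) fun l o => ∃ (τ : Nm (Cond M B lam)) (p : Cond M B lam)
      (x y : M), l = [Ob.nm τ, Ob.cn p, Ob.el x] ∧ o = Ob.el y ∧ τ = w4_T x y ∧ x ∈ p.H ∧
        y ∈ p.H)))))))).mono ?_
  rintro S G ⟨⟨h1, -⟩, hop, hdir, hsub, had, hadd, hR1, hR2⟩
  -- the value of the name of one element of the graph
  have hsum : ∀ x y : M, Ob.el x ∈ S → Ob.el y ∈ S → Ob.el (x + y) ∈ S := by
    intro x y hx hy
    obtain ⟨o, ho, x', y', e, rfl⟩ := hadd [Ob.el x, Ob.el y] (by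
      intro w hw
      simp only [List.mem_cons, List.not_mem_nil, or_false] at hw
      rcases hw with rfl | rfl
      · exact hx
      · exact hy) ⟨_, x, y, rfl, rfl⟩
    obtain ⟨rfl, rfl⟩ : x = x' ∧ y = y' := by simpa using e
    exact ho
  have hT : ∀ x y : M, Ob.el x ∈ S → Ob.el y ∈ S →
      (w4_T x y : Nm (Cond M B lam)) ∈ (ppi M B lam).H S ∧
      (ppi M B lam).vl S G (w4_T x y) =
        ZFSet.pair (ZFSet.pair ((ppi M B lam).vl S G (elN x)) ((ppi M B lam).vl S G (elN y)))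
          ((ppi M B lam).vl S G (elN (x + y))) := by
    intro x y hx hy
    obtain ⟨a1, a2⟩ := hop (elN x) ((h1 x).2 hx) (elN y) ((h1 y).2 hy)
    obtain ⟨b1, b2⟩ := hop _ a1 (elN (x + y)) ((h1 (x + y)).2 (hsum x y hx hy))
    refine ⟨b1, ?_⟩
    rw [w4_T, b2, a2]
  refine ⟨had [] (by simp), fun z => ?_⟩
  have hmem : z ∈ (ppi M B lam).vl S G adN ↔ ∃ b : {z : M × M × Cond M B lam //
      z.1 ∈ z.2.2.H ∧ z.2.1 ∈ z.2.2.H}, (w4_T b.1.1 b.1.2.1 : Nm (Cond M B lam)) ∈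
        (ppi M B lam).H S ∧ b.1.2.2 ∈ G ∧
        z = (ppi M B lam).vl S G (w4_T b.1.1 b.1.2.1) := by
    unfold FW.Pr.vl
    rw [mem_val]
    exact Iff.rfl
  rw [hmem]
  constructor
  · rintro ⟨⟨⟨x₀, y₀, p⟩, hx₀, hy₀⟩, hτ, hp, hz⟩
    have hx₀' : x₀ ∈ p.H := hx₀
    have hy₀' : y₀ ∈ p.H := hy₀
    have hτ' : Ob.nm (w4_T x₀ y₀ : Nm (Cond M B lam)) ∈ S := hτ
    have hp' : Ob.cn p ∈ S := hsub hp
    obtain ⟨o, ho, τ', p', x', e, rfl, y', e1, hx', hy'⟩ := hR1 [Ob.nm (w4_T x₀ y₀), Ob.cn p] (by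
      intro w hw
      simp only [List.mem_cons, List.not_mem_nil, or_false] at hw
      rcases hw with rfl | rfl
      · exact hτ'
      · exact hp') ⟨_, _, p, x₀, rfl, rfl, y₀, rfl, hx₀', hy₀'⟩
    obtain ⟨e2, rfl⟩ : w4_T x₀ y₀ = τ' ∧ p = p' := by simpa using e
    obtain ⟨o, ho2, τ'', p'', x'', y'', e3, rfl, e4, e5, e6⟩ :=
      hR2 [Ob.nm (w4_T x₀ y₀), Ob.cn p, Ob.el x'] (by
      intro w hw
      simp only [List.mem_cons, List.not_mem_nil, or_false] at hw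
      rcases hw with rfl | rfl | rfl
      · exact hτ'
      · exact hp'
      · exact ho) ⟨_, _, p, x', y', rfl, rfl, e2.trans e1, hx', hy'⟩
    obtain ⟨e7, rfl, rfl⟩ : w4_T x₀ y₀ = τ'' ∧ p = p'' ∧ x' = x'' := by simpa using e3
    refine ⟨x', ⟨ho, p, hp, e5⟩, y'', ⟨ho2, p, hp, e6⟩, ?_⟩
    rw [hz]
    show (ppi M B lam).vl S G (w4_T x₀ y₀) = _
    rw [e7, e4]
    exact (hT x' y'' ho ho2).2
  · rintro ⟨x, ⟨hx, p1, hp1, hxp⟩, y, ⟨hy, p2, hp2, hyp⟩, hz⟩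
    obtain ⟨r, hr, h2, h3⟩ := hdir p1 hp1 p2 hp2
    obtain ⟨c1, c2⟩ := hT x y hx hy
    exact ⟨⟨(x, y, r), h2.1 hxp, h3.1 hyp⟩, c1, hr, by rw [hz, ← c2]⟩

end Pool.Agent.CNW
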