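import Pool.Agent.Lib.MP_764a00_al.W.Stm

/-!
MP_764a00_al, piece W5: the relations of the world.
-/

namespace Pool.Agent.CNW

open Pool.Agent.CN Pool.Agent.CR Cardinal

/-- the relations of the world -/
theorem p_W5 (w1 : S_W1) : S_W5 := by
  intro M _ B lam
  refine ((w1 M B lam).and (FW.ev_opN.and FW.ev_mem)).mono ?_
  rintro S G ⟨h1, h2, h3⟩ τ hτ x hx y hy
  have hx' := (h1.1 x).2 hx.1
  have hy' := (h1.1 y).2 hy.1
  obtain ⟨h4, h5⟩ := h2 _ hx' _ hy'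
  rw [← h5]
  exact h3 _ h4 _ hτ

end Pool.Agent.CNW
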