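import Pool.Agent.Lib.MP_764a00_al.W.Stm

/-!
# MP_764a00_al : if the relation is an Archimedean lattice order in the world then this is forced
-/

namespace Pool.Agent.CNW

open Pool.Agent.CN Pool.Agent.CR Cardinal

section

variable {M : Type} [AddCommGroup M] {B : Set M} {lam : Cardinal.{0}}

private theorem w6_wit (W : Nm (Cond M B lam) → Cond M B lam → List M → M → Prop) :
    FW.Ev (ppi M B lam) (fun S _ => ∀ τ ∈ (ppi M B lam).H S, ∀ q ∈ (ppi M B lam).Q S,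
      ∀ l : List M, (∀ x ∈ l, Ob.el x ∈ S) → (∃ x, W τ q l x) → ∃ x, Ob.el x ∈ S ∧ W τ q l x) := by
  refine (FW.ev_rel fun l o => ∃ (τ : Nm (Cond M B lam)) (q : Cond M B lam) (l' : List M) (x : M),
    l = Ob.nm τ :: Ob.cn q :: l'.map Ob.el ∧ o = Ob.el x ∧ W τ q l' x).mono ?_
  rintro S G h τ hτ q hq l hl ⟨x, hx⟩
  obtain ⟨o, ho, τ', q', l', x', h1, h2, h3⟩ := h (Ob.nm τ :: Ob.cn q :: l.map Ob.el) (by
    intro z hz
    rcases List.mem_cons.1 hz with rfl | hz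
    · exact hτ
    · rcases List.mem_cons.1 hz with rfl | hz
      · exact hq
      · obtain ⟨y, hy, rfl⟩ := List.mem_map.1 hz
        exact hl y hy) ⟨Ob.el x, τ, q, l, x, rfl, rfl, hx⟩
  have e1 : τ' = τ := by
    have := (List.cons_eq_cons.1 h1).1
    injection this with this
    exact this.symm
  have e2 : q' = q := by
    have := (List.cons_eq_cons.1 (List.cons_eq_cons.1 h1).2).1
    injection this with this
    exact this.symm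
  have e3 : l' = l := by
    have h4 := (List.cons_eq_cons.1 (List.cons_eq_cons.1 h1).2).2
    have hinj : Function.Injective (Ob.el : M → Ob M B lam) := by
      intro a b hab
      injection hab
    exact (List.map_injective_iff.2 hinj h4).symm
  subst e1 e2 e3
  subst h2
  exact ⟨x', ho, h3⟩

private theorem w6_wit3 (W : Nm (Cond M B lam) → Cond M B lam → M → M → M → Prop) :
    FW.Ev (ppi M B lam) (fun S _ => ∀ τ ∈ (ppi M B lam).H S, ∀ q ∈ (ppi M B lam).Q S,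
      (∃ x y z, W τ q x y z) → ∃ x y z, Ob.el x ∈ S ∧ Ob.el y ∈ S ∧ Ob.el z ∈ S ∧
        W τ q x y z) := by
  refine ((w6_wit fun τ q _ x => ∃ y z, W τ q x y z).and
    ((w6_wit fun τ q l y => ∃ x, l = [x] ∧ ∃ z, W τ q x y z).and
    (w6_wit fun τ q l z => ∃ x y, l = [x, y] ∧ W τ q x y z))).mono ?_
  rintro S G ⟨h1, h2, h3⟩ τ hτ q hq hW
  obtain ⟨x, hx, hx'⟩ := h1 τ hτ q hq [] (by simp) hW
  obtain ⟨y0, hy0⟩ := hx'
  obtain ⟨y, hy, x', e, hy'⟩ := h2 τ hτ q hq [x] (by simpa using hx) ⟨y0, x, rfl, hy0⟩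
  obtain rfl : x = x' := by simpa using e
  obtain ⟨z0, hz0⟩ := hy'
  obtain ⟨z, hz, x', y', e, hz'⟩ := h3 τ hτ q hq [x, y] (by
    intro w hw
    simp only [List.mem_cons, List.not_mem_nil, or_false] at hw
    rcases hw with rfl | rfl
    · exact hx
    · exact hy) ⟨z0, x, y, rfl, hz0⟩
  obtain ⟨rfl, rfl⟩ : x = x' ∧ y = y' := by simpa using e
  exact ⟨x, y, z, hx, hy, hz, hz'⟩

/-- a violation is attained in the filter or excluded by an element of the filter -/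
private theorem w6_cl (W : Nm (Cond M B lam) → Cond M B lam → M → M → M → Prop) :
    FW.Ev (ppi M B lam) (fun S G => ∀ τ ∈ (ppi M B lam).H S,
      (∃ s ∈ G, ∃ x y z, Ob.el x ∈ S ∧ Ob.el y ∈ S ∧ Ob.el z ∈ S ∧ W τ s x y z) ∨
      ∃ p ∈ G, ∀ q ≤ p, ∀ x y z, ¬ W τ q x y z) := by
  refine ((FW.ev_gen fun l => {q | ∃ τ, l = [Ob.nm τ] ∧ ∃ x y z, W τ q x y z}).and
    (FW.ev_sub.and (w6_wit3 W))).mono ?_
  rintro S G ⟨h1, h2, h3⟩ τ hτ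
  have hτ' : Ob.nm τ ∈ S := hτ
  rcases h1 [Ob.nm τ] (by simpa using hτ') with ⟨s, hs, τ', e, hW⟩ | ⟨p, hp, hp'⟩
  · obtain rfl : τ = τ' := by simpa using e
    exact Or.inl ⟨s, hs, h3 τ hτ s (h2 hs) hW⟩
  · exact Or.inr ⟨p, hp, fun q hq x y z hW => hp' q ⟨τ, rfl, x, y, z, hW⟩ q hq le_rfl⟩

/-- the same with two parameters -/
private theorem w6_cl2 (W : Nm (Cond M B lam) → M → M → Cond M B lam → M → Prop) :
    FW.Ev (ppi M B lam) (fun S G => ∀ τ ∈ (ppi M B lam).H S, ∀ x y, Ob.el x ∈ S → Ob.el y ∈ S →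
      (∃ s ∈ G, ∃ z, Ob.el z ∈ S ∧ W τ x y s z) ∨ ∃ p ∈ G, ∀ q ≤ p, ∀ z, ¬ W τ x y q z) := by
  refine ((FW.ev_gen fun l => {q | ∃ τ x y, l = [Ob.nm τ, Ob.el x, Ob.el y] ∧
    ∃ z, W τ x y q z}).and
    (FW.ev_sub.and (w6_wit fun τ q l z => ∃ x y, l = [x, y] ∧ W τ x y q z))).mono ?_
  rintro S G ⟨h1, h2, h3⟩ τ hτ x y hx hy
  rcases h1 [Ob.nm τ, Ob.el x, Ob.el y] (by
    intro w hw
    simp only [List.mem_cons, List.not_mem_nil, or_false] at hw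
    rcases hw with rfl | rfl | rfl
    · exact hτ
    · exact hx
    · exact hy) with ⟨s, hs, τ', x', y', e, z0, hz0⟩ | ⟨p, hp, hp'⟩
  · obtain ⟨rfl, rfl, rfl⟩ : τ = τ' ∧ x = x' ∧ y = y' := by simpa using e
    obtain ⟨z, hz, x', y', e', hW⟩ := h3 τ hτ s (h2 hs) [x, y] (by
      intro w hw
      simp only [List.mem_cons, List.not_mem_nil, or_false] at hw
      rcases hw with rfl | rfl
      · exact hx
      · exact hy) ⟨z0, x, y, rfl, hz0⟩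
    obtain ⟨rfl, rfl⟩ : x = x' ∧ y = y' := by simpa using e'
    exact Or.inl ⟨s, hs, z, hz, hW⟩
  · exact Or.inr ⟨p, hp, fun q hq z hW => hp' q ⟨τ, x, y, rfl, z, hW⟩ q hq le_rfl⟩

end

theorem p_W6 (w2 : S_W2) (w7 : S_W7) : S_W6 := by
  intro M _ B lam
  refine ((FW.ev_dir (π := ppi M B lam)).and ((w2 M B lam).and
    ((w6_cl fun τ q x _ _ => x ∈ q.H ∧ ∀ r ≤ q, ¬ Rn τ r x x).and
    ((w6_cl fun τ q x y z => x ∈ q.H ∧ y ∈ q.H ∧ z ∈ q.H ∧ Rn τ q x y ∧ Rn τ q y z ∧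
      ∀ r ≤ q, ¬ Rn τ r x z).and
    ((w6_cl fun τ q x y _ => x ∈ q.H ∧ y ∈ q.H ∧ Rn τ q x y ∧ Rn τ q y x ∧ x ≠ y).and
    ((w6_cl fun τ q x y z => x ∈ q.H ∧ y ∈ q.H ∧ z ∈ q.H ∧ Rn τ q x y ∧
      ∀ r ≤ q, ¬ Rn τ r (z + x) (z + y)).and
    ((w6_cl fun τ q x _ _ => x ∈ q.H ∧ ∀ r ≤ q, ∀ y ∈ r.H, ¬ FPos (Rn τ) r x y).and
    ((w6_cl fun τ q x y _ => x ∈ q.H ∧ y ∈ q.H ∧ (∀ n : ℕ, Rn τ q (n • x) y) ∧
      ∀ r ≤ q, ¬ Rn τ r x 0).and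
    (w6_cl2 fun τ x y s z => z ∈ s.H ∧ Rn τ s 0 z ∧ Rn τ s x z ∧
      ∀ s' ≤ s, ¬ Rn τ s' y z))))))))).mono ?_
  rintro S G ⟨hdir, ⟨A, hA⟩, hrfl, htrans, hanti, hadd, hpos, harch, hV⟩ τ hτ hal
  have w7' : ∀ (p q : Cond M B lam) (x y : M), q ≤ p → Rn τ p x y → Rn τ q x y :=
    fun p q x y => w7 M B lam τ p q x y
  have hG : ∀ {x : M} {q : Cond M B lam}, Ob.el x ∈ S → q ∈ G → x ∈ q.H → x ∈ Gw S G :=
    fun hx hq hxq => ⟨hx, _, hq, hxq⟩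
  -- `Le` is in conflict with a condition of `G` which forbids it
  have hno : ∀ {x y : M} {q : Cond M B lam}, q ∈ G → (∀ r ≤ q, ¬ Rn τ r x y) → ¬ Le G τ x y := by
    rintro x y q hq h ⟨p, hp, hpr⟩
    obtain ⟨r, _, h1, h2⟩ := hdir p hp q hq
    exact h r h2 (w7' p r x y h1 hpr)
  have h0 : (0 : M) ∈ Gw S G := by
    rw [← hA]
    exact A.zero_mem
  obtain ⟨p1, hp1, c1⟩ : ∃ p ∈ G, ∀ q ≤ p, ∀ x ∈ q.H, ∃ r ≤ q, Rn τ r x x := by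
    rcases hrfl τ hτ with ⟨s, hs, x, _, _, hx, _, _, hxs, hn⟩ | ⟨p, hp, h⟩
    · exact absurd (hal.rfl x (hG hx hs hxs)) (hno hs hn)
    · refine ⟨p, hp, fun q hq x hx => ?_⟩
      by_contra hc
      exact h q hq x x x ⟨hx, fun r hr hR => hc ⟨r, hr, hR⟩⟩
  obtain ⟨p2, hp2, c2⟩ : ∃ p ∈ G, ∀ q ≤ p, ∀ x ∈ q.H, ∀ y ∈ q.H, ∀ z ∈ q.H, Rn τ q x y →
      Rn τ q y z → ∃ r ≤ q, Rn τ r x z := by
    rcases htrans τ hτ with ⟨s, hs, x, y, z, hx, hy, hz, hxs, hys, hzs, h1, h2, hn⟩ | ⟨p, hp, h⟩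
    · exact absurd (hal.trans x (hG hx hs hxs) y (hG hy hs hys) z (hG hz hs hzs) ⟨s, hs, h1⟩
        ⟨s, hs, h2⟩) (hno hs hn)
    · refine ⟨p, hp, fun q hq x hx y hy z hz h1 h2 => ?_⟩
      by_contra hc
      exact h q hq x y z ⟨hx, hy, hz, h1, h2, fun r hr hR => hc ⟨r, hr, hR⟩⟩
  obtain ⟨p3, hp3, c3⟩ : ∃ p ∈ G, ∀ q ≤ p, ∀ x ∈ q.H, ∀ y ∈ q.H, Rn τ q x y → Rn τ q y x →
      x = y := by
    rcases hanti τ hτ with ⟨s, hs, x, y, _, hx, hy, _, hxs, hys, h1, h2, hn⟩ | ⟨p, hp, h⟩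
    · exact absurd (hal.anti x (hG hx hs hxs) y (hG hy hs hys) ⟨s, hs, h1⟩ ⟨s, hs, h2⟩) hn
    · refine ⟨p, hp, fun q hq x hx y hy h1 h2 => ?_⟩
      by_contra hc
      exact h q hq x y x ⟨hx, hy, h1, h2, hc⟩
  obtain ⟨p4, hp4, c4⟩ : ∃ p ∈ G, ∀ q ≤ p, ∀ x ∈ q.H, ∀ y ∈ q.H, ∀ z ∈ q.H, Rn τ q x y →
      ∃ r ≤ q, Rn τ r (z + x) (z + y) := by
    rcases hadd τ hτ with ⟨s, hs, x, y, z, hx, hy, hz, hxs, hys, hzs, h1, hn⟩ | ⟨p, hp, h⟩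
    · exact absurd (hal.add x (hG hx hs hxs) y (hG hy hs hys) z (hG hz hs hzs) ⟨s, hs, h1⟩)
        (hno hs hn)
    · refine ⟨p, hp, fun q hq x hx y hy z hz h1 => ?_⟩
      by_contra hc
      exact h q hq x y z ⟨hx, hy, hz, h1, fun r hr hR => hc ⟨r, hr, hR⟩⟩
  obtain ⟨p5, hp5, c5⟩ : ∃ p ∈ G, ∀ q ≤ p, ∀ x ∈ q.H, ∃ r ≤ q, ∃ y ∈ r.H, FPos (Rn τ) r x y := by
    rcases hpos τ hτ with ⟨q, hq, x, _, _, hx, _, _, hxq, hn⟩ | ⟨p, hp, h⟩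
    · exfalso
      obtain ⟨y, hy, ⟨pa, hpa, h0y⟩, ⟨pb, hpb, hxy⟩, hmin⟩ := hal.pos x (hG hx hq hxq)
      obtain ⟨hyS, pc, hpc, hyc⟩ := id hy
      obtain ⟨r1, hr1, hr1a, hr1b⟩ := hdir pa hpa pb hpb
      obtain ⟨r2, hr2, hr2a, hr2b⟩ := hdir pc hpc q hq
      obtain ⟨r3, hr3, hr3a, hr3b⟩ := hdir r1 hr1 r2 hr2
      rcases hV τ hτ x y hx hyS with ⟨s, hs, z, hz, hzs, h1, h2, h3⟩ | ⟨p', hp', h⟩
      · exact hno hs h3 (hmin z (hG hz hs hzs) ⟨s, hs, h1⟩ ⟨s, hs, h2⟩)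
      · obtain ⟨r, hr, hra, hrb⟩ := hdir r3 hr3 p' hp'
        refine hn r (hra.trans (hr3b.trans hr2b)) y ?_ ⟨?_, ?_, ?_⟩
        · exact (hra.trans (hr3b.trans hr2a)).1 hyc
        · exact w7' pa r 0 y (hra.trans (hr3a.trans hr1a)) h0y
        · exact w7' pb r x y (hra.trans (hr3a.trans hr1b)) hxy
        · intro q' hq' z hz h1 h2
          by_contra hc
          exact h q' (hq'.trans hrb) z ⟨hz, h1, h2, fun s' hs' hR => hc ⟨s', hs', hR⟩⟩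
    · refine ⟨p, hp, fun q hq x hx => ?_⟩
      by_contra hc
      exact h q hq x x x ⟨hx, fun r hr y hy hR => hc ⟨r, hr, y, hy, hR⟩⟩
  obtain ⟨p6, hp6, c6⟩ : ∃ p ∈ G, ∀ q ≤ p, ∀ x ∈ q.H, ∀ y ∈ q.H, (∀ n : ℕ, Rn τ q (n • x) y) →
      ∃ r ≤ q, Rn τ r x 0 := by
    rcases harch τ hτ with ⟨s, hs, x, y, _, hx, hy, _, hxs, hys, h1, hn⟩ | ⟨p, hp, h⟩
    · exact absurd (hal.arch x (hG hx hs hxs) y (hG hy hs hys) fun n => ⟨s, hs, h1 n⟩)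
        (hno hs hn)
    · refine ⟨p, hp, fun q hq x hx y hy h1 => ?_⟩
      by_contra hc
      exact h q hq x y x ⟨hx, hy, h1, fun r hr hR => hc ⟨r, hr, hR⟩⟩
  obtain ⟨a1, ha1, b1, b2⟩ := hdir p1 hp1 p2 hp2
  obtain ⟨a2, ha2, b3, b4⟩ := hdir p3 hp3 p4 hp4
  obtain ⟨a3, ha3, b5, b6⟩ := hdir p5 hp5 p6 hp6
  obtain ⟨a4, ha4, b7, b8⟩ := hdir a1 ha1 a2 ha2
  obtain ⟨p, hp, b9, b10⟩ := hdir a4 ha4 a3 ha3
  exact ⟨p, hp,
    { rfl := fun q hq => c1 q (hq.trans (b9.trans (b7.trans b1)))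
      trans := fun q hq => c2 q (hq.trans (b9.trans (b7.trans b2)))
      anti := fun q hq => c3 q (hq.trans (b9.trans (b8.trans b3)))
      add := fun q hq => c4 q (hq.trans (b9.trans (b8.trans b4)))
      pos := fun q hq => c5 q (hq.trans (b10.trans b5))
      arch := fun q hq => c6 q (hq.trans (b10.trans b6)) }⟩

end Pool.Agent.CNW
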