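import Pool.Agent.Lib.MP_764a00_al.W.Stm

/-! The forced relations are monotone (S_W7). -/

namespace Pool.Agent.CNW

open Pool.Agent.CN Pool.Agent.CR

theorem p_W7 : S_W7 := by
  intro M _ B lam τ p q x y hqp h
  exact Memf_mono h hqp

end Pool.Agent.CNW
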