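import Pool.Agent.Lib.MP_764a00_al.Stm

/-!
# MP_764a00_al : the outcomes for the combinations of the batch
-/

namespace Pool.Agent.CN

open Cardinal

private theorem bn_lc {M : Type} [AddCommGroup M] {I : Type} (k : I →₀ ℤ) (a : I → M) :
    lc k a = Finsupp.linearCombination ℤ a k := by
  rw [lc, Finsupp.linearCombination_apply]

private theorem bn_lc_sub {M : Type} [AddCommGroup M] {I : Type} (k k' : I →₀ ℤ) (a : I → M) :
    lc (k - k') a = lc k a - lc k' a := by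
  rw [bn_lc, bn_lc, bn_lc, map_sub]

private theorem bn_lc_smul {M : Type} [AddCommGroup M] {I : Type} (c : ℤ) (k : I →₀ ℤ)
    (a : I → M) : lc (c • k) a = c • lc k a := by
  rw [bn_lc, bn_lc, map_smul]

private theorem bn_range {M : Type} [AddCommGroup M] {I : Type} (x : I → M) (s : M)
    (hs : s ∈ AddSubgroup.closure (Set.range x)) : ∃ k : I →₀ ℤ, lc k x = s := by
  induction hs using AddSubgroup.closure_induction with
  | mem z hz =>
    obtain ⟨i, rfl⟩ := hz
    exact ⟨Finsupp.single i 1, by rw [bn_lc]; simp⟩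
  | zero => exact ⟨0, by rw [bn_lc]; simp⟩
  | add u v _ _ hu hv =>
    obtain ⟨k, rfl⟩ := hu
    obtain ⟨k', rfl⟩ := hv
    exact ⟨k + k', by rw [bn_lc, bn_lc, bn_lc, map_add]⟩
  | neg u _ hu =>
    obtain ⟨k, rfl⟩ := hu
    exact ⟨-k, by rw [bn_lc, bn_lc, map_neg]⟩

private theorem bn_pure {M : Type} [AddCommGroup M] (H : AddSubgroup M)
    (hp : ∀ z : M, (5 : ℤ) • z ∈ H → z ∈ H) (m : ℕ) (z : M) (h : (5 : ℤ) ^ m • z ∈ H) : z ∈ H := by
  induction m with
  | zero => simpa using h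
  | succ m ih =>
    apply ih
    apply hp
    rwa [smul_smul, ← pow_succ']

/-- the prime ideal of a maximal filter as a subgroup of `M` -/
private theorem bn_Q (h3 : S_U3) {M : Type} [AddCommGroup M] (L : LG M) (F : Ultra L.N) :
    ∃ Q : AddSubgroup M, ∀ z : M, z ∈ Q ↔ ∃ q : L.N, (q : M) = z ∧ |q| ∉ F.F := by
  obtain ⟨u1, u2, u3, u4, u5⟩ := h3 L.N F
  refine ⟨{ carrier := {z | ∃ q : L.N, (q : M) = z ∧ |q| ∉ F.F}
            add_mem' := ?_
            zero_mem' := ?_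
            neg_mem' := ?_ }, fun z => Iff.rfl⟩
  · rintro a b ⟨p, rfl, hp⟩ ⟨q, rfl, hq⟩
    exact ⟨p + q, by simp, u1 p q hp hq⟩
  · exact ⟨0, by simp, by rw [abs_zero]; exact F.zero⟩
  · rintro a ⟨p, rfl, hp⟩
    exact ⟨-p, by simp, by rwa [abs_neg]⟩

private theorem bn_digit (h3 : S_U3) {M : Type} [AddCommGroup M] (L : LG M) (X : ℕ → Set M)
    (TT : ℕ → Set (LG M × M)) (Γ : ℕ → Set M) {I : Type} (h : ℕ → M)
    (a : ℕ → I → M) (x : I → M) (hX : ∀ n, X n ⊆ L.N) (hO : Orth L X) (hlim : Lim h a x)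
    (hlev : ∀ n, Lev L (X n) (low Γ h a n) (Prod.fst '' TT n) (h n) (a n)) (n : ℕ)
    (F : Ultra L.N) (hF : On L (X n) F) (l : I) :
    x l - (5 : ℤ) ^ n • (h n + a n l) ∈ cb L F := by
  obtain ⟨Q, hQ⟩ := bn_Q h3 L F
  obtain ⟨u1, u2, u3, u4, u5⟩ := h3 L.N F
  obtain ⟨b, hb, hbF⟩ := hF
  have hXQ : ∀ i, i ≠ n → AddSubgroup.closure (X i) ≤ Q := by
    intro i hi
    rw [AddSubgroup.closure_le]
    intro c hc
    have hcN : c ∈ L.N := hX i hc
    refine (hQ c).2 ⟨⟨c, hcN⟩, rfl, ?_⟩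
    have := hO n i (Ne.symm hi) b ⟨c, hcN⟩ hb hc
    rcases u3 b ⟨c, hcN⟩ this with h' | h'
    · exact absurd hbF h'
    · exact h'
  intro K
  set K' := max K (n + 1) with hK'
  have hnK : n ∈ Finset.range K' := by
    rw [Finset.mem_range]; omega
  have h1 := hlim l K'
  rw [← Finset.add_sum_erase _ _ hnK] at h1
  set r : M := ∑ i ∈ (Finset.range K').erase n, (5 : ℤ) ^ i • (h i + a i l) with hr
  have hrQ : r ∈ Q := by
    rw [hr]
    refine AddSubgroup.sum_mem _ fun i hi => ?_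
    have hi' : i ≠ n := (Finset.mem_erase.1 hi).1
    refine AddSubgroup.zsmul_mem _ (AddSubgroup.add_mem _ (hXQ i hi' (hlev i).hX)
      (hXQ i hi' ((hlev i).aX l))) _
  obtain ⟨q, hq, hqF⟩ := (hQ r).1 hrQ
  refine ⟨q, hqF, ?_⟩
  have h2 : x l - (5 : ℤ) ^ n • (h n + a n l) - (q : M) =
      x l - ((5 : ℤ) ^ n • (h n + a n l) + r) := by
    rw [hq]; abel
  rw [h2]
  exact dv_anti (le_max_left _ _) h1

private theorem bn_shift (h3 : S_U3) {M : Type} [AddCommGroup M] (L : LG M) (X : ℕ → Set M)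
    (TT : ℕ → Set (LG M × M)) (Γ : ℕ → Set M) {I : Type} (h : ℕ → M)
    (a : ℕ → I → M) (x : I → M) (hX : ∀ n, X n ⊆ L.N) (hO : Orth L X) (hlim : Lim h a x)
    (hlev : ∀ n, Lev L (X n) (low Γ h a n) (Prod.fst '' TT n) (h n) (a n)) (n : ℕ)
    (F : Ultra L.N) (hF : On L (X n) F) (A : AddSubgroup M) (hA : (A : Set M) = cb L F)
    (g : M) (k : I →₀ ℤ) (hk : g + lc k x ∈ A) :
    g + ((5 : ℤ) ^ n * (k.sum fun _ c => c)) • h n + lc ((5 : ℤ) ^ n • k) (a n) ∈ cb L F := by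
  rw [← hA]
  have h1 : lc k x - (((5 : ℤ) ^ n * (k.sum fun _ c => c)) • h n + lc ((5 : ℤ) ^ n • k) (a n)) =
      ∑ l ∈ k.support, k l • (x l - (5 : ℤ) ^ n • (h n + a n l)) := by
    rw [bn_lc_smul, mul_smul, ← smul_add]
    simp only [lc, Finsupp.sum]
    rw [Finset.sum_smul, ← Finset.sum_add_distrib, Finset.smul_sum, ← Finset.sum_sub_distrib]
    refine Finset.sum_congr rfl fun l _ => ?_
    rw [smul_sub, ← smul_add, smul_comm]
  have h2 : lc k x - (((5 : ℤ) ^ n * (k.sum fun _ c => c)) • h n +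
      lc ((5 : ℤ) ^ n • k) (a n)) ∈ A := by
    rw [h1]
    refine AddSubgroup.sum_mem _ fun l _ => AddSubgroup.zsmul_mem _ ?_ _
    have := bn_digit h3 L X TT Γ h a x hX hO hlim hlev n F hF l
    rw [← hA] at this
    exact this
  have h4 := A.sub_mem hk h2
  have h5 : g + lc k x - (lc k x - (((5 : ℤ) ^ n * (k.sum fun _ c => c)) • h n +
      lc ((5 : ℤ) ^ n • k) (a n))) =
      g + ((5 : ℤ) ^ n * (k.sum fun _ c => c)) • h n + lc ((5 : ℤ) ^ n • k) (a n) := by abel
  rw [h5] at h4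
  exact h4

theorem p_BN (hd : S_DI) (hb : S_BS) (h3 : S_U3) : S_BN := by
  intro M _ L X H Γ TT I h a x hM hP hX hO hpure hmono hun hlim hlev t ht y hy hyT
  obtain ⟨m, hm⟩ := hy
  obtain ⟨g, hg, s, hs, hgs⟩ := AddSubgroup.mem_sup.1 hm
  obtain ⟨k, rfl⟩ := bn_range x s hs
  obtain ⟨ht0, htS⟩ := ht
  have hgH : g ∈ ⋃ n, Γ n := by rw [hun]; exact hg
  obtain ⟨n₀, hn₀⟩ := Set.mem_iUnion.1 hgH
  set k' : I →₀ ℤ := k - (5 : ℤ) ^ m • t with hk'
  have hsum : (k'.sum fun _ c => c) = k.sum fun _ c => c := by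
    have e1 : ∀ v : I →₀ ℤ, (v.sum fun _ c => c) =
        Finsupp.linearCombination ℤ (fun _ : I => (1 : ℤ)) v := by
      intro v
      rw [Finsupp.linearCombination_apply]
      simp
    rw [e1, e1, hk', map_sub, map_smul, ← e1 t, ht0]
    simp
  have hy' : (5 : ℤ) ^ m • (y - lc t x) = g + lc k' x := by
    rw [smul_sub, ← hgs, hk', bn_lc_sub, bn_lc_smul]
    abel
  have key : ∀ n ≥ n₀, (∀ l, ((5 : ℤ) ^ n • k) l = 0 ∨ ((5 : ℤ) ^ n • k') l = 0) ∧
      (5 : ℤ) ^ n * (k.sum fun _ c => c) = 0 ∧ Sm L (X n) g := by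
    intro n hn
    refine (hlev n).new g (AddSubgroup.subset_closure (Or.inl (hmono hn hn₀))) _ _ _ ?_
    intro F hF
    obtain ⟨A, hA, -, -⟩ := hb M L hM hP F
    rcases (hd M L hM hP _ y hyT F).2 with h1 | h1
    · left
      refine bn_shift h3 L X TT Γ h a x hX hO hlim hlev n F hF A hA g k ?_
      rw [hgs]
      refine A.zsmul_mem ?_ _
      rw [← hA] at h1
      exact h1
    · right
      rw [← hsum]
      refine bn_shift h3 L X TT Γ h a x hX hO hlim hlev n F hF A hA g k' ?_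
      rw [← hy']
      refine A.zsmul_mem ?_ _
      rw [← hA] at h1
      exact h1
  have h5 : ∀ n : ℕ, ((5 : ℤ) ^ n) ≠ 0 := fun n => by positivity
  obtain ⟨c1, c2, -⟩ := key n₀ le_rfl
  have c1' : ∀ l, k l = 0 ∨ k' l = 0 := by
    intro l
    rcases c1 l with h1 | h1
    · left
      rw [Finsupp.smul_apply, smul_eq_mul] at h1
      exact (mul_eq_zero.1 h1).resolve_left (h5 _)
    · right
      rw [Finsupp.smul_apply, smul_eq_mul] at h1
      exact (mul_eq_zero.1 h1).resolve_left (h5 _)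
  have c2' : (k.sum fun _ c => c) = 0 := (mul_eq_zero.1 c2).resolve_left (h5 _)
  have c3 : ∀ l ∈ k.support, k l = (5 : ℤ) ^ m * t l := by
    intro l hl
    have h1 := (c1' l).resolve_left (Finsupp.mem_support_iff.1 hl)
    rw [hk', Finsupp.sub_apply, Finsupp.smul_apply, smul_eq_mul] at h1
    linarith
  have c4 : k.support ⊆ t.support := by
    intro l hl
    rw [Finsupp.mem_support_iff]
    intro h0
    have := c3 l hl
    rw [h0, mul_zero] at this
    exact Finsupp.mem_support_iff.1 hl this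
  have c5 : ∑ l ∈ k.support, t l = 0 := by
    have h1 : (k.sum fun _ c => c) = (5 : ℤ) ^ m * ∑ l ∈ k.support, t l := by
      rw [Finsupp.sum, Finset.mul_sum]
      exact Finset.sum_congr rfl c3
    rw [c2'] at h1
    exact (mul_eq_zero.1 h1.symm).resolve_left (h5 _)
  have sm : ∀ z : M, (5 : ℤ) ^ m • z = g → ∃ n₀, ∀ n ≥ n₀, Sm L (X n) z := by
    intro z hz
    refine ⟨n₀, fun n hn F hF => ?_⟩
    have h1 := (key n hn).2.2 F hF
    obtain ⟨A, hA, -, hA3⟩ := hb M L hM hP F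
    rw [← hA] at h1 ⊢
    refine hA3 _ z (h5 m) ?_
    rw [hz]
    exact h1
  rcases htS _ c4 c5 with h0 | h0
  · left
    have hk0 : k = 0 := by
      ext l
      by_contra hl
      have : l ∈ k.support := Finsupp.mem_support_iff.2 hl
      rw [h0] at this
      simp at this
    have hy0 : (5 : ℤ) ^ m • y = g := by
      rw [← hgs, hk0, bn_lc]; simp
    refine ⟨bn_pure H hpure m y (by rw [hy0]; exact hg), sm y hy0⟩
  · right
    have hk0 : k' = 0 := by
      ext l
      by_cases hl : l ∈ k.support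
      · rw [hk', Finsupp.sub_apply, Finsupp.smul_apply, smul_eq_mul, c3 l hl]
        simp
      · have h1 : k l = 0 := by
          by_contra h2
          exact hl (Finsupp.mem_support_iff.2 h2)
        have h2 : t l = 0 := by
          by_contra h2
          exact hl (h0 ▸ Finsupp.mem_support_iff.2 h2)
        rw [hk', Finsupp.sub_apply, Finsupp.smul_apply, smul_eq_mul, h1, h2]
        simp
    have hy0 : (5 : ℤ) ^ m • (y - lc t x) = g := by
      rw [hy', hk0, bn_lc]; simp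
    refine ⟨bn_pure H hpure m _ (by rw [hy0]; exact hg), sm _ hy0⟩

end Pool.Agent.CN
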