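import Pool.Agent.Lib.MP_764a00_al.Stm

set_option autoImplicit false

/-! MP_764a00_al: closing off. -/

namespace Pool.Agent.CN

open Cardinal

/-- the operations -/
private noncomputable def cl_op {M : Type} [AddCommGroup M] (G : LG M) : ℕ → M → M → M := by
  classical
  exact fun j u v =>
    match j with
    | 0 => u + v
    | 1 => -u
    | 2 => 0
    | 3 => if h : u ∈ G.N ∧ v ∈ G.N then (((⟨u, h.1⟩ : G.N) ⊔ ⟨v, h.2⟩ : G.N) : M) else 0
    | 4 => if h : u ∈ G.N ∧ v ∈ G.N then (((⟨u, h.1⟩ : G.N) ⊓ ⟨v, h.2⟩ : G.N) : M) else 0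
    | 5 => if h : ∃ z : M, (5 : ℤ) • z = u ∧ z ∈ G.N then h.choose else 0
    | K + 6 => if h : ∃ z : G.N, (z : M) - u ∈ dv M K ∧ ((z⁺ : G.N) : M) - v ∈ dv M K then
        (h.choose : M) else 0

private theorem cl_op_mem {M : Type} [AddCommGroup M] (G : LG M) (j : ℕ) (u v : M)
    (hu : u ∈ G.N) (hv : v ∈ G.N) : cl_op G j u v ∈ G.N := by
  classical
  unfold cl_op
  match j with
  | 0 => exact G.N.add_mem hu hv
  | 1 => exact G.N.neg_mem hu
  | 2 => exact G.N.zero_mem
  | 3 =>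
    dsimp only
    split_ifs
    · exact Subtype.mem _
    · exact G.N.zero_mem
  | 4 =>
    dsimp only
    split_ifs
    · exact Subtype.mem _
    · exact G.N.zero_mem
  | 5 =>
    dsimp only
    split_ifs with h
    · exact h.choose_spec.2
    · exact G.N.zero_mem
  | K + 6 =>
    dsimp only
    split_ifs with h
    · exact Subtype.mem _
    · exact G.N.zero_mem

private theorem cl_op3 {M : Type} [AddCommGroup M] (G : LG M) (u v : M)
    (hu : u ∈ G.N) (hv : v ∈ G.N) :
    cl_op G 3 u v = (((⟨u, hu⟩ : G.N) ⊔ ⟨v, hv⟩ : G.N) : M) := by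
  unfold cl_op
  dsimp only
  rw [dif_pos ⟨hu, hv⟩]

private theorem cl_op4 {M : Type} [AddCommGroup M] (G : LG M) (u v : M)
    (hu : u ∈ G.N) (hv : v ∈ G.N) :
    cl_op G 4 u v = (((⟨u, hu⟩ : G.N) ⊓ ⟨v, hv⟩ : G.N) : M) := by
  unfold cl_op
  dsimp only
  rw [dif_pos ⟨hu, hv⟩]

private theorem cl_op5 {M : Type} [AddCommGroup M] (G : LG M) (u v z : M)
    (hz : (5 : ℤ) • z = u) (hzN : z ∈ G.N) : (5 : ℤ) • cl_op G 5 u v = u := by
  unfold cl_op
  dsimp only
  have h : ∃ z : M, (5 : ℤ) • z = u ∧ z ∈ G.N := ⟨z, hz, hzN⟩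
  rw [dif_pos h]
  exact h.choose_spec.1

private theorem cl_op6 {M : Type} [AddCommGroup M] (G : LG M) (K : ℕ) (u v : M)
    (h : ∃ z : G.N, (z : M) - u ∈ dv M K ∧ ((z⁺ : G.N) : M) - v ∈ dv M K) :
    ∃ z : G.N, cl_op G (K + 6) u v = z ∧ (z : M) - u ∈ dv M K ∧
      ((z⁺ : G.N) : M) - v ∈ dv M K := by
  refine ⟨h.choose, ?_, h.choose_spec⟩
  unfold cl_op
  dsimp only
  rw [dif_pos h]

/-- the steps of the closure -/
private def cl_step {M : Type} (f : ℕ → M → M → M) (B : Set M) : ℕ → Set M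
  | 0 => B
  | k + 1 => cl_step f B k ∪ ⋃ j : ℕ, (fun p : M × M => f j p.1 p.2) ''
      (cl_step f B k ×ˢ cl_step f B k)

private theorem cl_step_mono {M : Type} (f : ℕ → M → M → M) (B : Set M) :
    Monotone (cl_step f B) :=
  monotone_nat_of_le_succ fun k => by
    rw [cl_step]
    exact Set.subset_union_left

private theorem cl_closed {M : Type} (f : ℕ → M → M → M) (B : Set M) (j : ℕ) {u v : M}
    (hu : u ∈ ⋃ k, cl_step f B k) (hv : v ∈ ⋃ k, cl_step f B k) :
    f j u v ∈ ⋃ k, cl_step f B k := by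
  obtain ⟨k, hk⟩ := Set.mem_iUnion.1 hu
  obtain ⟨l, hl⟩ := Set.mem_iUnion.1 hv
  refine Set.mem_iUnion.2 ⟨max k l + 1, ?_⟩
  rw [cl_step]
  right
  exact Set.mem_iUnion.2 ⟨j, (u, v), ⟨cl_step_mono f B (le_max_left k l) hk,
    cl_step_mono f B (le_max_right k l) hl⟩, rfl⟩

private theorem cl_iUnion {M : Type} {lam : Cardinal.{0}} (hl : ℵ₀ ≤ lam) (A : ℕ → Set M)
    (h : ∀ j, #(A j) ≤ lam) : #(⋃ j, A j : Set M) ≤ lam := by
  calc #(⋃ j, A j : Set M) ≤ Cardinal.sum fun j => #(A j) := Cardinal.mk_iUnion_le_sum_mk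
    _ ≤ Cardinal.sum fun _ : ℕ => lam := Cardinal.sum_le_sum _ _ h
    _ = #ℕ * lam := by simp
    _ = ℵ₀ * lam := by rw [Cardinal.mk_nat]
    _ = lam := Cardinal.aleph0_mul_eq hl

private theorem cl_card {M : Type} {lam : Cardinal.{0}} (hl : ℵ₀ ≤ lam)
    (f : ℕ → M → M → M) (B : Set M) (hB : #B ≤ lam) : #(⋃ k, cl_step f B k : Set M) ≤ lam := by
  refine cl_iUnion hl _ fun k => ?_
  induction k with
  | zero => exact hB
  | succ k ih =>
    rw [cl_step]
    refine (Cardinal.mk_union_le _ _).trans ?_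
    refine (add_le_add ih (cl_iUnion hl _ fun j => ?_)).trans (Cardinal.add_eq_self hl).le
    refine Cardinal.mk_image_le.trans ?_
    rw [Cardinal.mk_setProd]
    exact (mul_le_mul' ih ih).trans (Cardinal.mul_eq_self hl).le

private theorem cl_sub {M : Type} (f : ℕ → M → M → M) (B : Set M) (N : Set M) (hB : B ⊆ N)
    (hf : ∀ j u v, u ∈ N → v ∈ N → f j u v ∈ N) : (⋃ k, cl_step f B k) ⊆ N := by
  refine Set.iUnion_subset fun k => ?_
  induction k with
  | zero => exact hB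
  | succ k ih =>
    rw [cl_step]
    refine Set.union_subset ih (Set.iUnion_subset fun j => ?_)
    rintro _ ⟨⟨u, v⟩, ⟨h1, h2⟩, rfl⟩
    exact hf j u v (ih h1) (ih h2)

theorem p_CL : S_CL := by
  intro M _ B lam G hM hlam hB hBN hP
  set f := cl_op G with hf
  set S : Set M := ⋃ k, cl_step f B k with hS
  have hSN : S ⊆ G.N := cl_sub f B G.N hBN (cl_op_mem G)
  have hcl : ∀ j u v, u ∈ S → v ∈ S → f j u v ∈ S := fun j u v hu hv => cl_closed f B j hu hv
  have hBS : B ⊆ S := fun b hb => Set.mem_iUnion.2 ⟨0, hb⟩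
  have hne : S.Nonempty := by
    have h1 : #B ≠ 0 := by
      rw [hB]; exact (Cardinal.aleph0_pos.trans_le hlam).ne'
    obtain ⟨b⟩ := Cardinal.mk_ne_zero_iff.1 h1
    exact ⟨b, hBS b.2⟩
  let Ng : AddSubgroup M :=
    { carrier := S
      add_mem' := fun {a b} ha hb => hcl 0 a b ha hb
      zero_mem' := by
        obtain ⟨b, hb⟩ := hne
        exact hcl 2 b b hb hb
      neg_mem' := fun {a} ha => hcl 1 a a ha ha }
  have hNg : Ng ≤ G.N := hSN
  let i : Ng → G.N := AddSubgroup.inclusion hNg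
  have hi : Function.Injective i := AddSubgroup.inclusion_injective hNg
  have hsupm : ∀ a b : Ng, ((i a ⊔ i b : G.N) : M) ∈ Ng := fun a b => by
    have h1 := hcl 3 a b a.2 b.2
    rw [hf, cl_op3 G _ _ (hSN a.2) (hSN b.2)] at h1
    exact h1
  have hinfm : ∀ a b : Ng, ((i a ⊓ i b : G.N) : M) ∈ Ng := fun a b => by
    have h1 := hcl 4 a b a.2 b.2
    rw [hf, cl_op4 G _ _ (hSN a.2) (hSN b.2)] at h1
    exact h1
  let lat : Lattice Ng :=
    { le := fun a b => i a ≤ i b
      lt := fun a b => i a < i b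
      le_refl := fun a => le_refl _
      le_trans := fun a b c h1 h2 => le_trans h1 h2
      lt_iff_le_not_ge := fun a b => lt_iff_le_not_ge
      le_antisymm := fun a b h1 h2 => hi (le_antisymm h1 h2)
      sup := fun a b => ⟨_, hsupm a b⟩
      le_sup_left := fun a b => le_sup_left (a := i a) (b := i b)
      le_sup_right := fun a b => le_sup_right (a := i a) (b := i b)
      sup_le := fun a b c h1 h2 => sup_le (a := i a) (b := i b) h1 h2
      inf := fun a b => ⟨_, hinfm a b⟩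
      inf_le_left := fun a b => inf_le_left (a := i a) (b := i b)
      inf_le_right := fun a b => inf_le_right (a := i a) (b := i b)
      le_inf := fun a b c h1 h2 => SemilatticeInf.le_inf (i a) (i b) (i c) h1 h2 }
  let L : LG M :=
    { N := Ng
      lat := lat
      ord := @IsOrderedAddMonoid.mk Ng _ lat.toPartialOrder.toPreorder
        (fun a b h c => by
          have h1 : i a ≤ i b := h
          have h2 : i a + i c ≤ i b + i c := add_le_add_left h1 (i c)
          exact h2) (fun a b h c => by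
          have h1 : i a ≤ i b := h
          have h2 : i c + i a ≤ i c + i b := add_le_add_right h1 (i c)
          exact h2) }
  refine ⟨L, ⟨hNg, fun a b => rfl, fun a b => rfl⟩, ?_, ?_, hBS, ?_⟩
  · intro K u v hz
    obtain ⟨z, h1, h2, h3⟩ := cl_op6 G K u v hz
    have h4 : (z : M) ∈ Ng := by
      have h5 := hcl (K + 6) u v u.2 v.2
      rw [hf, h1] at h5
      exact h5
    refine ⟨⟨z, h4⟩, h2, ?_⟩
    exact h3
  · intro z hz
    have h1 : (5 : ℤ) • z ∈ G.N := hSN hz
    have h2 := cl_op5 G _ ((5 : ℤ) • z) z rfl (hP z h1)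
    have h3 : f 5 ((5 : ℤ) • z) ((5 : ℤ) • z) ∈ S := hcl 5 _ _ hz hz
    have h4 : f 5 ((5 : ℤ) • z) ((5 : ℤ) • z) = z := by
      have h5 : (5 : ℤ) • (f 5 ((5 : ℤ) • z) ((5 : ℤ) • z) - z) = 0 := by
        rw [smul_sub, hf, h2, sub_self]
      exact sub_eq_zero.1 (hM.tf 5 _ (by norm_num) h5)
    rw [h4] at h3
    exact h3
  · refine le_antisymm (cl_card hlam f B hB.le) ?_
    rw [← hB]
    exact Cardinal.mk_le_mk_of_subset hBS

end Pool.Agent.CN
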