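import Pool.Agent.Lib.MP_764a00_al.Stm

/-!
# MP_764a00_al : piece DI, the possible positive parts of `x` are locally `0` or `x`
-/

namespace Pool.Agent.CN

open Cardinal

private theorem di_anti {M : Type} [AddCommGroup M] (L : LG M) (F : Ultra L.N) {K K' : ℕ}
    (h : K ≤ K') : cq L F K' ⊆ cq L F K := by
  rintro z ⟨q, hq, hz⟩
  exact ⟨q, hq, dv_anti h hz⟩

theorem p_DI (h3 : S_U3) : S_DI := by
  intro M _ L hM hL x y hy F
  have key : ∀ K, y ∈ cq L F K ∨ y - x ∈ cq L F K := by
    intro K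
    obtain ⟨z, hz1, hz2⟩ := hy K
    rcases (h3 L.N F).2.2.2.1 z with h | h
    · left
      refine ⟨z⁺, h, ?_⟩
      have h2 := (dv M K).neg_mem hz2
      rwa [neg_sub] at h2
    · right
      refine ⟨z⁻, h, ?_⟩
      have h5 : z⁺ - z⁻ = z := posPart_sub_negPart z
      have h6 : ((z⁻ : L.N) : M) = ((z⁺ : L.N) : M) - (z : M) := by
        have h7 := congrArg (fun w : L.N => (w : M)) h5
        simp only [AddSubgroup.coe_sub] at h7
        rw [← h7]
        abel
      rw [h6]
      have h8 := (dv M K).sub_mem hz1 hz2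
      have h9 : (z : M) - x - (((z⁺ : L.N) : M) - y) = y - x - (((z⁺ : L.N) : M) - (z : M)) := by
        abel
      rwa [h9] at h8
  refine ⟨key, ?_⟩
  by_contra hno
  rw [not_or] at hno
  obtain ⟨hn1, hn2⟩ := hno
  have e1 : ∃ K, y ∉ cq L F K := by
    by_contra h
    exact hn1 fun K => by
      by_contra h'
      exact h ⟨K, h'⟩
  have e2 : ∃ K, y - x ∉ cq L F K := by
    by_contra h
    exact hn2 fun K => by
      by_contra h'
      exact h ⟨K, h'⟩
  obtain ⟨K₁, hK₁⟩ := e1
  obtain ⟨K₂, hK₂⟩ := e2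
  rcases key (max K₁ K₂) with h | h
  · exact hK₁ (di_anti L F (le_max_left _ _) h)
  · exact hK₂ (di_anti L F (le_max_right _ _) h)

end Pool.Agent.CN
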