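import Pool.Agent.Lib.MP_764a00_al.Stm

/-!
# MP_764a00_al : the extension lemma (helper81)
-/

namespace Pool.Agent.CN

open Cardinal

private theorem se_span {M : Type} [AddCommGroup M] {I : Type} (x : I → M) {w : M}
    (hw : w ∈ AddSubgroup.closure (Set.range x)) : ∃ k : I →₀ ℤ, w = lc k x := by
  rw [← Submodule.span_int_eq_addSubgroupClosure] at hw
  have h2 : w ∈ Submodule.span ℤ (Set.range x) := hw
  rw [Finsupp.mem_span_range_iff_exists_finsupp] at h2
  obtain ⟨c, hc⟩ := h2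
  exact ⟨c, hc.symm⟩

private theorem se_cardK {M : Type} [AddCommGroup M] (H : AddSubgroup M) {I : Type} (x : I → M)
    {lam : Cardinal.{0}} (h0 : ℵ₀ ≤ lam) (hH : #H ≤ lam) (hI : #I ≤ lam) (hI0 : ℵ₀ ≤ #I) :
    #(H ⊔ AddSubgroup.closure (Set.range x) : AddSubgroup M) ≤ lam := by
  have : Infinite I := Cardinal.infinite_iff.2 hI0
  let f : H × (I →₀ ℤ) → M := fun p => (p.1 : M) + lc p.2 x
  have hsub : ((H ⊔ AddSubgroup.closure (Set.range x) : AddSubgroup M) : Set M) ⊆
      Set.range f := by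
    intro z hz
    obtain ⟨u, hu, w, hw, rfl⟩ := AddSubgroup.mem_sup.1 hz
    obtain ⟨k, rfl⟩ := se_span x hw
    exact ⟨(⟨u, hu⟩, k), rfl⟩
  calc #(H ⊔ AddSubgroup.closure (Set.range x) : AddSubgroup M)
      ≤ #(Set.range f) := Cardinal.mk_le_mk_of_subset hsub
    _ ≤ #(H × (I →₀ ℤ)) := Cardinal.mk_range_le
    _ = #H * #(I →₀ ℤ) := by rw [Cardinal.mk_prod, Cardinal.lift_id, Cardinal.lift_id]
    _ ≤ lam * lam := by
        refine mul_le_mul' hH ?_
        rw [Cardinal.mk_finsupp_of_infinite]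
        refine max_le hI ?_
        rw [Cardinal.mk_int]; exact h0
    _ = lam := Cardinal.mul_eq_self h0

private def seGen {M : Type} [AddCommGroup M] (K : AddSubgroup M) : AddSubgroup M where
  carrier := {y | ∃ m : ℕ, (5 : ℤ) ^ m • y ∈ K}
  add_mem' := by
    rintro a b ⟨m, hm⟩ ⟨n, hn⟩
    refine ⟨m + n, ?_⟩
    have e : (5 : ℤ) ^ (m + n) • (a + b) = (5 : ℤ) ^ n • (5 : ℤ) ^ m • a +
        (5 : ℤ) ^ m • (5 : ℤ) ^ n • b := by
      rw [smul_add, smul_smul, smul_smul, ← pow_add, ← pow_add, add_comm n m]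
    rw [e]
    exact K.add_mem (K.zsmul_mem hm _) (K.zsmul_mem hn _)
  zero_mem' := ⟨0, by rw [smul_zero]; exact K.zero_mem⟩
  neg_mem' := by
    rintro a ⟨m, hm⟩
    exact ⟨m, by rw [smul_neg]; exact K.neg_mem hm⟩

private theorem se_mem {M : Type} [AddCommGroup M] {K : AddSubgroup M} {y : M} :
    y ∈ seGen K ↔ ∃ m : ℕ, (5 : ℤ) ^ m • y ∈ K := Iff.rfl

private theorem se_le {M : Type} [AddCommGroup M] (K : AddSubgroup M) : K ≤ seGen K :=
  fun y hy => ⟨0, by rw [pow_zero, one_smul]; exact hy⟩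

private theorem se_pure {M : Type} [AddCommGroup M] (K : AddSubgroup M) (z : M)
    (hz : (5 : ℤ) • z ∈ seGen K) : z ∈ seGen K := by
  obtain ⟨m, hm⟩ := hz
  exact ⟨m + 1, by rw [pow_succ, ← smul_smul]; exact hm⟩

private theorem se_cardG {M : Type} [AddCommGroup M] (hM : Amb M) (K : AddSubgroup M)
    {lam : Cardinal.{0}} (h0 : ℵ₀ ≤ lam) (hK : #K ≤ lam) : #(seGen K) ≤ lam := by
  classical
  have hch : ∀ y : seGen K, ∃ m : ℕ, (5 : ℤ) ^ m • (y : M) ∈ K := fun y => y.2
  choose m hm using hch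
  let f : seGen K → ℕ × K := fun y => (m y, ⟨_, hm y⟩)
  have hf : Function.Injective f := by
    intro y y' h
    have h1 : m y = m y' := congrArg Prod.fst h
    have h2 : (5 : ℤ) ^ m y • (y : M) = (5 : ℤ) ^ m y' • (y' : M) :=
      congrArg (fun z : ℕ × K => (z.2 : M)) h
    rw [← h1] at h2
    have h3 : (5 : ℤ) ^ m y • ((y : M) - y') = 0 := by rw [smul_sub, h2, sub_self]
    exact Subtype.ext (sub_eq_zero.1 (hM.tf _ _ (by positivity) h3))
  calc #(seGen K) ≤ #(ℕ × K) := Cardinal.mk_le_of_injective hf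
    _ = ℵ₀ * #K := by rw [Cardinal.mk_prod, Cardinal.lift_id, Cardinal.lift_id, Cardinal.mk_nat]
    _ ≤ lam * lam := mul_le_mul' h0 hK
    _ = lam := Cardinal.mul_eq_self h0

private theorem se_lc_sub {M : Type} [AddCommGroup M] {I : Type} (k k' : I →₀ ℤ) (x : I → M) :
    lc (k - k') x = lc k x - lc k' x := by
  unfold lc
  exact Finsupp.sum_sub_index fun l a b => sub_smul a b (x l)

private theorem se_lc_add {M : Type} [AddCommGroup M] {I : Type} (k k' : I →₀ ℤ) (x : I → M) :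
    lc (k + k') x = lc k x + lc k' x := by
  classical
  unfold lc
  exact Finsupp.sum_add_index' (fun l => zero_smul ℤ (x l)) fun l a b => add_smul a b (x l)

private theorem se_lc_single {M : Type} [AddCommGroup M] {I : Type} (i : I) (c : ℤ) (x : I → M) :
    lc (Finsupp.single i c) x = c • x i := by
  unfold lc
  exact Finsupp.sum_single_index (zero_smul ℤ (x i))

private theorem se_zs2 {I : Type} {i j : I} (hij : i ≠ j) :
    Zs (Finsupp.single j (1 : ℤ) - Finsupp.single i 1) := by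
  classical
  have hval : ∀ l, (Finsupp.single j (1 : ℤ) - Finsupp.single i 1 : I →₀ ℤ) l =
      (if j = l then 1 else 0) - (if i = l then 1 else 0) := by
    intro l
    rw [Finsupp.sub_apply, Finsupp.single_apply, Finsupp.single_apply]
  have hsupp : ∀ l ∈ (Finsupp.single j (1 : ℤ) - Finsupp.single i 1 : I →₀ ℤ).support, l = i ∨ l = j := by
    intro l hl
    by_contra hcon
    push Not at hcon
    rw [Finsupp.mem_support_iff, hval, if_neg (Ne.symm hcon.2), if_neg (Ne.symm hcon.1)] at hl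
    exact hl (by norm_num)
  refine ⟨?_, ?_⟩
  · rw [Finsupp.sum_sub_index (fun _ _ _ => rfl), Finsupp.sum_single_index rfl,
      Finsupp.sum_single_index rfl]
    norm_num
  · intro S hS hsum
    have hsum' : ∑ l ∈ S, ((if j = l then (1 : ℤ) else 0) - (if i = l then 1 else 0)) = 0 := by
      refine Eq.trans ?_ hsum
      exact Finset.sum_congr rfl fun l _ => (hval l).symm
    rw [Finset.sum_sub_distrib, Finset.sum_ite_eq, Finset.sum_ite_eq] at hsum'
    by_cases h1 : i ∈ S
    · by_cases h2 : j ∈ S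
      · right
        refine Finset.Subset.antisymm hS fun l hl => ?_
        rcases hsupp l hl with rfl | rfl
        · exact h1
        · exact h2
      · rw [if_neg h2, if_pos h1] at hsum'
        norm_num at hsum'
    · by_cases h2 : j ∈ S
      · rw [if_pos h2, if_neg h1] at hsum'
        norm_num at hsum'
      · left
        refine Finset.eq_empty_of_forall_notMem fun l hl => ?_
        rcases hsupp l (hS hl) with rfl | rfl
        · exact h1 hl
        · exact h2 hl

private theorem se_zs3 {I : Type} {i j k : I} (hij : i ≠ j) (hjk : j ≠ k) (hik : i ≠ k) :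
    Zs (Finsupp.single i (1 : ℤ) - Finsupp.single j 2 + Finsupp.single k 1) := by
  classical
  have hval : ∀ l, (Finsupp.single i (1 : ℤ) - Finsupp.single j 2 +
      Finsupp.single k 1 : I →₀ ℤ) l =
      (if i = l then 1 else 0) - (if j = l then 2 else 0) + (if k = l then 1 else 0) := by
    intro l
    rw [Finsupp.add_apply, Finsupp.sub_apply, Finsupp.single_apply, Finsupp.single_apply,
      Finsupp.single_apply]
  have hsupp : ∀ l ∈ (Finsupp.single i (1 : ℤ) - Finsupp.single j 2 +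
      Finsupp.single k 1 : I →₀ ℤ).support, l = i ∨ l = j ∨ l = k := by
    intro l hl
    by_contra hcon
    push Not at hcon
    rw [Finsupp.mem_support_iff, hval, if_neg (Ne.symm hcon.1), if_neg (Ne.symm hcon.2.1),
      if_neg (Ne.symm hcon.2.2)] at hl
    exact hl (by norm_num)
  refine ⟨?_, ?_⟩
  · rw [Finsupp.sum_add_index' (fun _ => rfl) (fun _ _ _ => rfl),
      Finsupp.sum_sub_index (fun _ _ _ => rfl), Finsupp.sum_single_index rfl,
      Finsupp.sum_single_index rfl, Finsupp.sum_single_index rfl]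
    norm_num
  · intro S hS hsum
    have hsum' : ∑ l ∈ S, ((if i = l then (1 : ℤ) else 0) - (if j = l then 2 else 0) +
        (if k = l then 1 else 0)) = 0 := by
      refine Eq.trans ?_ hsum
      exact Finset.sum_congr rfl fun l _ => (hval l).symm
    rw [Finset.sum_add_distrib, Finset.sum_sub_distrib, Finset.sum_ite_eq, Finset.sum_ite_eq,
      Finset.sum_ite_eq] at hsum'
    by_cases h1 : i ∈ S <;> by_cases h2 : j ∈ S <;> by_cases h3 : k ∈ S
    · right
      refine Finset.Subset.antisymm hS fun l hl => ?_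
      rcases hsupp l hl with rfl | rfl | rfl
      · exact h1
      · exact h2
      · exact h3
    · simp only [h1, h2, h3, if_true, if_false] at hsum'; norm_num at hsum'
    · simp only [h1, h2, h3, if_true, if_false] at hsum'; norm_num at hsum'
    · simp only [h1, h2, h3, if_true, if_false] at hsum'; norm_num at hsum'
    · simp only [h1, h2, h3, if_true, if_false] at hsum'; norm_num at hsum'
    · simp only [h1, h2, h3, if_true, if_false] at hsum'; norm_num at hsum'
    · simp only [h1, h2, h3, if_true, if_false] at hsum'; norm_num at hsum'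
    · left
      refine Finset.eq_empty_of_forall_notMem fun l hl => ?_
      rcases hsupp l (hS hl) with rfl | rfl | rfl
      · exact h1 hl
      · exact h2 hl
      · exact h3 hl

private theorem se_typ {M : Type} [AddCommGroup M] {I : Type} (x : I → M) {z : M}
    (h : Typ x z) : ∃ t : I →₀ ℤ, Zs t ∧ z = lc t x := by
  rcases h with ⟨i, j, hij, rfl⟩ | ⟨i, j, k, hij, hjk, hik, rfl⟩
  · refine ⟨_, se_zs2 hij, ?_⟩
    rw [se_lc_sub, se_lc_single, se_lc_single, one_smul, one_smul]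
  · refine ⟨_, se_zs3 hij hjk hik, ?_⟩
    rw [se_lc_add, se_lc_sub, se_lc_single, se_lc_single, se_lc_single, one_smul, one_smul]

private theorem se_typ_mem {M : Type} [AddCommGroup M] {I : Type} (x : I → M) (H : AddSubgroup M)
    {z : M} (h : Typ x z) : z ∈ H ⊔ AddSubgroup.closure (Set.range x) := by
  have hx : ∀ i, x i ∈ H ⊔ AddSubgroup.closure (Set.range x) := fun i =>
    (le_sup_right : AddSubgroup.closure (Set.range x) ≤ _) (AddSubgroup.subset_closure ⟨i, rfl⟩)
  rcases h with ⟨i, j, -, rfl⟩ | ⟨i, j, k, -, -, -, rfl⟩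
  · exact AddSubgroup.sub_mem _ (hx j) (hx i)
  · exact AddSubgroup.add_mem _ (AddSubgroup.sub_mem _ (hx i) (AddSubgroup.zsmul_mem _ (hx j) _))
      (hx k)

theorem p_SE (hm : S_MU) (hg : S_GA) (hr : S_RG) (h0 : S_B0) (ho : S_BO) (hn : S_BN)
    (hi : S_BI) : S_SE := by
  intro M _ B lam hM hlam hlam0 hcof hB p L hLp hLP hBL hLA hLc
  have hl0 : ℵ₀ ≤ lam := hlam0.le
  have hpow : ∀ c < lam, 2 ^ c < lam := fun c hc => hlam.isStrongPrelimit hc
  -- the cardinals
  obtain ⟨κ₀, hκ⟩ : ∃ κ₀ : Cardinal.{0}, κ₀ = Order.succ (2 ^ (2 ^ ℵ₀ : Cardinal.{0})) := ⟨_, rfl⟩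
  have hκlam : κ₀ < lam := by
    rw [hκ]
    refine lt_of_le_of_lt (Order.succ_le_of_lt (Cardinal.cantor _)) ?_
    exact hpow _ (hpow _ (hpow _ hlam0))
  have hκ1 : (2 ^ (2 ^ ℵ₀ : Cardinal.{0}) : Cardinal.{0}) < κ₀ := by
    rw [hκ]; exact Order.lt_succ _
  have hκ0 : ℵ₀ ≤ κ₀ :=
    (((Cardinal.cantor ℵ₀).trans (Cardinal.cantor _)).trans hκ1).le
  obtain ⟨μ, hμm, hμl, hμ0, hμc⟩ := hm lam κ₀ hlam hcof hκlam
  have hμk : ∀ n, κ₀ ≤ μ n := fun n => hμ0.trans (hμm (Nat.zero_le n))
  -- the index set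
  obtain ⟨I, hIlo, hIwf, hIc⟩ : ∃ (I : Type) (_ : LinearOrder I) (_ : WellFoundedLT I),
      #I = κ₀ := ⟨κ₀.ord.ToType, inferInstance, inferInstance, Cardinal.mk_ord_toType κ₀⟩
  have hLD : L.Dense := by
    intro z K
    obtain ⟨u, hu, hz⟩ := hB z K
    exact ⟨⟨u, hBL hu⟩, hz⟩
  obtain ⟨X, hXL, hXo, hXd, hXc⟩ := hr M L lam (fun n => 2 ^ (2 ^ μ n : Cardinal.{0})) hM hLP hLA
    hlam hlam0 hLc (fun n => hpow _ (hpow _ (hμl n)))
  obtain ⟨Γ, hΓm, hΓc, hΓU⟩ := hg M lam μ (p.H : Set M) hlam hμm hμc p.cardH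
  obtain ⟨TT, hTm, hTc, hTU⟩ := hg (LG M × M) lam μ p.T hlam hμm hμc p.cardT
  have hTp : ∀ n, ∀ t ∈ TT n, t ∈ p.T := fun n t ht => by
    rw [← hTU]; exact Set.mem_iUnion.2 ⟨n, ht⟩
  obtain ⟨h, a, x, hLim, hLev⟩ := h0 M L X μ Γ TT I hM hLP hLD hXL hXd
    (fun n => hκ0.trans (hμk n)) hμm hXc hΓc hTc
    (fun n t ht => ⟨(p.good t (hTp n t ht)).1, (p.good t (hTp n t ht)).2.1⟩) (by rw [hIc]; exact hμ0)
  -- the condition
  have hKc : #(p.H ⊔ AddSubgroup.closure (Set.range x) : AddSubgroup M) ≤ lam :=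
    se_cardK p.H x hl0 p.cardH (by rw [hIc]; exact hκlam.le) (by rw [hIc]; exact hκ0)
  obtain ⟨K, hK⟩ : ∃ K, K = p.H ⊔ AddSubgroup.closure (Set.range x) := ⟨_, rfl⟩
  rw [← hK] at hKc
  have hKgen : ∀ y, y ∈ seGen K ↔ y ∈ gen p.H x := by
    intro y; rw [hK]; exact Iff.rfl
  have hpK : p.H ≤ K := by rw [hK]; exact le_sup_left
  have hxK : ∀ l, x l ∈ K := fun l => by
    rw [hK]
    exact (le_sup_right : AddSubgroup.closure (Set.range x) ≤ _)
      (AddSubgroup.subset_closure ⟨l, rfl⟩)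
  have hTyK : ∀ z, Typ x z → z ∈ K := fun z hz => by rw [hK]; exact se_typ_mem x p.H hz
  obtain ⟨q, hqH, hqT⟩ : ∃ q : Cond M B lam, q.H = seGen K ∧
      q.T = p.T ∪ {t | t.1 = L ∧ Typ x t.2} := by
    refine ⟨{ H := seGen K
              pure := se_pure K
              base := fun b hb => se_le K (hpK (p.base hb))
              cardH := se_cardG hM K hl0 hKc
              T := p.T ∪ {t | t.1 = L ∧ Typ x t.2}
              cardT := ?_
              good := ?_ }, rfl, rfl⟩
    · refine (Cardinal.mk_union_le _ _).trans ?_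
      have h2 : #({t : LG M × M | t.1 = L ∧ Typ x t.2} : Set (LG M × M)) ≤ lam := by
        refine le_trans ?_ hKc
        let f : ({t : LG M × M | t.1 = L ∧ Typ x t.2} : Set (LG M × M)) → K :=
          fun t => ⟨t.1.2, hTyK _ t.2.2⟩
        have hf : Function.Injective f := by
          rintro ⟨⟨L1, z1⟩, h1, h1'⟩ ⟨⟨L2, z2⟩, h2, h2'⟩ he
          have e1 : z1 = z2 := congrArg Subtype.val he
          have e2 : L1 = L2 := h1.trans h2.symm
          subst e1; subst e2; rfl
        exact Cardinal.mk_le_of_injective hf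
      calc #p.T + #({t : LG M × M | t.1 = L ∧ Typ x t.2} : Set (LG M × M)) ≤ lam + lam :=
            add_le_add p.cardT h2
        _ = lam := Cardinal.add_eq_self hl0
    · rintro t (ht | ht)
      · obtain ⟨g1, g2, g3⟩ := p.good t ht
        exact ⟨g1, g2, se_le K (hpK g3)⟩
      · obtain ⟨e1, e2⟩ := ht
        rw [e1]
        exact ⟨hLP, hLD, se_le K (hTyK _ e2)⟩
  have hpq : q ≤ p := by
    refine ⟨?_, ?_, ?_⟩
    · rw [hqH]; exact hpK.trans (se_le K)
    · rw [hqT]; exact Set.subset_union_left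
    · intro t ht y hy hyT
      rw [← hTU] at ht
      obtain ⟨n, hn'⟩ := Set.mem_iUnion.1 ht
      rw [hqH, hKgen] at hy
      exact ho M L X p.H Γ TT I h a x hM p.pure hΓm hΓU hTm
        (fun n t ht => p.good t (hTp n t ht)) hLim hLev n t hn' y hy hyT
  refine ⟨q, hpq, I, X, h, a, x, ?_, ?_, ?_⟩
  · refine ⟨by rw [hIc]; exact hκ1, hXL, hXo, fun n => (hLev n).hX, fun n l => (hLev n).aX l, ?_,
      hLim⟩
    intro n
    exact hi M L (X n) _ _ I (h n) (a n) hM hLP (AddSubgroup.zero_mem _) (hLev n)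
  · intro l
    rw [hqH]
    exact se_le K (hxK l)
  · intro z hz
    refine ⟨?_, ?_⟩
    · rw [hqT]
      exact Or.inr ⟨rfl, hz⟩
    · intro y hy hyT
      obtain ⟨t, ht, rfl⟩ := se_typ x hz
      rw [hqH, hKgen] at hy
      rcases hn M L X p.H Γ TT I h a x hM hLP hXL hXo p.pure hΓm hΓU hLim hLev t ht y hy hyT with
        h1 | h1
      · exact Or.inl h1.2
      · exact Or.inr h1.2

end Pool.Agent.CN
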