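import Pool.Agent.Lib.MP_764a00_al.Stm

set_option autoImplicit false

/-!
MP_764a00_al, piece U1: existence of maximal filters.
-/

namespace Pool.Agent.CN

theorem p_U1 : S_U1 := by
  intro N _ _ _ S hS hS0 hT
  classical
  obtain ⟨P, hP⟩ : ∃ P : Set (Set N), P = {F | (∀ a ∈ F, 0 ≤ a) ∧ S ⊆ F ∧
      (∀ a ∈ F, ∀ b ∈ F, a ⊓ b ∈ F) ∧ (0 : N) ∉ F} := ⟨_, rfl⟩
  obtain ⟨F₀, hF₀⟩ : ∃ F₀ : Set N, F₀ = {x | 0 ≤ x ∧ ∃ (T : Finset N) (hT : T.Nonempty),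
      (T : Set N) ⊆ S ∧ T.inf' hT id ≤ x} := ⟨_, rfl⟩
  have h0 : F₀ ∈ P := by
    rw [hP, hF₀]
    refine ⟨fun a ha => ha.1, ?_, ?_, ?_⟩
    · intro x hx
      exact ⟨hS0 x hx, {x}, Finset.singleton_nonempty x, by simpa using hx, by simp⟩
    · rintro a ⟨ha0, T1, hT1, hT1S, ha⟩ b ⟨hb0, T2, hT2, hT2S, hb⟩
      refine ⟨le_inf ha0 hb0, T1 ∪ T2, hT1.mono Finset.subset_union_left, ?_, ?_⟩
      · rw [Finset.coe_union]
        exact Set.union_subset hT1S hT2S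
      · rw [Finset.inf'_union hT1 hT2]
        exact inf_le_inf ha hb
    · rintro ⟨_, T, hTn, hTS, h⟩
      apply hT T hTn hTS
      exact le_antisymm h (Finset.le_inf' _ _ fun x hx => hS0 x (hTS hx))
  obtain ⟨F, hsub, hmax⟩ := zorn_subset_nonempty P (by
    intro c hc hch hcn
    refine ⟨⋃₀ c, ?_, fun s hs => Set.subset_sUnion_of_mem hs⟩
    rw [hP] at hc ⊢
    refine ⟨?_, ?_, ?_, ?_⟩
    · rintro a ⟨s, hs, ha⟩
      exact (hc hs).1 a ha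
    · obtain ⟨s, hs⟩ := hcn
      exact ((hc hs).2.1).trans (Set.subset_sUnion_of_mem hs)
    · rintro a ⟨s, hs, ha⟩ b ⟨t, ht, hb⟩
      rcases hch.total hs ht with h | h
      · exact ⟨t, ht, (hc ht).2.2.1 a (h ha) b hb⟩
      · exact ⟨s, hs, (hc hs).2.2.1 a ha b (h hb)⟩
    · rintro ⟨s, hs, h⟩
      exact (hc hs).2.2.2 h) F₀ h0
  have hFP : F ∈ P := hmax.prop
  have hFP' := hFP
  rw [hP] at hFP'
  obtain ⟨h1, h2, h3, h4⟩ := hFP'
  have hne : F.Nonempty := hS.mono h2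
  refine ⟨⟨F, h1, hne, h4, h3, ?_⟩, h2⟩
  intro a ha haF
  by_contra hcon
  push Not at hcon
  obtain ⟨G, hG⟩ : ∃ G : Set N, G = {x | 0 ≤ x ∧ ∃ f ∈ F, a ⊓ f ≤ x} := ⟨_, rfl⟩
  have hFG : F ⊆ G := by
    intro x hx
    rw [hG]
    exact ⟨h1 x hx, x, hx, inf_le_right⟩
  have hGP : G ∈ P := by
    rw [hP]
    refine ⟨?_, h2.trans hFG, ?_, ?_⟩
    · intro x hx
      rw [hG] at hx
      exact hx.1
    · intro x hx y hy
      rw [hG] at hx hy ⊢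
      obtain ⟨hx0, f, hf, hfx⟩ := hx
      obtain ⟨hy0, f', hf', hfy⟩ := hy
      refine ⟨le_inf hx0 hy0, f ⊓ f', h3 f hf f' hf', le_inf ?_ ?_⟩
      · exact le_trans (inf_le_inf_left a inf_le_left) hfx
      · exact le_trans (inf_le_inf_left a inf_le_right) hfy
    · intro h
      rw [hG] at h
      obtain ⟨_, f, hf, hf0⟩ := h
      exact hcon f hf (le_antisymm hf0 (le_inf ha (h1 f hf)))
  have hGF : G ⊆ F := hmax.le_of_ge hGP hFG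
  apply haF
  apply hGF
  rw [hG]
  obtain ⟨f, hf⟩ := hne
  exact ⟨ha, f, hf, inf_le_left⟩

end Pool.Agent.CN
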