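import Pool.Agent.Lib.MP_764a00_al.W.Stm

/-! # the group of the world (helper80) -/

namespace Pool.Agent.CNW

open Pool.Agent.CN Pool.Agent.CR Cardinal

section

variable {M : Type} [AddCommGroup M] {B : Set M} {lam : Cardinal.{0}}

private def w2_el : Ob M B lam → M
  | .el x => x
  | _ => 0

private def w2_add (l : List (Ob M B lam)) : Ob M B lam := .el ((l.map w2_el).sum)

private def w2_neg (l : List (Ob M B lam)) : Ob M B lam := .el (-(l.map w2_el).sum)

end

theorem p_W2 : S_W2 := by
  intro M _ B lam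
  refine (((FW.ev_fun w2_add).and (FW.ev_fun w2_neg)).and (FW.ev_dir.and FW.ev_ne)).mono ?_
  rintro S G ⟨⟨hadd, hneg⟩, hdir, p, hp⟩
  refine ⟨{ carrier := Gw S G, add_mem' := ?_, zero_mem' := ?_, neg_mem' := ?_ }, rfl⟩
  · rintro x y ⟨hx, q, hq, hxq⟩ ⟨hy, r, hr, hyr⟩
    refine ⟨?_, ?_⟩
    · have := hadd [Ob.el x, Ob.el y] (by
        intro z hz
        simp only [List.mem_cons, List.not_mem_nil, or_false] at hz
        rcases hz with rfl | rfl
        · exact hx
        · exact hy)
      simpa [w2_add, w2_el] using this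
    · obtain ⟨s, hs, hsq, hsr⟩ := hdir q hq r hr
      exact ⟨s, hs, add_mem (hsq.1 hxq) (hsr.1 hyr)⟩
  · refine ⟨?_, p, hp, zero_mem _⟩
    have := hadd [] (by intro z hz; simp at hz)
    simpa [w2_add, w2_el] using this
  · rintro x ⟨hx, q, hq, hxq⟩
    refine ⟨?_, q, hq, neg_mem hxq⟩
    have := hneg [Ob.el x] (by
      intro z hz
      simp only [List.mem_cons, List.not_mem_nil, or_false] at hz
      rw [hz]
      exact hx)
    simpa [w2_neg, w2_el] using this

end Pool.Agent.CNW
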